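import Mathlib

set_option autoImplicit false

open Filter Topology Complex
open scoped ContDiff

namespace Pool.Agent.V7H87.KD

variable {n : ℕ}

/-- The Wirtinger derivative `∂f/∂z_j = (∂f/∂x_j - i ∂f/∂y_j) / 2`. -/
noncomputable def dz (j : Fin n) (f : (Fin n → ℂ) → ℂ) (y : Fin n → ℂ) : ℂ :=
  (fderiv ℝ f y (Pi.single j 1) - I * fderiv ℝ f y (Pi.single j I)) / 2

/-- The Wirtinger derivative `∂f/∂z̄_j = (∂f/∂x_j + i ∂f/∂y_j) / 2`. -/
noncomputable def dzb (j : Fin n) (f : (Fin n → ℂ) → ℂ) (y : Fin n → ℂ) : ℂ :=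
  (fderiv ℝ f y (Pi.single j 1) + I * fderiv ℝ f y (Pi.single j I)) / 2

/-- The complex covectors at a point of `ℂⁿ`, by their coordinates with respect to the basis
`dz_1, …, dz_n, dz̄_1, …, dz̄_n` (first summand: `dz_j`, second summand: `dz̄_j`). -/
abbrev Cov (n : ℕ) : Type := (Fin n ⊕ Fin n) → ℂ

/-- The covector `dz_j`. -/
noncomputable def eZ (j : Fin n) : Cov n := Pi.single (Sum.inl j) 1

/-- The covector `dz̄_j`. -/
noncomputable def eZb (j : Fin n) : Cov n := Pi.single (Sum.inr j) 1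

/-- `∂f` at the point `y`. -/
noncomputable def del (f : (Fin n → ℂ) → ℂ) (y : Fin n → ℂ) : Cov n :=
  ∑ j, dz j f y • eZ j

/-- `∂̄f` at the point `y`. -/
noncomputable def delb (f : (Fin n → ℂ) → ℂ) (y : Fin n → ℂ) : Cov n :=
  ∑ j, dzb j f y • eZb j

/-- The form `∂∂̄f = ∑ ∂²f/∂z_j∂z̄_k dz_j ∧ dz̄_k` at the point `y`, an element of the exterior algebra
of the space of complex covectors. -/
noncomputable def ddb (f : (Fin n → ℂ) → ℂ) (y : Fin n → ℂ) : ExteriorAlgebra ℂ (Cov n) :=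
  ∑ j, ∑ k, dz j (dzb k f) y • (ExteriorAlgebra.ι ℂ (eZ j) * ExteriorAlgebra.ι ℂ (eZb k))

/-- The form `∂f_1 ∧ … ∧ ∂f_j ∧ ∂r ∧ ∂̄r ∧ (∂∂̄r)^(n-1-j)` at the point `y`, for the list
`fs = [f_1, …, f_j]`. -/
noncomputable def kohnForm (r : (Fin n → ℂ) → ℝ) (fs : List ((Fin n → ℂ) → ℂ))
    (y : Fin n → ℂ) : ExteriorAlgebra ℂ (Cov n) :=
  (fs.map fun f => ExteriorAlgebra.ι ℂ (del f y)).prod *
    ExteriorAlgebra.ι ℂ (del (fun w => (r w : ℂ)) y) *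
    ExteriorAlgebra.ι ℂ (delb (fun w => (r w : ℂ)) y) *
    ddb (fun w => (r w : ℂ)) y ^ (n - 1 - fs.length)

/-- `f` is smooth in a neighbourhood of `x`; such functions represent the germs of smooth functions. -/
def SmoothNear (x : Fin n → ℂ) (f : (Fin n → ℂ) → ℂ) : Prop := ∀ᶠ y in 𝓝 x, ContDiffAt ℝ ∞ f y

/-- The (representatives of the) elements of the ideal of germs at `x` generated by the set `S`: finite
sums `∑ a_i s_i` with smooth `a_i` and `s_i ∈ S`. -/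
def idealGen (x : Fin n → ℂ) (S : Set ((Fin n → ℂ) → ℂ)) : Set ((Fin n → ℂ) → ℂ) :=
  {f | ∃ (N : ℕ) (a s : Fin N → (Fin n → ℂ) → ℂ), (∀ i, SmoothNear x (a i)) ∧ (∀ i, s i ∈ S) ∧
    f = fun y => ∑ i, a i y * s i y}

/-- The real radical of the ideal generated by `S`: the smooth `g` with `|g|^m ≤ |f|` near `x` for some
`m ≥ 1` and some `f` in this ideal. -/
def realRadical (x : Fin n → ℂ) (S : Set ((Fin n → ℂ) → ℂ)) : Set ((Fin n → ℂ) → ℂ) :=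
  {g | SmoothNear x g ∧ ∃ m : ℕ, 1 ≤ m ∧ ∃ f ∈ idealGen x S, ∀ᶠ y in 𝓝 x, ‖g y‖ ^ m ≤ ‖f y‖}

/-- The coefficients of the forms `∂f_1 ∧ … ∧ ∂f_j ∧ ∂r ∧ ∂̄r ∧ (∂∂̄r)^(n-1-j)` with `f_i ∈ S`
and `1 ≤ j ≤ n - 1`; a coefficient is the composition of the form with a linear functional on the
exterior algebra. -/
def kohnCoeffs (r : (Fin n → ℂ) → ℝ) (S : Set ((Fin n → ℂ) → ℂ)) : Set ((Fin n → ℂ) → ℂ) :=
  {h | ∃ fs : List ((Fin n → ℂ) → ℂ), 1 ≤ fs.length ∧ fs.length ≤ n - 1 ∧ (∀ f ∈ fs, f ∈ S) ∧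
    ∃ l : ExteriorAlgebra ℂ (Cov n) →ₗ[ℂ] ℂ, h = fun y => l (kohnForm r fs y)}

/-- Kohn's ideals: `kohnIdeal r x k` is the ideal `I_{k+1}` of germs at `x`, given by its
representatives. -/
def kohnIdeal (r : (Fin n → ℂ) → ℝ) (x : Fin n → ℂ) : ℕ → Set ((Fin n → ℂ) → ℂ)
  | 0 => realRadical x ({fun y => (r y : ℂ)} ∪
      {h | ∃ l : ExteriorAlgebra ℂ (Cov n) →ₗ[ℂ] ℂ, h = fun y => l (kohnForm r [] y)})
  | k + 1 => realRadical x (kohnIdeal r x k ∪ kohnCoeffs r (kohnIdeal r x k))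

/-- The order of vanishing at `0`. -/
noncomputable def vord {F : Type*} [NormedAddCommGroup F] (u : ℂ → F) : ℕ∞ :=
  ⨆ (N : ℕ) (_ : u =O[𝓝 0] fun t : ℂ => ‖t‖ ^ N), (N : ℕ∞)

/-- The D'Angelo type at the point `x` of the hypersurface with defining function `r`. -/
noncomputable def dAngeloType (r : (Fin n → ℂ) → ℝ) (x : Fin n → ℂ) : ENNReal :=
  ⨆ (γ : ℂ → Fin n → ℂ) (_ : AnalyticAt ℂ γ 0 ∧ γ 0 = x ∧ ¬ ∀ᶠ t in 𝓝 0, γ t = x),
    (vord (fun t => r (γ t)) : ENNReal) / (vord (fun t => γ t - x) : ENNReal)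

end Pool.Agent.V7H87.KD
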