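import Mathlib
import Pool.Agent.V7H87.KD.Defs

set_option autoImplicit false

open Filter Topology Complex
open scoped ContDiff

namespace Pool.Agent.V7H87.KD

variable {n : ℕ} {A : Type} [Ring A] [Algebra ℂ A]

/-- `∂f = ∑ ∂f/∂z_j dz_j` at the point `y`, where `e j` stands for `dz_j` (in the algebra `A` of
forms). -/
noncomputable def dF (e : Fin n → A) (f : (Fin n → ℂ) → ℂ) (y : Fin n → ℂ) : A := ∑ j, dz j f y • e j

/-- `∂̄f = ∑ ∂f/∂z̄_j dz̄_j` at the point `y`, where `e' j` stands for `dz̄_j`. -/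
noncomputable def dbF (e' : Fin n → A) (f : (Fin n → ℂ) → ℂ) (y : Fin n → ℂ) : A :=
  ∑ j, dzb j f y • e' j

/-- `∂∂̄f = ∑ ∂²f/∂z_j∂z̄_k dz_j ∧ dz̄_k` at the point `y`. -/
noncomputable def ddbF (e e' : Fin n → A) (f : (Fin n → ℂ) → ℂ) (y : Fin n → ℂ) : A :=
  ∑ j, ∑ k, dz j (dzb k f) y • (e j * e' k)

/-- The form `∂f_1 ∧ … ∧ ∂f_j ∧ ∂r ∧ ∂̄r ∧ (∂∂̄r)^(n-1-j)` at the point `y`, for the list
`fs = [f_1, …, f_j]`. -/
noncomputable def kForm (e e' : Fin n → A) (r : (Fin n → ℂ) → ℂ) (fs : List ((Fin n → ℂ) → ℂ))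
    (y : Fin n → ℂ) : A :=
  (fs.map fun f => dF e f y).prod * dF e r y * dbF e' r y * ddbF e e' r y ^ (n - 1 - fs.length)

/-- The coefficients of a form depending on the point `y`: its compositions with the linear functionals
on the space of forms. -/
def coeffs (Φ : (Fin n → ℂ) → A) : Set ((Fin n → ℂ) → ℂ) :=
  {h | ∃ l : A →ₗ[ℂ] ℂ, h = fun y => l (Φ y)}

/-- The coefficients of all the forms `∂f_1 ∧ … ∧ ∂f_j ∧ ∂r ∧ ∂̄r ∧ (∂∂̄r)^(n-1-j)` with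
`f_1, …, f_j ∈ S` and `1 ≤ j ≤ n - 1`. -/
def kCoeffs (e e' : Fin n → A) (r : (Fin n → ℂ) → ℂ) (S : Set ((Fin n → ℂ) → ℂ)) :
    Set ((Fin n → ℂ) → ℂ) :=
  {h | ∃ fs : List ((Fin n → ℂ) → ℂ), 1 ≤ fs.length ∧ fs.length ≤ n - 1 ∧ (∀ f ∈ fs, f ∈ S) ∧
    h ∈ coeffs (kForm e e' r fs)}

/-- Kohn's first ideal `I_1` of germs at `x`, given by its representatives. -/
def kFirst (e e' : Fin n → A) (r : (Fin n → ℂ) → ℂ) (x : Fin n → ℂ) : Set ((Fin n → ℂ) → ℂ) :=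
  realRadical x ({r} ∪ coeffs (kForm e e' r []))

/-- The step from `I_k` to `I_{k+1}`. -/
def kStep (e e' : Fin n → A) (r : (Fin n → ℂ) → ℂ) (x : Fin n → ℂ) (S : Set ((Fin n → ℂ) → ℂ)) :
    Set ((Fin n → ℂ) → ℂ) :=
  realRadical x (S ∪ kCoeffs e e' r S)

/-- Kohn's ideals of germs at `x`, given by their representatives: `kIdeal e e' r x k` is `I_{k+1}`. -/
def kIdeal (e e' : Fin n → A) (r : (Fin n → ℂ) → ℂ) (x : Fin n → ℂ) (k : ℕ) :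
    Set ((Fin n → ℂ) → ℂ) :=
  (kStep e e' r x)^[k] (kFirst e e' r x)

/-- The Levi form of `r` at the point `z` is nonnegative on the complex tangent space. -/
def LeviNonneg (r : (Fin n → ℂ) → ℂ) (z : Fin n → ℂ) : Prop :=
  ∀ ζ : Fin n → ℂ, ∑ j, dz j r z * ζ j = 0 →
    0 ≤ (∑ j, ∑ k, dz j (dzb k r) z * ζ j * (starRingEnd ℂ) (ζ k)).re

end Pool.Agent.V7H87.KD
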