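import Mathlib
import Pool.Agent.V7H87.KD.DefsC

set_option autoImplicit false

open Filter Topology Complex
open scoped ContDiff

namespace Pool.Agent.V7H87.KD

variable {n : ℕ} {V : Type} [AddCommGroup V] [Module ℂ V] (b : Module.Basis (Fin n ⊕ Fin n) ℂ V)

/-- the comparison of the two exterior algebras -/
noncomputable def cmp : ExteriorAlgebra ℂ (Cov n) →ₐ[ℂ] ExteriorAlgebra ℂ V :=
  ExteriorAlgebra.map (b.equivFun.symm : Cov n →ₗ[ℂ] V)

/-- the comparison in the other direction -/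
noncomputable def cmp' : ExteriorAlgebra ℂ V →ₐ[ℂ] ExteriorAlgebra ℂ (Cov n) :=
  ExteriorAlgebra.map (b.equivFun : V →ₗ[ℂ] Cov n)

theorem cmp_cmp' (u : ExteriorAlgebra ℂ V) : cmp b (cmp' b u) = u := by
  have : (cmp b).comp (cmp' b) = AlgHom.id ℂ _ := by
    rw [cmp, cmp', ExteriorAlgebra.map_comp_map]
    have : (b.equivFun.symm : Cov n →ₗ[ℂ] V) ∘ₗ (b.equivFun : V →ₗ[ℂ] Cov n) = LinearMap.id := by
      ext v
      simp
    rw [this, ExteriorAlgebra.map_id]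
  exact AlgHom.congr_fun this u

theorem cmp'_cmp (u : ExteriorAlgebra ℂ (Cov n)) : cmp' b (cmp b u) = u := by
  have : (cmp' b).comp (cmp b) = AlgHom.id ℂ _ := by
    rw [cmp, cmp', ExteriorAlgebra.map_comp_map]
    have : (b.equivFun : V →ₗ[ℂ] Cov n) ∘ₗ (b.equivFun.symm : Cov n →ₗ[ℂ] V) = LinearMap.id := by
      ext v
      simp
    rw [this, ExteriorAlgebra.map_id]
  exact AlgHom.congr_fun this u

theorem cmp_eZ (j : Fin n) : cmp b (ExteriorAlgebra.ι ℂ (eZ j)) = ExteriorAlgebra.ι ℂ (b (Sum.inl j)) := by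
  rw [cmp, ExteriorAlgebra.map_apply_ι]
  congr 1
  show b.equivFun.symm (Pi.single (Sum.inl j) 1) = _
  rw [Module.Basis.equivFun_symm_apply]
  simp [Pi.single_apply]

theorem cmp_eZb (j : Fin n) : cmp b (ExteriorAlgebra.ι ℂ (eZb j)) = ExteriorAlgebra.ι ℂ (b (Sum.inr j)) := by
  rw [cmp, ExteriorAlgebra.map_apply_ι]
  congr 1
  show b.equivFun.symm (Pi.single (Sum.inr j) 1) = _
  rw [Module.Basis.equivFun_symm_apply]
  simp [Pi.single_apply]

theorem dF_eq (f : (Fin n → ℂ) → ℂ) (y : Fin n → ℂ) :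
    dF (fun j => ExteriorAlgebra.ι ℂ (b (Sum.inl j))) f y = cmp b (ExteriorAlgebra.ι ℂ (del f y)) := by
  rw [del, map_sum, map_sum, dF]
  simp only [map_smul, cmp_eZ]

theorem dbF_eq (f : (Fin n → ℂ) → ℂ) (y : Fin n → ℂ) :
    dbF (fun j => ExteriorAlgebra.ι ℂ (b (Sum.inr j))) f y = cmp b (ExteriorAlgebra.ι ℂ (delb f y)) := by
  rw [delb, map_sum, map_sum, dbF]
  simp only [map_smul, cmp_eZb]

theorem ddbF_eq (f : (Fin n → ℂ) → ℂ) (y : Fin n → ℂ) :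
    ddbF (fun j => ExteriorAlgebra.ι ℂ (b (Sum.inl j))) (fun j => ExteriorAlgebra.ι ℂ (b (Sum.inr j))) f y =
      cmp b (ddb f y) := by
  rw [ddb, map_sum, ddbF]
  simp only [map_sum, map_smul, map_mul, cmp_eZ, cmp_eZb]

theorem kForm_eq (r : (Fin n → ℂ) → ℝ) (fs : List ((Fin n → ℂ) → ℂ)) (y : Fin n → ℂ) :
    kForm (fun j => ExteriorAlgebra.ι ℂ (b (Sum.inl j))) (fun j => ExteriorAlgebra.ι ℂ (b (Sum.inr j)))
      (fun w => (r w : ℂ)) fs y = cmp b (kohnForm r fs y) := by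
  rw [kForm, kohnForm, map_mul, map_mul, map_mul, map_pow, map_list_prod, dF_eq, dbF_eq, ddbF_eq,
    List.map_map]
  congr 4
  exact List.map_congr_left fun f _ => dF_eq b f y

theorem coeffs_eq (r : (Fin n → ℂ) → ℝ) (fs : List ((Fin n → ℂ) → ℂ)) :
    coeffs (kForm (fun j => ExteriorAlgebra.ι ℂ (b (Sum.inl j)))
      (fun j => ExteriorAlgebra.ι ℂ (b (Sum.inr j))) (fun w => (r w : ℂ)) fs) =
      {h | ∃ l : ExteriorAlgebra ℂ (Cov n) →ₗ[ℂ] ℂ, h = fun y => l (kohnForm r fs y)} := by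
  ext h
  constructor
  · rintro ⟨l, rfl⟩
    refine ⟨l ∘ₗ (cmp b).toLinearMap, ?_⟩
    funext y
    rw [kForm_eq]
    rfl
  · rintro ⟨l, rfl⟩
    refine ⟨l ∘ₗ (cmp' b).toLinearMap, ?_⟩
    funext y
    rw [kForm_eq]
    show _ = l (cmp' b (cmp b (kohnForm r fs y)))
    rw [cmp'_cmp]

theorem kCoeffs_eq (r : (Fin n → ℂ) → ℝ) (S : Set ((Fin n → ℂ) → ℂ)) :
    kCoeffs (fun j => ExteriorAlgebra.ι ℂ (b (Sum.inl j)))
      (fun j => ExteriorAlgebra.ι ℂ (b (Sum.inr j))) (fun w => (r w : ℂ)) S = kohnCoeffs r S := by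
  ext h
  simp only [kCoeffs, kohnCoeffs, coeffs_eq]
  rfl

theorem kIdeal_eq (r : (Fin n → ℂ) → ℝ) (x : Fin n → ℂ) (k : ℕ) :
    kIdeal (fun j => ExteriorAlgebra.ι ℂ (b (Sum.inl j)))
      (fun j => ExteriorAlgebra.ι ℂ (b (Sum.inr j))) (fun w => (r w : ℂ)) x k = kohnIdeal r x k := by
  induction k with
  | zero =>
    rw [kIdeal, Function.iterate_zero_apply, kohnIdeal, kFirst, coeffs_eq]
  | succ k ih =>
    rw [kIdeal, Function.iterate_succ_apply', kohnIdeal, ← ih, kStep, kCoeffs_eq]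
    rfl

end Pool.Agent.V7H87.KD
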