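import Mathlib
import Pool.Agent.V7H87.KD.Defs

set_option autoImplicit false

open Filter Topology Complex
open scoped ContDiff

namespace Pool.Agent.V7H87.KD

variable {n : ℕ}

/-- The ring of smooth complex functions on `ℂⁿ`. -/
def Rn (n : ℕ) : Subalgebra ℂ ((Fin n → ℂ) → ℂ) where
  carrier := {f | ContDiff ℝ ∞ f}
  mul_mem' := fun {a b} (ha : ContDiff ℝ ∞ a) (hb : ContDiff ℝ ∞ b) =>
    (ha.mul hb : ContDiff ℝ ∞ (a * b))
  add_mem' := fun {a b} (ha : ContDiff ℝ ∞ a) (hb : ContDiff ℝ ∞ b) =>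
    (ha.add hb : ContDiff ℝ ∞ (a + b))
  algebraMap_mem' := fun c => (contDiff_const : ContDiff ℝ ∞ (fun _ : Fin n → ℂ => c))

theorem mem_Rn {f : (Fin n → ℂ) → ℂ} : f ∈ Rn n ↔ ContDiff ℝ ∞ f := Iff.rfl

theorem smooth (f : Rn n) : ContDiff ℝ ∞ (f : (Fin n → ℂ) → ℂ) := f.2

theorem diff (f : Rn n) : Differentiable ℝ (f : (Fin n → ℂ) → ℂ) :=
  (smooth f).differentiable (by simp)

theorem cont (f : Rn n) : Continuous (f : (Fin n → ℂ) → ℂ) := (smooth f).continuous

@[simp] theorem coe_sum' {ι : Type*} (s : Finset ι) (f : ι → Rn n) :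
    ((∑ i ∈ s, f i : Rn n) : (Fin n → ℂ) → ℂ) = ∑ i ∈ s, (f i : (Fin n → ℂ) → ℂ) := by
  classical
  induction s using Finset.induction_on with
  | empty => simp
  | insert a s ha ih => rw [Finset.sum_insert ha, Finset.sum_insert ha, ← ih]; rfl

/-- directional derivative -/
noncomputable def dv (v : Fin n → ℂ) : Derivation ℂ (Rn n) (Rn n) where
  toFun f := ⟨fun y => fderiv ℝ (f : (Fin n → ℂ) → ℂ) y v, by
    have h2 : ContDiff ℝ ∞ (fderiv ℝ (f : (Fin n → ℂ) → ℂ)) :=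
      ContDiff.fderiv_right (m := ∞) (smooth f) (by simp)
    exact mem_Rn.2 (h2.clm_apply contDiff_const)⟩
  map_add' f g := by
    ext y
    simp only [Subalgebra.coe_add, Pi.add_apply]
    have : ((f : (Fin n → ℂ) → ℂ) + g) = fun y => (f : (Fin n → ℂ) → ℂ) y + (g : (Fin n → ℂ) → ℂ) y := rfl
    rw [this, fderiv_fun_add (diff f y) (diff g y)]
    rfl
  map_smul' c f := by
    ext y
    simp only [Subalgebra.coe_smul, Pi.smul_apply, RingHom.id_apply]
    rw [fderiv_const_smul (diff f y) c]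
    rfl
  map_one_eq_zero' := by
    ext y
    show fderiv ℝ (fun _ => (1 : ℂ)) y v = 0
    simp
  leibniz' f g := by
    ext y
    have : ((f * g : Rn n) : (Fin n → ℂ) → ℂ) = fun y => (f : (Fin n → ℂ) → ℂ) y * (g : (Fin n → ℂ) → ℂ) y := rfl
    show fderiv ℝ ((f * g : Rn n) : (Fin n → ℂ) → ℂ) y v = _
    rw [this, fderiv_fun_mul (diff f y) (diff g y)]
    simp [smul_eq_mul]

theorem dv_apply (v : Fin n → ℂ) (f : Rn n) (y : Fin n → ℂ) :
    (dv v f : (Fin n → ℂ) → ℂ) y = fderiv ℝ (f : (Fin n → ℂ) → ℂ) y v := rfl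

theorem dv_comm (v w : Fin n → ℂ) (f : Rn n) : dv v (dv w f) = dv w (dv v f) := by
  ext y
  have h2 : ContDiff ℝ ∞ (fderiv ℝ (f : (Fin n → ℂ) → ℂ)) :=
    ContDiff.fderiv_right (m := ∞) (smooth f) (by simp)
  have hd : DifferentiableAt ℝ (fderiv ℝ (f : (Fin n → ℂ) → ℂ)) y :=
    (h2.differentiable (by simp)) y
  have e : ∀ v w : Fin n → ℂ, fderiv ℝ (fun y => fderiv ℝ (f : (Fin n → ℂ) → ℂ) y w) y v =
      fderiv ℝ (fderiv ℝ (f : (Fin n → ℂ) → ℂ)) y v w := by
    intro v w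
    rw [fderiv_clm_apply hd (differentiableAt_const w)]
    simp
  show fderiv ℝ (fun y => fderiv ℝ (f : (Fin n → ℂ) → ℂ) y w) y v =
    fderiv ℝ (fun y => fderiv ℝ (f : (Fin n → ℂ) → ℂ) y v) y w
  rw [e, e]
  have hs : IsSymmSndFDerivAt ℝ (f : (Fin n → ℂ) → ℂ) y :=
    ((smooth f).contDiffAt (x := y)).isSymmSndFDerivAt (by
      rw [minSmoothness_of_isRCLikeNormedField]
      exact WithTop.coe_le_coe.2 (le_top : (2 : ℕ∞) ≤ ⊤))
  exact hs v w

/-- `∂/∂z_j` as a derivation of the ring of smooth functions -/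
noncomputable def pd (j : Fin n) : Derivation ℂ (Rn n) (Rn n) :=
  (1 / 2 : ℂ) • (dv (Pi.single j 1) - I • dv (Pi.single j I))

/-- `∂/∂z̄_j` as a derivation of the ring of smooth functions -/
noncomputable def pdb (j : Fin n) : Derivation ℂ (Rn n) (Rn n) :=
  (1 / 2 : ℂ) • (dv (Pi.single j 1) + I • dv (Pi.single j I))

theorem pd_coe (j : Fin n) (f : Rn n) : (pd j f : (Fin n → ℂ) → ℂ) = dz j f := by
  funext y
  simp only [pd, Derivation.coe_smul, Derivation.coe_sub, Pi.smul_apply, Pi.sub_apply,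
    Subalgebra.coe_smul, Subalgebra.coe_sub, dv_apply, dz, smul_eq_mul]
  ring

theorem pdb_coe (j : Fin n) (f : Rn n) : (pdb j f : (Fin n → ℂ) → ℂ) = dzb j f := by
  funext y
  simp only [pdb, Derivation.coe_smul, Derivation.coe_add, Pi.smul_apply, Pi.add_apply,
    Subalgebra.coe_smul, Subalgebra.coe_add, dv_apply, dzb, smul_eq_mul]
  ring

theorem pd_pd (j k : Fin n) (f : Rn n) : pd j (pd k f) = pd k (pd j f) := by
  simp only [pd, Derivation.coe_smul, Derivation.coe_sub, Pi.smul_apply, Pi.sub_apply, Derivation.map_smul,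
    map_sub, smul_sub]
  rw [dv_comm (Pi.single j 1) (Pi.single k 1), dv_comm (Pi.single j 1) (Pi.single k I),
    dv_comm (Pi.single j I) (Pi.single k 1), dv_comm (Pi.single j I) (Pi.single k I)]
  module

theorem pd_pdb (j k : Fin n) (f : Rn n) : pd j (pdb k f) = pdb k (pd j f) := by
  simp only [pd, pdb, Derivation.coe_smul, Derivation.coe_sub, Derivation.coe_add, Pi.smul_apply,
    Pi.add_apply, Pi.sub_apply, Derivation.map_smul, map_add,
    map_sub, smul_sub, smul_add]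
  rw [dv_comm (Pi.single j 1) (Pi.single k 1), dv_comm (Pi.single j 1) (Pi.single k I),
    dv_comm (Pi.single j I) (Pi.single k 1), dv_comm (Pi.single j I) (Pi.single k I)]
  module

theorem pdb_pdb (j k : Fin n) (f : Rn n) : pdb j (pdb k f) = pdb k (pdb j f) := by
  simp only [pdb, Derivation.coe_smul, Derivation.coe_add, Pi.smul_apply, Pi.add_apply, Derivation.map_smul,
    map_add, smul_add]
  rw [dv_comm (Pi.single j 1) (Pi.single k 1), dv_comm (Pi.single j 1) (Pi.single k I),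
    dv_comm (Pi.single j I) (Pi.single k 1), dv_comm (Pi.single j I) (Pi.single k I)]
  module


theorem pd_apply (j : Fin n) (f : Rn n) (y : Fin n → ℂ) :
    (pd j f : (Fin n → ℂ) → ℂ) y = (fderiv ℝ (f : (Fin n → ℂ) → ℂ) y (Pi.single j 1) -
      I * fderiv ℝ (f : (Fin n → ℂ) → ℂ) y (Pi.single j I)) / 2 := by
  rw [pd_coe]; rfl

theorem pdb_apply (j : Fin n) (f : Rn n) (y : Fin n → ℂ) :
    (pdb j f : (Fin n → ℂ) → ℂ) y = (fderiv ℝ (f : (Fin n → ℂ) → ℂ) y (Pi.single j 1) +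
      I * fderiv ℝ (f : (Fin n → ℂ) → ℂ) y (Pi.single j I)) / 2 := by
  rw [pdb_coe]; rfl

/-- complex conjugation on the ring of smooth functions -/
noncomputable def cj : Rn n →+* Rn n where
  toFun f := ⟨fun y => (starRingEnd ℂ) ((f : (Fin n → ℂ) → ℂ) y), mem_Rn.2
    ((conjCLE.contDiff (n := ∞)).comp (smooth f))⟩
  map_one' := by ext y; exact map_one _
  map_zero' := by ext y; exact map_zero _
  map_mul' f g := by ext y; exact map_mul _ _ _
  map_add' f g := by ext y; exact map_add _ _ _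

theorem cj_apply (f : Rn n) (y : Fin n → ℂ) :
    (cj f : (Fin n → ℂ) → ℂ) y = (starRingEnd ℂ) ((f : (Fin n → ℂ) → ℂ) y) := rfl

@[simp] theorem cj_cj (f : Rn n) : cj (cj f) = f := by
  ext y; simp [cj_apply]

theorem cj_smul (c : ℂ) (f : Rn n) : cj (c • f) = (starRingEnd ℂ) c • cj f := by
  ext y
  rw [cj_apply]
  show (starRingEnd ℂ) (c • (f : (Fin n → ℂ) → ℂ) y) = _
  rw [smul_eq_mul, map_mul]
  rfl

theorem dv_cj (v : Fin n → ℂ) (f : Rn n) : dv v (cj f) = cj (dv v f) := by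
  ext y
  rw [cj_apply, dv_apply, dv_apply]
  have : (cj f : (Fin n → ℂ) → ℂ) = (conjCLE : ℂ → ℂ) ∘ (f : (Fin n → ℂ) → ℂ) := rfl
  rw [this, fderiv_comp y conjCLE.differentiableAt (diff f y), ContinuousLinearEquiv.fderiv]
  rfl

theorem pd_cj (j : Fin n) (f : Rn n) : pd j (cj f) = cj (pdb j f) := by
  simp only [pd, pdb, Derivation.coe_smul, Derivation.coe_sub, Derivation.coe_add, Pi.smul_apply,
    Pi.sub_apply, Pi.add_apply, cj_smul, map_add, dv_cj]
  simp only [map_div₀, map_one, map_ofNat, conj_I]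
  module

theorem pdb_cj (j : Fin n) (f : Rn n) : pdb j (cj f) = cj (pd j f) := by
  have := pd_cj j (cj f)
  rw [cj_cj] at this
  rw [this, cj_cj]

/-- the coordinate function `z_j` -/
noncomputable def zc (j : Fin n) : Rn n := ⟨fun y => y j, mem_Rn.2 (contDiff_apply ℝ ℂ j)⟩

theorem zc_apply (j : Fin n) (y : Fin n → ℂ) : (zc j : (Fin n → ℂ) → ℂ) y = y j := rfl

theorem dv_zc (v : Fin n → ℂ) (j : Fin n) : dv v (zc j) = algebraMap ℂ (Rn n) (v j) := by
  ext y
  rw [dv_apply]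
  have : (zc j : (Fin n → ℂ) → ℂ) = (ContinuousLinearMap.proj (R := ℝ) (φ := fun _ : Fin n => ℂ) j) := rfl
  rw [this, ContinuousLinearMap.fderiv]
  rfl

theorem pd_zc (j k : Fin n) : pd j (zc k) = if j = k then 1 else 0 := by
  simp only [pd, Derivation.coe_smul, Derivation.coe_sub, Pi.smul_apply, Pi.sub_apply, dv_zc]
  by_cases h : j = k
  · subst h
    ext y
    simp only [Pi.single_eq_same, if_true]
    show (1 / 2 : ℂ) * (1 - I * I) = 1
    rw [I_mul_I]; norm_num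
  · simp [Pi.single_eq_of_ne (Ne.symm h), h]

theorem pdb_zc (j k : Fin n) : pdb j (zc k) = 0 := by
  simp only [pdb, Derivation.coe_smul, Derivation.coe_add, Pi.smul_apply, Pi.add_apply, dv_zc]
  by_cases h : j = k
  · subst h
    ext y
    simp only [Pi.single_eq_same]
    show (1 / 2 : ℂ) * (1 + I * I) = 0
    rw [I_mul_I]; norm_num
  · simp [h]

/-- the chain rule, in the form of a vector field -/
def IsVF (D : Derivation ℂ (Rn n) (Rn n)) : Prop :=
  ∀ f : Rn n, D f = ∑ j, D (zc j) * pd j f + ∑ j, D (cj (zc j)) * pdb j f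

end Pool.Agent.V7H87.KD
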