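import Mathlib
import Pool.Agent.V7H87.KD.Ring

set_option autoImplicit false

open Filter Topology
open scoped ContDiff

namespace Pool.Agent.V7H87.KD

variable {n : ℕ}

/-- Kohn-closed ideals of the ring of smooth functions on `ℂⁿ` -/
structure KC (r : (Fin n → ℂ) → ℝ) (x0 : Fin n → ℂ) (q : Ideal (Rn n)) : Prop where
  rad : ∀ g f : Rn n, f ∈ q → ∀ m : ℕ, 1 ≤ m →
    (∀ᶠ y in 𝓝 x0, ‖(g : (Fin n → ℂ) → ℂ) y‖ ^ m ≤ ‖(f : (Fin n → ℂ) → ℂ) y‖) → g ∈ q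
  r_mem : ∀ g : Rn n, ((g : (Fin n → ℂ) → ℂ) = fun y => (r y : ℂ)) → g ∈ q
  form : ∀ fs : List (Rn n), fs.length ≤ n - 1 → (∀ f ∈ fs, f ∈ q) →
    ∀ l : ExteriorAlgebra ℂ (Cov n) →ₗ[ℂ] ℂ, ∃ g ∈ q, (g : (Fin n → ℂ) → ℂ) =
      fun y => l (kohnForm r (fs.map fun f : Rn n => (f : (Fin n → ℂ) → ℂ)) y)

end Pool.Agent.V7H87.KD
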