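import Mathlib
import Pool.Agent.V7H87.KD.Ring

set_option autoImplicit false

open Filter Topology Asymptotics Complex
open scoped ContDiff ComplexConjugate

namespace Pool.Agent.V7H87.KD

variable {n : ℕ}

/-- a sesquilinear form -/
noncomputable def sesq (m : Fin n → Fin n → ℂ) (w w' : Fin n → ℂ) : ℂ :=
  ∑ j, ∑ k, w j * (starRingEnd ℂ) (w' k) * m j k

/-- a linear form -/
noncomputable def linf (l : Fin n → ℂ) (w : Fin n → ℂ) : ℂ := ∑ j, w j * l j

theorem norm_linf_le (l w : Fin n → ℂ) : ‖linf l w‖ ≤ n * ‖l‖ * ‖w‖ := by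
  rw [linf]
  refine (norm_sum_le _ _).trans ?_
  have : ∀ j ∈ Finset.univ, ‖w j * l j‖ ≤ ‖l‖ * ‖w‖ := by
    intro j _
    rw [norm_mul, mul_comm]
    exact mul_le_mul (norm_le_pi_norm l j) (norm_le_pi_norm w j) (norm_nonneg _) (norm_nonneg _)
  refine (Finset.sum_le_sum this).trans ?_
  simp [mul_assoc]

theorem norm_sesq_le (m : Fin n → Fin n → ℂ) (w w' : Fin n → ℂ) :
    ‖sesq m w w'‖ ≤ n * n * ‖m‖ * ‖w‖ * ‖w'‖ := by
  rw [sesq]
  refine (norm_sum_le _ _).trans ?_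
  have : ∀ j ∈ Finset.univ, ‖∑ k, w j * (starRingEnd ℂ) (w' k) * m j k‖ ≤ n * (‖m‖ * ‖w‖ * ‖w'‖) := by
    intro j _
    refine (norm_sum_le _ _).trans ?_
    have : ∀ k ∈ Finset.univ, ‖w j * (starRingEnd ℂ) (w' k) * m j k‖ ≤ ‖m‖ * ‖w‖ * ‖w'‖ := by
      intro k _
      rw [norm_mul, norm_mul, RCLike.norm_conj]
      have h1 : ‖m j k‖ ≤ ‖m‖ := (norm_le_pi_norm (m j) k).trans (norm_le_pi_norm m j)
      have h2 := norm_le_pi_norm w j
      have h3 := norm_le_pi_norm w' k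
      calc ‖w j‖ * ‖w' k‖ * ‖m j k‖ ≤ ‖w‖ * ‖w'‖ * ‖m‖ := by gcongr
        _ = ‖m‖ * ‖w‖ * ‖w'‖ := by ring
    refine (Finset.sum_le_sum this).trans ?_
    simp
  refine (Finset.sum_le_sum this).trans ?_
  simp
  nlinarith

theorem sesq_sub_form (m m' : Fin n → Fin n → ℂ) (w w' : Fin n → ℂ) :
    sesq (m - m') w w' = sesq m w w' - sesq m' w w' := by
  simp only [sesq, Pi.sub_apply, mul_sub, Finset.sum_sub_distrib]

theorem linf_sub_form (l l' : Fin n → ℂ) (w : Fin n → ℂ) :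
    linf (l - l') w = linf l w - linf l' w := by
  simp only [linf, Pi.sub_apply, mul_sub, Finset.sum_sub_distrib]

theorem sesq_add_left (m : Fin n → Fin n → ℂ) (u v w : Fin n → ℂ) :
    sesq m (u + v) w = sesq m u w + sesq m v w := by
  simp only [sesq, Pi.add_apply, add_mul, Finset.sum_add_distrib]

theorem sesq_add_right (m : Fin n → Fin n → ℂ) (u v w : Fin n → ℂ) :
    sesq m w (u + v) = sesq m w u + sesq m w v := by
  simp only [sesq, Pi.add_apply, map_add, mul_add, add_mul, Finset.sum_add_distrib]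

theorem sesq_smul_left (m : Fin n → Fin n → ℂ) (c : ℂ) (u w : Fin n → ℂ) :
    sesq m (c • u) w = c * sesq m u w := by
  simp only [sesq, Pi.smul_apply, smul_eq_mul, Finset.mul_sum, mul_assoc]

theorem sesq_smul_right (m : Fin n → Fin n → ℂ) (c : ℂ) (u w : Fin n → ℂ) :
    sesq m w (c • u) = (starRingEnd ℂ) c * sesq m w u := by
  simp only [sesq, Pi.smul_apply, smul_eq_mul, map_mul, Finset.mul_sum]
  refine Finset.sum_congr rfl fun j _ => Finset.sum_congr rfl fun k _ => ?_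
  ring

theorem linf_add (l : Fin n → ℂ) (u v : Fin n → ℂ) : linf l (u + v) = linf l u + linf l v := by
  simp only [linf, Pi.add_apply, add_mul, Finset.sum_add_distrib]

theorem linf_smul (l : Fin n → ℂ) (c : ℂ) (u : Fin n → ℂ) : linf l (c • u) = c * linf l u := by
  simp only [linf, Pi.smul_apply, smul_eq_mul, Finset.mul_sum, mul_assoc]

theorem linf_single (l : Fin n → ℂ) (j : Fin n) : linf l (Pi.single j 1) = l j := by
  simp [linf, Pi.single_apply]

/-- the quantitative linear algebra -/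
theorem levi_alg {m m' : Fin n → Fin n → ℂ} {l l' : Fin n → ℂ} {j : Fin n} {B K c ε : ℝ}
    (hc : 0 < c) (hB : 0 ≤ B) (hK : 0 ≤ K) (hε : 0 ≤ ε)
    (hm' : ‖m'‖ ≤ B) (hl' : ‖l'‖ ≤ B) (hlj : c ≤ ‖l' j‖)
    (hmm : ‖m - m'‖ ≤ K * ε) (hll : ‖l - l'‖ ≤ K * ε)
    (hpos : ∀ w, linf l' w = 0 → 0 ≤ (sesq m' w w).re) (w : Fin n → ℂ) :
    -((n * n * K + n * n * B * (1 + (1 + n * B / c)) * (n * K + 1) / c) *
      (ε * ‖w‖ ^ 2 + ‖linf l w‖ * ‖w‖)) ≤ (sesq m w w).re := by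
  have hn : (0 : ℝ) ≤ n := Nat.cast_nonneg n
  have hlj0 : l' j ≠ 0 := by
    intro h
    rw [h, norm_zero] at hlj
    linarith
  set κ : ℂ := -(linf l' w / l' j) with hκ
  set v : Fin n → ℂ := κ • (Pi.single j 1 : Fin n → ℂ) with hv
  have hv0 : linf l' (w + v) = 0 := by
    rw [linf_add, hv, linf_smul, linf_single, hκ]
    field_simp
    ring
  have hpos' := hpos _ hv0
  have hnv : ‖v‖ ≤ ‖linf l' w‖ / c := by
    rw [hv, norm_smul, hκ, norm_neg, norm_div]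
    have h1 : ‖(Pi.single j 1 : Fin n → ℂ)‖ ≤ 1 := by
      rw [pi_norm_le_iff_of_nonneg zero_le_one]
      intro k
      by_cases h : k = j
      · subst h; simp
      · simp [Pi.single_eq_of_ne h]
    calc ‖linf l' w‖ / ‖l' j‖ * ‖(Pi.single j 1 : Fin n → ℂ)‖ ≤ ‖linf l' w‖ / ‖l' j‖ * 1 := by gcongr
      _ ≤ ‖linf l' w‖ / c := by
        rw [mul_one]
        exact div_le_div_of_nonneg_left (norm_nonneg _) hc hlj
  have h1 : ‖linf l' w‖ ≤ ‖linf l w‖ + n * (K * ε) * ‖w‖ := by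
    have e : linf l' w = linf l w - linf (l - l') w := by rw [linf_sub_form]; ring
    rw [e]
    refine (norm_sub_le _ _).trans ?_
    have := norm_linf_le (l - l') w
    have h2 : (n : ℝ) * ‖l - l'‖ * ‖w‖ ≤ n * (K * ε) * ‖w‖ := by gcongr
    linarith
  have h2 : ‖linf l' w‖ ≤ n * B * ‖w‖ := by
    refine (norm_linf_le l' w).trans ?_
    gcongr
  have h3 : ‖v‖ ≤ n * B / c * ‖w‖ := by
    refine hnv.trans ?_
    rw [div_mul_eq_mul_div]
    gcongr
  -- decomposition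
  have e : sesq m w w = sesq m' (w + v) (w + v) + (sesq (m - m') w w) -
      (sesq m' w v + sesq m' v (w + v)) := by
    rw [sesq_sub_form, sesq_add_left m' w v (w + v), sesq_add_right m' w v w]
    ring
  have n1 : ‖sesq (m - m') w w‖ ≤ n * n * (K * ε) * ‖w‖ * ‖w‖ := by
    refine (norm_sesq_le _ _ _).trans ?_
    gcongr
  have n2 : ‖sesq m' w v‖ ≤ n * n * B * ‖w‖ * ‖v‖ := by
    refine (norm_sesq_le _ _ _).trans ?_
    gcongr
  have n3 : ‖sesq m' v (w + v)‖ ≤ n * n * B * ‖v‖ * ((1 + n * B / c) * ‖w‖) := by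
    refine (norm_sesq_le _ _ _).trans ?_
    have : ‖w + v‖ ≤ (1 + n * B / c) * ‖w‖ := by
      refine (norm_add_le _ _).trans ?_
      linarith
    gcongr
  have r1 : -‖sesq (m - m') w w‖ ≤ (sesq (m - m') w w).re :=
    neg_le_of_abs_le (Complex.abs_re_le_norm _)
  have r2 : (sesq m' w v).re ≤ ‖sesq m' w v‖ := Complex.re_le_norm _
  have r3 : (sesq m' v (w + v)).re ≤ ‖sesq m' v (w + v)‖ := Complex.re_le_norm _
  rw [e]
  simp only [sub_re, add_re]
  have hv2 : ‖v‖ ≤ (‖linf l w‖ + n * (K * ε) * ‖w‖) / c := by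
    refine hnv.trans ?_
    gcongr
  set G : ℝ := 1 + (1 + n * B / c) with hG
  have hG0 : 0 ≤ G := by positivity
  have n4 : ‖sesq m' w v‖ + ‖sesq m' v (w + v)‖ ≤ n * n * B * G * ‖w‖ * ‖v‖ := by
    calc ‖sesq m' w v‖ + ‖sesq m' v (w + v)‖ ≤ n * n * B * ‖w‖ * ‖v‖ +
        n * n * B * ‖v‖ * ((1 + n * B / c) * ‖w‖) := add_le_add n2 n3
      _ = n * n * B * G * ‖w‖ * ‖v‖ := by rw [hG]; ring
  have n5 : n * n * B * G * ‖w‖ * ‖v‖ ≤ n * n * B * G * ‖w‖ * ((‖linf l w‖ + n * (K * ε) * ‖w‖) / c) := by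
    gcongr
  have n6 : (n * n * B * G * ‖w‖ * ((‖linf l w‖ + n * (K * ε) * ‖w‖) / c) : ℝ) ≤
      n * n * B * G * (n * K + 1) / c * (ε * ‖w‖ ^ 2 + ‖linf l w‖ * ‖w‖) := by
    have : n * n * B * G * (n * K + 1) / c * (ε * ‖w‖ ^ 2 + ‖linf l w‖ * ‖w‖) -
      n * n * B * G * ‖w‖ * ((‖linf l w‖ + n * (K * ε) * ‖w‖) / c) =
      n * n * B * G / c * (n * K * ‖linf l w‖ * ‖w‖ + ε * ‖w‖ ^ 2) := by
      field_simp
      ring
    have h0 : 0 ≤ n * n * B * G / c * (n * K * ‖linf l w‖ * ‖w‖ + ε * ‖w‖ ^ 2) := by positivity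
    linarith
  have n7 : (n * n * (K * ε) * ‖w‖ * ‖w‖ : ℝ) ≤ n * n * K * (ε * ‖w‖ ^ 2 + ‖linf l w‖ * ‖w‖) := by
    have h0 : 0 ≤ (n * n * K * (‖linf l w‖ * ‖w‖) : ℝ) := by positivity
    nlinarith
  have fin : ((n * n * K + n * n * B * G * (n * K + 1) / c) *
      (ε * ‖w‖ ^ 2 + ‖linf l w‖ * ‖w‖) : ℝ) =
      n * n * K * (ε * ‖w‖ ^ 2 + ‖linf l w‖ * ‖w‖) +
      n * n * B * G * (n * K + 1) / c * (ε * ‖w‖ ^ 2 + ‖linf l w‖ * ‖w‖) := by ring
  rw [fin]
  linarith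

/-- projection to the zero set -/
theorem exists_proj (r : (Fin n → ℂ) → ℝ) (hr : ContDiff ℝ ∞ r) (x0 : Fin n → ℂ) (hx0 : r x0 = 0)
    (hd : fderiv ℝ r x0 ≠ 0) :
    ∃ K : ℝ, 0 < K ∧ ∀ᶠ y in 𝓝 x0, ∃ z, r z = 0 ∧ ‖z - y‖ ≤ K * |r y| := by
  obtain ⟨e, he⟩ : ∃ e, 0 < fderiv ℝ r x0 e := by
    by_contra hcon
    push Not at hcon
    apply hd
    ext v
    have h1 := hcon v
    have h2 := hcon (-v)
    rw [map_neg] at h2
    show fderiv ℝ r x0 v = 0
    linarith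
  set c := fderiv ℝ r x0 e / 2 with hc
  have hc0 : 0 < c := by positivity
  have hcont : Continuous fun z => fderiv ℝ r z e :=
    (hr.continuous_fderiv (by simp)).clm_apply continuous_const
  have hev : ∀ᶠ z in 𝓝 x0, c < fderiv ℝ r z e :=
    hcont.tendsto x0 |>.eventually (lt_mem_nhds (by rw [hc]; linarith))
  obtain ⟨δ, hδ, hball⟩ := Metric.eventually_nhds_iff.1 hev
  have he0 : 0 < ‖e‖ := by
    rw [norm_pos_iff]
    rintro rfl
    simp at he
  refine ⟨‖e‖ / c, by positivity, ?_⟩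
  have hrc : Continuous r := hr.continuous
  have h1 : ∀ᶠ y in 𝓝 x0, |r y| < δ / 2 * c / ‖e‖ := by
    have : Tendsto (fun y => |r y|) (𝓝 x0) (𝓝 |r x0|) := (hrc.abs).tendsto x0
    rw [hx0, abs_zero] at this
    exact this.eventually (gt_mem_nhds (by positivity))
  have h2 : ∀ᶠ y in 𝓝 x0, ‖y - x0‖ < δ / 2 := by
    have : Tendsto (fun y : Fin n → ℂ => ‖y - x0‖) (𝓝 x0) (𝓝 ‖x0 - x0‖) :=
      ((continuous_id.sub continuous_const).norm).tendsto x0
    rw [sub_self, norm_zero] at this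
    exact this.eventually (gt_mem_nhds (by positivity))
  filter_upwards [h1, h2] with y hy1 hy2
  set S := |r y| / c with hS
  have hS0 : 0 ≤ S := by positivity
  have hSe : S * ‖e‖ < δ / 2 := by
    have := (lt_div_iff₀ he0).1 hy1
    rw [hS, div_mul_eq_mul_div, div_lt_iff₀ hc0]
    linarith
  set f : ℝ → ℝ := fun s => r (y + s • e) with hf
  have hfd : ∀ s, HasDerivAt f (fderiv ℝ r (y + s • e) e) s := by
    intro s
    have h1 : HasDerivAt (fun s : ℝ => y + s • e) e s := by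
      have := ((hasDerivAt_id s).smul_const e).const_add y
      simpa using this
    have h2 : HasFDerivAt r (fderiv ℝ r (y + s • e)) (y + s • e) :=
      ((hr.differentiable (by simp)) _).hasFDerivAt
    exact h2.comp_hasDerivAt s h1
  have hfc : Continuous f := hrc.comp (continuous_const.add (continuous_id.smul continuous_const))
  have hin : ∀ s ∈ Set.Icc (-S) S, c < fderiv ℝ r (y + s • e) e := by
    intro s hs
    apply hball
    rw [dist_eq_norm]
    have : y + s • e - x0 = (y - x0) + s • e := by abel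
    rw [this]
    refine (norm_add_le _ _).trans_lt ?_
    rw [norm_smul, Real.norm_eq_abs]
    have : |s| ≤ S := abs_le.2 hs
    nlinarith
  have hmvt := (convex_Icc (-S) S).mul_sub_le_image_sub_of_le_deriv (f := f) (C := c) hfc.continuousOn
    (fun s _ => (hfd s).differentiableAt.differentiableWithinAt) (fun s hs => by
      rw [(hfd s).deriv]
      exact (hin s (interior_subset hs)).le)
  have hf0 : f 0 = r y := by simp [hf]
  have hcS : c * S = |r y| := by rw [hS]; field_simp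
  rcases le_total 0 (r y) with hry | hry
  · have h3 := hmvt (-S) ⟨le_refl _, by linarith⟩ 0 ⟨by linarith, hS0⟩ (by linarith)
    have h4 : f (-S) ≤ 0 := by
      rw [hf0] at h3
      rw [abs_of_nonneg hry] at hcS
      linarith
    obtain ⟨s, hs, hs0⟩ := intermediate_value_Icc (by linarith : -S ≤ 0) (hfc.continuousOn (s := Set.Icc (-S) 0))
      (⟨h4, by rw [hf0]; exact hry⟩ : (0 : ℝ) ∈ Set.Icc (f (-S)) (f 0))
    refine ⟨y + s • e, hs0, ?_⟩
    rw [add_sub_cancel_left, norm_smul, Real.norm_eq_abs]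
    have : |s| ≤ S := abs_le.2 ⟨hs.1, hs.2.trans hS0⟩
    calc |s| * ‖e‖ ≤ S * ‖e‖ := by gcongr
      _ = ‖e‖ / c * |r y| := by rw [hS]; ring
  · have h3 := hmvt 0 ⟨by linarith, hS0⟩ S ⟨by linarith, le_refl _⟩ hS0
    have h4 : 0 ≤ f S := by
      rw [hf0] at h3
      rw [abs_of_nonpos hry] at hcS
      linarith
    obtain ⟨s, hs, hs0⟩ := intermediate_value_Icc hS0 (hfc.continuousOn (s := Set.Icc 0 S))
      (⟨by rw [hf0]; exact hry, h4⟩ : (0 : ℝ) ∈ Set.Icc (f 0) (f S))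
    refine ⟨y + s • e, hs0, ?_⟩
    rw [add_sub_cancel_left, norm_smul, Real.norm_eq_abs]
    have : |s| ≤ S := abs_le.2 ⟨by linarith [hs.1], hs.2⟩
    calc |s| * ‖e‖ ≤ S * ‖e‖ := by gcongr
      _ = ‖e‖ / c * |r y| := by rw [hS]; ring

end Pool.Agent.V7H87.KD
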