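import Mathlib

set_option autoImplicit false

namespace Pool.Agent.V7H87.KD

/-- The algebraic framework of the order-of-vanishing argument. -/
structure Pol (𝔇 T : Type*) [LieRing 𝔇] [LieAlgebra ℂ 𝔇] [AddCommGroup T] [Module ℂ T] where
  d1 : 𝔇 →ₗ[ℂ] T →ₗ[ℂ] T
  d2 : 𝔇 →ₗ[ℂ] T →ₗ[ℂ] T
  c11 : ∀ X Y τ, d1 X (d1 Y τ) = d1 Y (d1 X τ) + d1 ⁅X, Y⁆ τ
  c22 : ∀ X Y τ, d2 X (d2 Y τ) = d2 Y (d2 X τ) + d2 ⁅X, Y⁆ τ
  c12 : ∀ X Y τ, d1 X (d2 Y τ) = d2 Y (d1 X τ)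
  𝔤 : LieSubalgebra ℂ 𝔇
  P : Submodule ℂ T
  hP : ∀ X ∈ 𝔤, ∀ τ ∈ P, d1 X τ + d2 X τ ∈ P
  c : 𝔇 → 𝔇
  c_add : ∀ X Y, c (X + Y) = c X + c Y
  c_smul : ∀ (t : ℂ) X, c (t • X) = (starRingEnd ℂ t) • c X
  c_c : ∀ X, c (c X) = X
  c_mem : ∀ X ∈ 𝔤, c X ∈ 𝔤
  c_lie : ∀ X Y, c ⁅X, Y⁆ = ⁅c X, c Y⁆

variable {𝔇 T : Type*} [LieRing 𝔇] [LieAlgebra ℂ 𝔇] [AddCommGroup T] [Module ℂ T]

namespace Pol

variable (W : Pol 𝔇 T)

/-- vanishing to order `k` -/
def Van : ℕ → Submodule ℂ T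
  | 0 => ⊤
  | k + 1 =>
    { carrier := {τ | τ ∈ W.P ∧ ∀ X ∈ W.𝔤, W.d1 X τ ∈ Van k ∧ W.d2 X τ ∈ Van k}
      add_mem' := by
        rintro a b ⟨ha, ha'⟩ ⟨hb, hb'⟩
        refine ⟨W.P.add_mem ha hb, fun X hX => ?_⟩
        rw [map_add, map_add]
        exact ⟨(Van k).add_mem (ha' X hX).1 (hb' X hX).1, (Van k).add_mem (ha' X hX).2 (hb' X hX).2⟩
      zero_mem' := ⟨W.P.zero_mem, fun X _ => by
        rw [map_zero, map_zero]; exact ⟨(Van k).zero_mem, (Van k).zero_mem⟩⟩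
      smul_mem' := by
        rintro c a ⟨ha, ha'⟩
        refine ⟨W.P.smul_mem c ha, fun X hX => ?_⟩
        rw [map_smul, map_smul]
        exact ⟨(Van k).smul_mem c (ha' X hX).1, (Van k).smul_mem c (ha' X hX).2⟩ }

theorem mem_van_zero (τ : T) : τ ∈ W.Van 0 := by
  simp [Van]

theorem mem_van_succ (k : ℕ) (τ : T) :
    τ ∈ W.Van (k + 1) ↔ τ ∈ W.P ∧ ∀ X ∈ W.𝔤, W.d1 X τ ∈ W.Van k ∧ W.d2 X τ ∈ W.Van k := by
  rw [Van]; rfl

theorem van_succ_le (k : ℕ) : W.Van (k + 1) ≤ W.Van k := by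
  induction k with
  | zero => intro τ _; exact W.mem_van_zero τ
  | succ k ih =>
    intro τ h
    rw [mem_van_succ] at h ⊢
    exact ⟨h.1, fun X hX => ⟨ih (h.2 X hX).1, ih (h.2 X hX).2⟩⟩

theorem van_anti {j k : ℕ} (h : j ≤ k) : W.Van k ≤ W.Van j := by
  induction k, h using Nat.le_induction with
  | base => exact le_rfl
  | succ m _ ih => exact (W.van_succ_le m).trans ih

theorem van_le_P {k : ℕ} (hk : 1 ≤ k) : W.Van k ≤ W.P := by
  intro τ hτ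
  have := W.van_anti hk hτ
  rw [mem_van_succ] at this
  exact this.1

theorem van_d1 {k : ℕ} {τ : T} (h : τ ∈ W.Van (k + 1)) {X : 𝔇} (hX : X ∈ W.𝔤) :
    W.d1 X τ ∈ W.Van k := ((W.mem_van_succ k τ).1 h).2 X hX |>.1

theorem van_d2 {k : ℕ} {τ : T} (h : τ ∈ W.Van (k + 1)) {X : 𝔇} (hX : X ∈ W.𝔤) :
    W.d2 X τ ∈ W.Van k := ((W.mem_van_succ k τ).1 h).2 X hX |>.2

theorem van_delta (k : ℕ) : ∀ {τ : T}, τ ∈ W.Van k → ∀ {X : 𝔇}, X ∈ W.𝔤 →
    W.d1 X τ + W.d2 X τ ∈ W.Van k := by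
  induction k with
  | zero => intro τ _ X _; exact W.mem_van_zero _
  | succ k ih =>
    intro τ h X hX
    rw [mem_van_succ]
    refine ⟨W.hP X hX τ ((W.mem_van_succ k τ).1 h).1, fun Y hY => ⟨?_, ?_⟩⟩
    · rw [map_add, W.c11 Y X τ, W.c12 Y X τ]
      have h1 := ih (W.van_d1 h hY) hX
      have h2 := W.van_d1 h (W.𝔤.lie_mem hY hX)
      have : W.d1 X (W.d1 Y τ) + W.d1 ⁅Y, X⁆ τ + W.d2 X (W.d1 Y τ) =
        (W.d1 X (W.d1 Y τ) + W.d2 X (W.d1 Y τ)) + W.d1 ⁅Y, X⁆ τ := by abel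
      rw [this]
      exact (W.Van k).add_mem h1 h2
    · rw [map_add, W.c22 Y X τ, ← W.c12 X Y τ]
      have h1 := ih (W.van_d2 h hY) hX
      have h2 := W.van_d2 h (W.𝔤.lie_mem hY hX)
      have : W.d1 X (W.d2 Y τ) + (W.d2 X (W.d2 Y τ) + W.d2 ⁅Y, X⁆ τ) =
        (W.d1 X (W.d2 Y τ) + W.d2 X (W.d2 Y τ)) + W.d2 ⁅Y, X⁆ τ := by abel
      rw [this]
      exact (W.Van k).add_mem h1 h2

theorem van_d2_iff {k : ℕ} {τ : T} (h : τ ∈ W.Van k) {X : 𝔇} (hX : X ∈ W.𝔤) :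
    W.d2 X τ ∈ W.Van k ↔ W.d1 X τ ∈ W.Van k := by
  have h1 := W.van_delta k h hX
  constructor
  · intro h2
    have := (W.Van k).sub_mem h1 h2
    rwa [add_sub_cancel_right] at this
  · intro h2
    have := (W.Van k).sub_mem h1 h2
    rwa [add_sub_cancel_left] at this

theorem van_pow {j m : ℕ} {D : 𝔇} (hD : D ∈ W.𝔤) {τ : T} (h : τ ∈ W.Van (j + m)) :
    ((W.d1 D) ^ m) τ ∈ W.Van j := by
  induction m generalizing τ with
  | zero => simpa using h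
  | succ m ih =>
    rw [pow_succ]
    exact ih (W.van_d1 h hD)

theorem van_pow2 {j m : ℕ} {D : 𝔇} (hD : D ∈ W.𝔤) {τ : T} (h : τ ∈ W.Van (j + m)) :
    ((W.d2 D) ^ m) τ ∈ W.Van j := by
  induction m generalizing τ with
  | zero => simpa using h
  | succ m ih =>
    rw [pow_succ]
    exact ih (W.van_d2 h hD)

theorem van_powsub {j m : ℕ} {D : 𝔇} (hD : D ∈ W.𝔤) {τ : T} (h : τ ∈ W.Van (j + m)) :
    ((W.d1 D + (-1 : ℂ) • W.d2 D) ^ m) τ ∈ W.Van j := by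
  induction m generalizing τ with
  | zero => simpa using h
  | succ m ih =>
    rw [pow_succ]
    exact ih ((W.Van _).add_mem (W.van_d1 h hD) ((W.Van _).smul_mem _ (W.van_d2 h hD)))

theorem van_comm {j m : ℕ} {D X : 𝔇} (hD : D ∈ W.𝔤) (hX : X ∈ W.𝔤) {τ : T} (h : τ ∈ W.Van (j + m)) :
    W.d1 X (((W.d1 D) ^ m) τ) - ((W.d1 D) ^ m) (W.d1 X τ) ∈ W.Van j := by
  induction m generalizing τ with
  | zero => simp
  | succ m ih =>
    have h1 := ih (W.van_d1 h hD)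
    have h2 := W.van_pow hD (W.van_d1 h (W.𝔤.lie_mem hX hD))
    have e : W.d1 X (W.d1 D τ) = W.d1 D (W.d1 X τ) + W.d1 ⁅X, D⁆ τ := W.c11 X D τ
    have : W.d1 X (((W.d1 D) ^ (m + 1)) τ) - ((W.d1 D) ^ (m + 1)) (W.d1 X τ) =
      (W.d1 X (((W.d1 D) ^ m) (W.d1 D τ)) - ((W.d1 D) ^ m) (W.d1 X (W.d1 D τ))) +
        ((W.d1 D) ^ m) (W.d1 ⁅X, D⁆ τ) := by
      rw [e, map_add, pow_succ]
      simp only [Module.End.mul_apply]
      abel
    rw [this]
    exact (W.Van j).add_mem h1 h2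

end Pol

theorem poly_mem {T : Type*} [AddCommGroup T] [Module ℂ T] (P : Submodule ℂ T) (k : ℕ) (v : ℕ → T)
    (h : ∀ t : ℝ, ∑ i ∈ Finset.range (k + 1), (t : ℂ) ^ i • v i ∈ P) : ∀ i ≤ k, v i ∈ P := by
  induction k generalizing v with
  | zero =>
    intro i hi
    obtain rfl : i = 0 := by omega
    simpa using h 1
  | succ k ih =>
    have h1 : ∀ i ≤ k, ((2 : ℂ) ^ i - 2 ^ (k + 1)) • v i ∈ P := by
      apply ih (fun i => ((2 : ℂ) ^ i - 2 ^ (k + 1)) • v i)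
      intro t
      have e1 := h (2 * t)
      have e2 := P.smul_mem ((2 : ℂ) ^ (k + 1)) (h t)
      have e3 := P.sub_mem e1 e2
      convert e3 using 1
      rw [Finset.sum_range_succ _ (k + 1), Finset.sum_range_succ _ (k + 1), smul_add, Finset.smul_sum,
        add_sub_add_comm, ← Finset.sum_sub_distrib]
      have : (((2 * t : ℝ) : ℂ) ^ (k + 1) • v (k + 1) - (2 : ℂ) ^ (k + 1) • (t : ℂ) ^ (k + 1) • v (k + 1)) = 0 := by
        rw [smul_smul, ← mul_pow]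
        push_cast
        exact sub_self _
      rw [this, add_zero]
      refine Finset.sum_congr rfl fun i _ => ?_
      rw [smul_smul, smul_smul, ← sub_smul]
      congr 1
      push_cast
      rw [mul_pow]
      ring
    have h2 : ∀ i ≤ k, v i ∈ P := by
      intro i hi
      have hne : ((2 : ℂ) ^ i - 2 ^ (k + 1)) ≠ 0 := by
        rw [sub_ne_zero]
        have : (2 : ℕ) ^ i ≠ 2 ^ (k + 1) := by
          intro h
          have := Nat.pow_right_injective (le_refl 2) h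
          omega
        exact_mod_cast this
      have := P.smul_mem (((2 : ℂ) ^ i - 2 ^ (k + 1))⁻¹) (h1 i hi)
      rwa [smul_smul, inv_mul_cancel₀ hne, one_smul] at this
    intro i hi
    rcases Nat.lt_or_ge i (k + 1) with hlt | hge
    · exact h2 i (by omega)
    · obtain rfl : i = k + 1 := by omega
      have e1 := h 1
      rw [Finset.sum_range_succ] at e1
      have e2 : ∑ i ∈ Finset.range (k + 1), ((1 : ℝ) : ℂ) ^ i • v i ∈ P :=
        P.sum_mem fun i hi => P.smul_mem _ (h2 i (by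
          have := Finset.mem_range.1 hi
          omega))
      have e3 := P.sub_mem e1 e2
      rw [add_sub_cancel_left] at e3
      simpa using e3

/-- the sum of all words with `i` letters `B` and `m - i` letters `A` -/
def Wd {T : Type*} [AddCommGroup T] [Module ℂ T] (A B : T →ₗ[ℂ] T) : ℕ → ℕ → T → T
  | 0, 0, τ => τ
  | 0, _ + 1, _ => 0
  | m + 1, 0, τ => A (Wd A B m 0 τ)
  | m + 1, i + 1, τ => A (Wd A B m (i + 1) τ) + B (Wd A B m i τ)

theorem Wd_gt {T : Type*} [AddCommGroup T] [Module ℂ T] (A B : T →ₗ[ℂ] T) (m i : ℕ) (h : m < i) (τ : T) :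
    Wd A B m i τ = 0 := by
  induction m generalizing i with
  | zero =>
    cases i with
    | zero => omega
    | succ i => rfl
  | succ m ih =>
    cases i with
    | zero => omega
    | succ i =>
      rw [Wd, ih (i + 1) (by omega), ih i (by omega), map_zero, map_zero, add_zero]

theorem Wd_sum {T : Type*} [AddCommGroup T] [Module ℂ T] (A B : T →ₗ[ℂ] T) (t : ℂ) (m : ℕ) (τ : T) :
    ((A + t • B) ^ m) τ = ∑ i ∈ Finset.range (m + 1), t ^ i • Wd A B m i τ := by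
  induction m with
  | zero => simp [Wd]
  | succ m ih =>
    rw [pow_succ', Module.End.mul_apply, ih, Finset.sum_range_succ' _ (m + 1)]
    simp only [Wd, smul_add, Finset.sum_add_distrib, LinearMap.add_apply, LinearMap.smul_apply]
    have e1 : A (∑ i ∈ Finset.range (m + 1), t ^ i • Wd A B m i τ) =
        (∑ i ∈ Finset.range (m + 1), t ^ (i + 1) • A (Wd A B m (i + 1) τ)) + t ^ 0 • A (Wd A B m 0 τ) := by
      have : ∑ i ∈ Finset.range (m + 1), t ^ i • Wd A B m i τ =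
          ∑ i ∈ Finset.range (m + 1 + 1), t ^ i • Wd A B m i τ := by
        rw [Finset.sum_range_succ _ (m + 1), Wd_gt A B m (m + 1) (by omega), smul_zero, add_zero]
      rw [this, map_sum, Finset.sum_range_succ']
      simp only [map_smul]
    rw [e1, map_sum, Finset.smul_sum]
    simp only [map_smul, smul_smul, ← pow_succ']
    abel

namespace Pol

variable (W : Pol 𝔇 T)

theorem Wd_zero (A B : T →ₗ[ℂ] T) (m : ℕ) (τ : T) : Wd A B m 0 τ = (A ^ m) τ := by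
  induction m with
  | zero => rfl
  | succ m ih => rw [Wd, ih, pow_succ']; rfl

theorem van_Wd {j m : ℕ} {D X : 𝔇} (hD : D ∈ W.𝔤) (hX : X ∈ W.𝔤) {τ : T}
    (h : τ ∈ W.Van (j + m + 1)) :
    Wd (W.d1 D) (W.d1 X) (m + 1) 1 τ - (m + 1 : ℂ) • ((W.d1 D) ^ m) (W.d1 X τ) ∈ W.Van (j + 1) := by
  induction m generalizing j with
  | zero => simp [Wd]
  | succ m ih =>
    have h1 : τ ∈ W.Van (j + 1 + m + 1) := by
      have : j + (m + 1) + 1 = j + 1 + m + 1 := by ring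
      rwa [this] at h
    have h2 := W.van_d1 (ih h1) hD
    have h3 : W.d1 X (((W.d1 D) ^ (m + 1)) τ) - ((W.d1 D) ^ (m + 1)) (W.d1 X τ) ∈ W.Van (j + 1) := by
      apply W.van_comm hD hX
      have : j + (m + 1) + 1 = j + 1 + (m + 1) := by ring
      rwa [this] at h
    have e : Wd (W.d1 D) (W.d1 X) (m + 1 + 1) 1 τ =
        W.d1 D (Wd (W.d1 D) (W.d1 X) (m + 1) 1 τ) + W.d1 X (((W.d1 D) ^ (m + 1)) τ) := by
      rw [← Wd_zero (W.d1 D) (W.d1 X) (m + 1) τ]; rfl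
    rw [e]
    have := (W.Van (j + 1)).add_mem h2 h3
    convert this using 1
    rw [map_sub, map_smul, pow_succ']
    simp only [Module.End.mul_apply]
    push_cast
    module

/-- real and imaginary part -/
theorem exists_re_im {X : 𝔇} (hX : X ∈ W.𝔤) : ∃ X1 ∈ W.𝔤, ∃ X2 ∈ W.𝔤, W.c X1 = X1 ∧ W.c X2 = X2 ∧
    X = X1 + Complex.I • X2 := by
  refine ⟨(1 / 2 : ℂ) • (X + W.c X), W.𝔤.smul_mem _ (W.𝔤.add_mem hX (W.c_mem X hX)),
    (-Complex.I / 2 : ℂ) • (X + (-1 : ℂ) • W.c X),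
    W.𝔤.smul_mem _ (W.𝔤.add_mem hX (W.𝔤.smul_mem _ (W.c_mem X hX))), ?_, ?_, ?_⟩
  · rw [W.c_smul, W.c_add, W.c_c, add_comm]
    have h1 : (starRingEnd ℂ) (1 / 2) = 1 / 2 := by
      rw [map_div₀, map_one, Complex.conj_ofNat]
    rw [h1]
  · rw [W.c_smul, W.c_add, W.c_smul, W.c_c]
    have h1 : (starRingEnd ℂ) (-Complex.I / 2) = Complex.I / 2 := by
      rw [map_div₀, map_neg, Complex.conj_I, Complex.conj_ofNat, neg_neg]
    have h2 : (starRingEnd ℂ) (-1) = -1 := by simp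
    rw [h1, h2]
    module
  · rw [smul_smul]
    have : Complex.I * (-Complex.I / 2) = 1 / 2 := by
      have := Complex.I_mul_I
      linear_combination (-1 / 2) * this
    rw [this]
    module

theorem c_zero : W.c 0 = 0 := by
  have := W.c_smul 0 0
  simpa using this

theorem van_polar (k : ℕ) : ∀ {τ : T}, τ ∈ W.Van k →
    (∀ D ∈ W.𝔤, W.c D = D → ((W.d1 D) ^ k) τ ∈ W.P) → τ ∈ W.Van (k + 1) := by
  induction k with
  | zero =>
    intro τ _ h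
    rw [mem_van_succ]
    exact ⟨by simpa using h 0 W.𝔤.zero_mem W.c_zero, fun X _ => ⟨W.mem_van_zero _, W.mem_van_zero _⟩⟩
  | succ k ih =>
    intro τ hτ h
    have hreal : ∀ X ∈ W.𝔤, W.c X = X → W.d1 X τ ∈ W.Van (k + 1) := by
      intro X hX hXr
      apply ih (W.van_d1 hτ hX)
      intro D hD hDr
      have h1 : ∀ t : ℝ, ∑ i ∈ Finset.range (k + 1 + 1), (t : ℂ) ^ i •
          Wd (W.d1 D) (W.d1 X) (k + 1) i τ ∈ W.P := by
        intro t
        rw [← Wd_sum, ← map_smul, ← map_add]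
        apply h
        · exact W.𝔤.add_mem hD (W.𝔤.smul_mem _ hX)
        · rw [W.c_add, W.c_smul, hDr, hXr]; simp
      have h2 := poly_mem W.P (k + 1) _ h1 1 (by omega)
      have h3 := W.van_le_P (le_refl 1) (W.van_Wd (j := 0) (m := k) hD hX (by simpa using hτ))
      have h4 := W.P.sub_mem h2 h3
      rw [sub_sub_cancel] at h4
      have hne : (k + 1 : ℂ) ≠ 0 := by exact_mod_cast Nat.succ_ne_zero k
      have := W.P.smul_mem ((k + 1 : ℂ)⁻¹) h4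
      rwa [smul_smul, inv_mul_cancel₀ hne, one_smul] at this
    rw [mem_van_succ]
    refine ⟨W.van_le_P (by omega) hτ, fun X hX => ?_⟩
    have h1 : W.d1 X τ ∈ W.Van (k + 1) := by
      obtain ⟨X1, h1, X2, h2, e1, e2, rfl⟩ := W.exists_re_im hX
      rw [map_add, map_smul, LinearMap.add_apply, LinearMap.smul_apply]
      exact (W.Van (k + 1)).add_mem (hreal X1 h1 e1) ((W.Van (k + 1)).smul_mem _ (hreal X2 h2 e2))
    exact ⟨h1, (W.van_d2_iff hτ hX).2 h1⟩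

/-- the bracket argument -/
theorem van_bracket (Z : 𝔇) (hg : W.𝔤 = LieSubalgebra.lieSpan ℂ 𝔇 {Z, W.c Z}) (ψ : T)
    (h2 : W.d2 Z ψ = 0) (h1 : W.d1 (W.c Z) ψ = 0) {k : ℕ} (hk : 1 ≤ k) (ih : ψ ∈ W.Van k)
    (key : ∀ V ∈ W.𝔤, W.d2 V ψ ∈ W.Van k → W.d2 (W.c V) ψ ∈ W.Van k →
      W.d1 Z (W.d2 V ψ) ∈ W.Van k ∧ W.d1 (W.c V) (W.d2 (W.c Z) ψ) ∈ W.Van k) :
    ψ ∈ W.Van (k + 1) := by
  have hZ : Z ∈ W.𝔤 := by rw [hg]; exact LieSubalgebra.subset_lieSpan (by simp)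
  have hZb : W.c Z ∈ W.𝔤 := W.c_mem Z hZ
  have a2 : W.d2 (W.c Z) ψ ∈ W.Van k := by
    have := W.van_delta _ ih hZb
    rwa [h1, zero_add] at this
  let S : Submodule ℂ 𝔇 :=
    { carrier := {V | V ∈ W.𝔤 ∧ W.d2 V ψ ∈ W.Van k ∧ W.d2 (W.c V) ψ ∈ W.Van k}
      add_mem' := by
        rintro a b ⟨ha, ha', ha''⟩ ⟨hb, hb', hb''⟩
        refine ⟨W.𝔤.add_mem ha hb, ?_, ?_⟩
        · rw [map_add]
          exact (W.Van _).add_mem ha' hb'
        · rw [W.c_add, map_add]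
          exact (W.Van _).add_mem ha'' hb''
      zero_mem' := ⟨W.𝔤.zero_mem, by rw [map_zero]; exact (W.Van _).zero_mem, by
        rw [W.c_zero, map_zero]; exact (W.Van _).zero_mem⟩
      smul_mem' := by
        rintro c a ⟨ha, ha', ha''⟩
        refine ⟨W.𝔤.smul_mem c ha, ?_, ?_⟩
        · rw [map_smul]
          exact (W.Van _).smul_mem c ha'
        · rw [W.c_smul, map_smul]
          exact (W.Van _).smul_mem _ ha'' }
  have hS : ∀ V, V ∈ S ↔ V ∈ W.𝔤 ∧ W.d2 V ψ ∈ W.Van k ∧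
    W.d2 (W.c V) ψ ∈ W.Van k := fun V => Iff.rfl
  have hSZ : Z ∈ S := (hS Z).2 ⟨hZ, by rw [h2]; exact (W.Van _).zero_mem, a2⟩
  have hSZb : W.c Z ∈ S := (hS _).2 ⟨hZb, a2, by
    rw [W.c_c, h2]; exact (W.Van _).zero_mem⟩
  have hSc : ∀ V ∈ S, W.c V ∈ S := by
    intro V hV
    rw [hS] at hV ⊢
    refine ⟨W.c_mem V hV.1, hV.2.2, ?_⟩
    rw [W.c_c]
    exact hV.2.1
  have hadZ : ∀ V ∈ S, ⁅Z, V⁆ ∈ S := by
    intro V hV
    obtain ⟨v0, v1, v2⟩ := (hS V).1 hV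
    have v0c := W.c_mem V v0
    have b1 : W.d1 (W.c V) ψ ∈ W.Van k := (W.van_d2_iff ih v0c).1 v2
    obtain ⟨b5, b6⟩ := key V v0 v1 v2
    rw [hS]
    refine ⟨W.𝔤.lie_mem hZ v0, ?_, ?_⟩
    · have e := W.c22 Z V ψ
      rw [h2, map_zero, zero_add] at e
      rw [← e]
      have := (W.Van _).sub_mem (W.van_delta _ v1 hZ) b5
      rwa [add_sub_cancel_left] at this
    · rw [W.c_lie, W.van_d2_iff ih (W.𝔤.lie_mem hZb v0c)]
      have e := W.c11 (W.c Z) (W.c V) ψ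
      rw [h1, map_zero, zero_add] at e
      rw [← e]
      rw [W.c12] at b6
      have := (W.Van _).sub_mem (W.van_delta _ b1 hZb) b6
      rwa [add_sub_cancel_right] at this
  have hadZb : ∀ V ∈ S, ⁅W.c Z, V⁆ ∈ S := by
    intro V hV
    have := hSc _ (hadZ _ (hSc V hV))
    rwa [W.c_lie, W.c_c] at this
  let N : LieSubalgebra ℂ 𝔇 :=
    { carrier := {X | ∀ V ∈ S, ⁅X, V⁆ ∈ S}
      add_mem' := by
        intro a b ha hb V hV
        rw [add_lie]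
        exact S.add_mem (ha V hV) (hb V hV)
      zero_mem' := by
        intro V hV
        rw [zero_lie]
        exact S.zero_mem
      smul_mem' := by
        intro c a ha V hV
        rw [smul_lie]
        exact S.smul_mem _ (ha V hV)
      lie_mem' := by
        intro a b ha hb V hV
        rw [lie_lie]
        exact S.sub_mem (ha _ (hb V hV)) (hb _ (ha V hV)) }
  have hN : W.𝔤 ≤ N := by
    rw [hg, LieSubalgebra.lieSpan_le]
    rintro X hX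
    rcases hX with rfl | hX
    · exact hadZ
    · rw [Set.mem_singleton_iff] at hX
      subst hX
      exact hadZb
  let S' : LieSubalgebra ℂ 𝔇 :=
    { S with
      lie_mem' := by
        intro a b ha hb
        exact hN ((hS a).1 ha).1 b hb }
  have hS' : W.𝔤 ≤ S' := by
    rw [hg, LieSubalgebra.lieSpan_le]
    rintro X hX
    rcases hX with rfl | hX
    · exact hSZ
    · rw [Set.mem_singleton_iff] at hX
      subst hX
      exact hSZb
  rw [mem_van_succ]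
  refine ⟨W.van_le_P hk ih, fun X hX => ?_⟩
  have h3 : W.d2 X ψ ∈ W.Van k := ((hS X).1 (hS' hX)).2.1
  exact ⟨(W.van_d2_iff ih hX).1 h3, h3⟩

theorem van_all (Z : 𝔇) (hg : W.𝔤 = LieSubalgebra.lieSpan ℂ 𝔇 {Z, W.c Z}) (ψ : T)
    (h2 : W.d2 Z ψ = 0) (h1 : W.d1 (W.c Z) ψ = 0) (hbase : ψ ∈ W.Van 2)
    (hodd : ∀ m, Odd m → ∀ D1 ∈ W.𝔤, ψ ∈ W.Van (m + 1) → W.d1 D1 ψ ∈ W.Van (m + 1) →
      W.d1 D1 (W.d2 (W.c D1) ψ) ∈ W.Van m → ∀ D ∈ W.𝔤, W.c D = D →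
        ((W.d1 D) ^ m) (W.d1 D1 (W.d2 (W.c D1) ψ)) ∈ W.P)
    (hcs : ∀ m, ∀ D1 ∈ W.𝔤, ∀ D2 ∈ W.𝔤, ψ ∈ W.Van (m + 1) → W.d1 D1 ψ ∈ W.Van (m + 1) →
      W.d1 D2 ψ ∈ W.Van (m + 1) → W.d1 D1 (W.d2 (W.c D1) ψ) ∈ W.Van (m + 1) →
      W.d1 D2 (W.d2 (W.c D2) ψ) ∈ W.Van m → W.d1 D1 (W.d2 (W.c D2) ψ) ∈ W.Van m →
      W.d1 D2 (W.d2 (W.c D1) ψ) ∈ W.Van m → ∀ D ∈ W.𝔤, W.c D = D →
        ((W.d1 D) ^ m) (W.d1 D1 (W.d2 (W.c D2) ψ)) ∈ W.P ∧
        ((W.d1 D) ^ m) (W.d1 D2 (W.d2 (W.c D1) ψ)) ∈ W.P) :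
    ∀ k, ψ ∈ W.Van k := by
  have hZ : Z ∈ W.𝔤 := by rw [hg]; exact LieSubalgebra.subset_lieSpan (by simp)
  have hZb : W.c Z ∈ W.𝔤 := W.c_mem Z hZ
  suffices H : ∀ k, ψ ∈ W.Van (k + 2) by
    intro k
    exact W.van_anti (by omega) (H k)
  intro k
  induction k with
  | zero => exact hbase
  | succ k ih =>
    rw [show k + 1 + 2 = (k + 2) + 1 by ring]
    rcases Nat.even_or_odd k with hk | hk
    · -- `k + 2` even
      have hm : Odd (k + 1) := hk.add_one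
      -- Z part
      have a1 : W.d1 Z ψ ∈ W.Van (k + 2) := by
        have := W.van_delta _ ih hZ
        rwa [h2, add_zero] at this
      have a2 : W.d2 (W.c Z) ψ ∈ W.Van (k + 2) := by
        have := W.van_delta _ ih hZb
        rwa [h1, zero_add] at this
      have a3 : W.d1 Z (W.d2 (W.c Z) ψ) ∈ W.Van (k + 1) := W.van_d1 a2 hZ
      have a4 : W.d1 Z (W.d2 (W.c Z) ψ) ∈ W.Van (k + 1 + 1) :=
        W.van_polar _ a3 (hodd (k + 1) hm Z hZ ih a1 a3)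
      apply W.van_bracket Z hg ψ h2 h1 (by omega) ih
      intro V v0 v1 v2
      have v0c := W.c_mem V v0
      have b1 : W.d1 (W.c V) ψ ∈ W.Van (k + 2) := (W.van_d2_iff ih v0c).1 v2
      have b2 : W.d1 (W.c V) (W.d2 (W.c (W.c V)) ψ) ∈ W.Van (k + 1) := by
        rw [W.c_c]
        exact W.van_d1 v1 v0c
      have b3 : W.d1 Z (W.d2 (W.c (W.c V)) ψ) ∈ W.Van (k + 1) := by
        rw [W.c_c]
        exact W.van_d1 v1 hZ
      have b4 : W.d1 (W.c V) (W.d2 (W.c Z) ψ) ∈ W.Van (k + 1) := W.van_d1 a2 v0c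
      have key := hcs (k + 1) Z hZ (W.c V) v0c ih a1 b1 a4 b2 b3 b4
      have b5 := W.van_polar _ b3 fun D hD hDr => (key D hD hDr).1
      have b6 := W.van_polar _ b4 fun D hD hDr => (key D hD hDr).2
      rw [W.c_c] at b5
      exact ⟨b5, b6⟩
    · -- `k + 2` odd
      apply W.van_polar _ ih
      intro D hD hDr
      have a1 : ψ ∈ W.Van (k + 1) := W.van_succ_le _ ih
      have a2 : W.d1 D ψ ∈ W.Van (k + 1) := W.van_d1 ih hD
      have a3 : W.d1 D (W.d2 (W.c D) ψ) ∈ W.Van k := by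
        rw [hDr]
        exact W.van_d1 (W.van_d2 ih hD) hD
      have key := hodd k hk D hD a1 a2 a3 D hD hDr
      rw [hDr] at key
      have b1 : ((W.d1 D) ^ (k + 1)) (W.d1 D ψ + W.d2 D ψ) ∈ W.P := by
        apply W.van_le_P (le_refl 1)
        apply W.van_pow hD
        rw [show 1 + (k + 1) = k + 2 by ring]
        exact W.van_delta _ ih hD
      have b2 : ((W.d1 D) ^ (k + 1)) (W.d2 D ψ) ∈ W.P := by
        rw [pow_succ]
        exact key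
      have b3 := W.P.sub_mem b1 b2
      rw [map_add, add_sub_cancel_right] at b3
      rw [show k + 2 = (k + 1) + 1 by ring, pow_succ]
      exact b3

/-- the leading coefficient in an imaginary direction -/
theorem van_lead {m : ℕ} {D : 𝔇} (hD : D ∈ W.𝔤) {τ : T} (h : τ ∈ W.Van m) :
    ∃ κ ∈ W.P, ((W.d1 D + (-1 : ℂ) • W.d2 D) ^ m) τ = (2 : ℂ) ^ m • ((W.d1 D) ^ m) τ + κ := by
  induction m generalizing τ with
  | zero => exact ⟨0, W.P.zero_mem, by simp⟩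
  | succ m ih =>
    obtain ⟨κ, hκ, e⟩ := ih (W.van_d1 h hD)
    have h2 : ((W.d1 D + (-1 : ℂ) • W.d2 D) ^ m) (W.d1 D τ + W.d2 D τ) ∈ W.P :=
      W.van_le_P (le_refl 1) (W.van_powsub hD (by
        rw [add_comm 1 m]
        exact W.van_delta _ h hD))
    refine ⟨(2 : ℂ) • κ + (-1 : ℂ) • ((W.d1 D + (-1 : ℂ) • W.d2 D) ^ m) (W.d1 D τ + W.d2 D τ),
      W.P.add_mem (W.P.smul_mem _ hκ) (W.P.smul_mem _ h2), ?_⟩
    rw [pow_succ (W.d1 D + (-1 : ℂ) • W.d2 D), pow_succ (W.d1 D)]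
    simp only [Module.End.mul_apply]
    have : (W.d1 D + (-1 : ℂ) • W.d2 D) τ = (2 : ℂ) • W.d1 D τ + (-1 : ℂ) • (W.d1 D τ + W.d2 D τ) := by
      rw [LinearMap.add_apply, LinearMap.smul_apply]; module
    rw [this, map_add, map_smul, map_smul, e]
    module

end Pol

end Pool.Agent.V7H87.KD
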