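import Mathlib
import Pool.Agent.V7H87.KD.Ring

set_option autoImplicit false

open Complex
open scoped TensorProduct

namespace Pool.Agent.V7H87.KD

variable {n : ℕ}

/-- polarised functions `∑ A(p) B(q) G(x)` -/
abbrev TT (n : ℕ) : Type := Rn n ⊗[ℂ] (Rn n ⊗[ℂ] Rn n)

/-- the action of a vector field in the first (holomorphic) group of variables -/
noncomputable def δ1 (D : Derivation ℂ (Rn n) (Rn n)) : TT n →ₗ[ℂ] TT n :=
  TensorProduct.map (D : Rn n →ₗ[ℂ] Rn n) LinearMap.id +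
    ∑ j, TensorProduct.map (LinearMap.mulLeft ℂ (D (zc j)))
      (TensorProduct.map LinearMap.id (pd j : Rn n →ₗ[ℂ] Rn n))

/-- the action of a vector field in the second (antiholomorphic) group of variables -/
noncomputable def δ2 (D : Derivation ℂ (Rn n) (Rn n)) : TT n →ₗ[ℂ] TT n :=
  TensorProduct.map LinearMap.id (TensorProduct.map (D : Rn n →ₗ[ℂ] Rn n) LinearMap.id) +
    ∑ j, TensorProduct.map LinearMap.id
      (TensorProduct.map (LinearMap.mulLeft ℂ (D (cj (zc j)))) (pdb j : Rn n →ₗ[ℂ] Rn n))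

/-- restriction to the diagonal -/
noncomputable def mu : TT n →ₗ[ℂ] Rn n :=
  LinearMap.mul' ℂ (Rn n) ∘ₗ TensorProduct.map LinearMap.id (LinearMap.mul' ℂ (Rn n))

@[simp] theorem mu_tmul (A B G : Rn n) : mu (A ⊗ₜ[ℂ] (B ⊗ₜ[ℂ] G)) = A * (B * G) := rfl

theorem δ1_tmul (D : Derivation ℂ (Rn n) (Rn n)) (A B G : Rn n) :
    δ1 D (A ⊗ₜ[ℂ] (B ⊗ₜ[ℂ] G)) =
      D A ⊗ₜ[ℂ] (B ⊗ₜ[ℂ] G) + ∑ j, (D (zc j) * A) ⊗ₜ[ℂ] (B ⊗ₜ[ℂ] pd j G) := by
  simp [δ1, LinearMap.sum_apply]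

theorem δ2_tmul (D : Derivation ℂ (Rn n) (Rn n)) (A B G : Rn n) :
    δ2 D (A ⊗ₜ[ℂ] (B ⊗ₜ[ℂ] G)) =
      A ⊗ₜ[ℂ] (D B ⊗ₜ[ℂ] G) + ∑ j, A ⊗ₜ[ℂ] ((D (cj (zc j)) * B) ⊗ₜ[ℂ] pdb j G) := by
  simp [δ2, LinearMap.sum_apply]

theorem ext3 {M : Type*} [AddCommMonoid M] [Module ℂ M] {f g : TT n →ₗ[ℂ] M}
    (h : ∀ A B G : Rn n, f (A ⊗ₜ[ℂ] (B ⊗ₜ[ℂ] G)) = g (A ⊗ₜ[ℂ] (B ⊗ₜ[ℂ] G))) : f = g := by
  ext A B G
  exact h A B G

theorem δ1_add (D D' : Derivation ℂ (Rn n) (Rn n)) : δ1 (D + D') = δ1 D + δ1 D' := by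
  apply ext3
  intro A B G
  simp only [δ1_tmul, LinearMap.add_apply, Derivation.add_apply, TensorProduct.add_tmul, add_mul,
    Finset.sum_add_distrib]
  abel

theorem δ2_add (D D' : Derivation ℂ (Rn n) (Rn n)) : δ2 (D + D') = δ2 D + δ2 D' := by
  apply ext3
  intro A B G
  simp only [δ2_tmul, LinearMap.add_apply, Derivation.add_apply, TensorProduct.add_tmul,
    TensorProduct.tmul_add, add_mul, Finset.sum_add_distrib]
  abel

theorem δ1_smul (c : ℂ) (D : Derivation ℂ (Rn n) (Rn n)) : δ1 (c • D) = c • δ1 D := by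
  apply ext3
  intro A B G
  simp only [δ1_tmul, LinearMap.smul_apply, Derivation.smul_apply, ← TensorProduct.smul_tmul',
    smul_mul_assoc, smul_add, Finset.smul_sum]

theorem δ2_smul (c : ℂ) (D : Derivation ℂ (Rn n) (Rn n)) : δ2 (c • D) = c • δ2 D := by
  apply ext3
  intro A B G
  simp only [δ2_tmul, LinearMap.smul_apply, Derivation.smul_apply, ← TensorProduct.smul_tmul',
    smul_mul_assoc, smul_add, Finset.smul_sum, TensorProduct.tmul_smul]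

theorem δ12_comm (D D' : Derivation ℂ (Rn n) (Rn n)) (τ : TT n) :
    δ1 D (δ2 D' τ) = δ2 D' (δ1 D τ) := by
  have : δ1 D ∘ₗ δ2 D' = δ2 D' ∘ₗ δ1 D := by
    apply ext3
    intro A B G
    simp only [LinearMap.comp_apply, δ2_tmul, δ1_tmul, map_add, map_sum, Finset.sum_add_distrib]
    have : ∀ j k, pdb j (pd k G) = pd k (pdb j G) := fun j k => (pd_pdb k j G).symm
    simp only [this]
    rw [Finset.sum_comm]
    abel
  exact LinearMap.congr_fun this τ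

theorem δ11_comm (D D' : Derivation ℂ (Rn n) (Rn n)) (τ : TT n) :
    δ1 D (δ1 D' τ) = δ1 D' (δ1 D τ) + δ1 ⁅D, D'⁆ τ := by
  have : δ1 D ∘ₗ δ1 D' = δ1 D' ∘ₗ δ1 D + δ1 ⁅D, D'⁆ := by
    apply ext3
    intro A B G
    simp only [LinearMap.add_apply, LinearMap.comp_apply, δ1_tmul, map_add, map_sum,
      Finset.sum_add_distrib, Derivation.leibniz, smul_eq_mul, TensorProduct.add_tmul]
    have h1 : ∑ i, ∑ j, (D (zc j) * (D' (zc i) * A)) ⊗ₜ[ℂ] (B ⊗ₜ[ℂ] pd j (pd i G)) =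
        ∑ i, ∑ j, (D' (zc j) * (D (zc i) * A)) ⊗ₜ[ℂ] (B ⊗ₜ[ℂ] pd j (pd i G)) := by
      rw [Finset.sum_comm]
      refine Finset.sum_congr rfl fun i _ => Finset.sum_congr rfl fun j _ => ?_
      rw [pd_pd i j G]
      congr 1
      ring
    rw [h1]
    have h2 : ∀ j, ⁅D, D'⁆ (zc j) * A + A * D' (D (zc j)) = A * D (D' (zc j)) := fun j => by
      rw [Derivation.commutator_apply]; ring
    have h4 : D (D' A) = ⁅D, D'⁆ A + D' (D A) := by
      rw [Derivation.commutator_apply]; ring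
    have h5 : ∑ j, (A * D (D' (zc j))) ⊗ₜ[ℂ] (B ⊗ₜ[ℂ] pd j G) =
        ∑ j, (⁅D, D'⁆ (zc j) * A) ⊗ₜ[ℂ] (B ⊗ₜ[ℂ] pd j G) +
        ∑ j, (A * D' (D (zc j))) ⊗ₜ[ℂ] (B ⊗ₜ[ℂ] pd j G) := by
      rw [← Finset.sum_add_distrib]
      refine Finset.sum_congr rfl fun j _ => ?_
      rw [← TensorProduct.add_tmul, h2]
    rw [h4, h5, TensorProduct.add_tmul]
    abel
  exact LinearMap.congr_fun this τ

theorem δ22_comm (D D' : Derivation ℂ (Rn n) (Rn n)) (τ : TT n) :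
    δ2 D (δ2 D' τ) = δ2 D' (δ2 D τ) + δ2 ⁅D, D'⁆ τ := by
  have : δ2 D ∘ₗ δ2 D' = δ2 D' ∘ₗ δ2 D + δ2 ⁅D, D'⁆ := by
    apply ext3
    intro A B G
    simp only [LinearMap.add_apply, LinearMap.comp_apply, δ2_tmul, map_add, map_sum,
      Finset.sum_add_distrib, Derivation.leibniz, smul_eq_mul, TensorProduct.add_tmul,
      TensorProduct.tmul_add]
    have h1 : ∑ i, ∑ j, A ⊗ₜ[ℂ] ((D (cj (zc j)) * (D' (cj (zc i)) * B)) ⊗ₜ[ℂ] pdb j (pdb i G)) =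
        ∑ i, ∑ j, A ⊗ₜ[ℂ] ((D' (cj (zc j)) * (D (cj (zc i)) * B)) ⊗ₜ[ℂ] pdb j (pdb i G)) := by
      rw [Finset.sum_comm]
      refine Finset.sum_congr rfl fun i _ => Finset.sum_congr rfl fun j _ => ?_
      rw [pdb_pdb i j G]
      congr 2
      ring
    rw [h1]
    have h2 : ∀ j, ⁅D, D'⁆ (cj (zc j)) * B + B * D' (D (cj (zc j))) = B * D (D' (cj (zc j))) :=
      fun j => by rw [Derivation.commutator_apply]; ring
    have h4 : D (D' B) = ⁅D, D'⁆ B + D' (D B) := by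
      rw [Derivation.commutator_apply]; ring
    have h5 : ∑ j, A ⊗ₜ[ℂ] ((B * D (D' (cj (zc j)))) ⊗ₜ[ℂ] pdb j G) =
        ∑ j, A ⊗ₜ[ℂ] ((⁅D, D'⁆ (cj (zc j)) * B) ⊗ₜ[ℂ] pdb j G) +
        ∑ j, A ⊗ₜ[ℂ] ((B * D' (D (cj (zc j)))) ⊗ₜ[ℂ] pdb j G) := by
      rw [← Finset.sum_add_distrib]
      refine Finset.sum_congr rfl fun j _ => ?_
      rw [← TensorProduct.tmul_add, ← TensorProduct.add_tmul, h2]
    rw [h4, h5, TensorProduct.add_tmul, TensorProduct.tmul_add]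
    abel
  exact LinearMap.congr_fun this τ

theorem mu_delta {D : Derivation ℂ (Rn n) (Rn n)} (hD : IsVF D) (τ : TT n) :
    mu (δ1 D τ + δ2 D τ) = D (mu τ) := by
  have : mu ∘ₗ (δ1 D + δ2 D) = (D : Rn n →ₗ[ℂ] Rn n) ∘ₗ mu := by
    apply ext3
    intro A B G
    simp only [LinearMap.comp_apply, LinearMap.add_apply, δ1_tmul, δ2_tmul, map_add, map_sum,
      mu_tmul, Derivation.coeFn_coe, Derivation.leibniz, smul_eq_mul]
    rw [hD G]
    simp only [mul_add, Finset.mul_sum]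
    have e1 : ∀ j, D (zc j) * A * (B * pd j G) = A * (B * (D (zc j) * pd j G)) := fun j => by ring
    have e2 : ∀ j, A * (D (cj (zc j)) * B * pdb j G) = A * (B * (D (cj (zc j)) * pdb j G)) :=
      fun j => by ring
    simp only [e1, e2]
    ring
  exact LinearMap.congr_fun this τ

end Pool.Agent.V7H87.KD
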