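import Mathlib
import Pool.Agent.V7H87.KD.Alg
import Pool.Agent.V7H87.KD.Abs

set_option autoImplicit false

open Complex
open scoped TensorProduct

namespace Pool.Agent.V7H87.KD

variable {n : ℕ}

/-- vector fields as derivations -/
abbrev DD (n : ℕ) : Type := Derivation ℂ (Rn n) (Rn n)

/-- the conjugate vector field -/
noncomputable def cjD (D : DD n) : DD n where
  toFun f := cj (D (cj f))
  map_add' f g := by rw [map_add, map_add, map_add]
  map_smul' c f := by
    rw [cj_smul, Derivation.map_smul, cj_smul, Complex.conj_conj]; rfl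
  map_one_eq_zero' := by
    show cj (D (cj 1)) = 0
    rw [map_one, Derivation.map_one_eq_zero, map_zero]
  leibniz' f g := by
    show cj (D (cj (f * g))) = _
    rw [map_mul, Derivation.leibniz]
    simp only [smul_eq_mul, map_add, map_mul, cj_cj]
    rfl

theorem cjD_apply (D : DD n) (f : Rn n) : cjD D f = cj (D (cj f)) := rfl

theorem cjD_add (D E : DD n) : cjD (D + E) = cjD D + cjD E := by
  ext1 f
  simp only [cjD_apply, Derivation.add_apply, map_add]

theorem cjD_smul (c : ℂ) (D : DD n) : cjD (c • D) = (starRingEnd ℂ) c • cjD D := by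
  ext1 f
  simp only [cjD_apply, Derivation.smul_apply, cj_smul]

theorem cjD_cjD (D : DD n) : cjD (cjD D) = D := by
  ext1 f
  simp only [cjD_apply, cj_cj]

theorem cjD_lie (D E : DD n) : cjD ⁅D, E⁆ = ⁅cjD D, cjD E⁆ := by
  ext1 f
  simp only [cjD_apply, Derivation.commutator_apply, map_sub, cj_cj]

theorem cjD_zero : cjD (0 : DD n) = 0 := by
  ext1 f
  simp only [cjD_apply, Derivation.zero_apply, map_zero]

theorem IsVF.cjD {D : DD n} (h : IsVF D) : IsVF (cjD D) := by
  intro f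
  rw [cjD_apply, h (cj f), map_add, map_sum, map_sum, add_comm]
  congr 1
  · refine Finset.sum_congr rfl fun j _ => ?_
    rw [map_mul, pdb_cj, cj_cj, cjD_apply]
  · refine Finset.sum_congr rfl fun j _ => ?_
    rw [map_mul, pd_cj, cj_cj, cjD_apply, cj_cj]

/-- the Lie algebra of vector fields -/
noncomputable def VF (n : ℕ) : LieSubalgebra ℂ (DD n) where
  carrier := {D | IsVF D}
  add_mem' := by
    intro D E hD hE f
    rw [Derivation.add_apply, hD f, hE f]
    simp only [Derivation.add_apply, add_mul, Finset.sum_add_distrib]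
    abel
  zero_mem' := by
    intro f
    simp
  smul_mem' := by
    intro c D hD f
    rw [Derivation.smul_apply, hD f, smul_add, Finset.smul_sum, Finset.smul_sum]
    simp only [Derivation.smul_apply, smul_mul_assoc]
  lie_mem' := by
    intro D E hD hE f
    have hD' : IsVF D := hD
    have hE' : IsVF E := hE
    rw [Derivation.commutator_apply]
    have e1 : D (E f) = ∑ j, (D (E (zc j)) * pd j f) + ∑ j, (D (E (cj (zc j))) * pdb j f) +
        (∑ j, E (zc j) * (∑ k, D (zc k) * pd k (pd j f) + ∑ k, D (cj (zc k)) * pdb k (pd j f)) +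
          ∑ j, E (cj (zc j)) * (∑ k, D (zc k) * pd k (pdb j f) + ∑ k, D (cj (zc k)) * pdb k (pdb j f))) := by
      conv_lhs => rw [hE' f]
      simp only [map_add, map_sum, Derivation.leibniz, smul_eq_mul, Finset.sum_add_distrib]
      have t1 : ∀ j, D (pd j f) = ∑ k, D (zc k) * pd k (pd j f) + ∑ k, D (cj (zc k)) * pdb k (pd j f) :=
        fun j => hD' _
      have t2 : ∀ j, D (pdb j f) = ∑ k, D (zc k) * pd k (pdb j f) + ∑ k, D (cj (zc k)) * pdb k (pdb j f) :=
        fun j => hD' _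
      simp only [← t1, ← t2]
      have t3 : ∀ j, pd j f * D (E (zc j)) = D (E (zc j)) * pd j f := fun j => mul_comm _ _
      have t4 : ∀ j, pdb j f * D (E (cj (zc j))) = D (E (cj (zc j))) * pdb j f := fun j => mul_comm _ _
      simp only [t3, t4]
      abel
    have e2 : E (D f) = ∑ j, (E (D (zc j)) * pd j f) + ∑ j, (E (D (cj (zc j))) * pdb j f) +
        (∑ j, D (zc j) * (∑ k, E (zc k) * pd k (pd j f) + ∑ k, E (cj (zc k)) * pdb k (pd j f)) +
          ∑ j, D (cj (zc j)) * (∑ k, E (zc k) * pd k (pdb j f) + ∑ k, E (cj (zc k)) * pdb k (pdb j f))) := by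
      conv_lhs => rw [hD' f]
      simp only [map_add, map_sum, Derivation.leibniz, smul_eq_mul, Finset.sum_add_distrib]
      have t1 : ∀ j, E (pd j f) = ∑ k, E (zc k) * pd k (pd j f) + ∑ k, E (cj (zc k)) * pdb k (pd j f) :=
        fun j => hE' _
      have t2 : ∀ j, E (pdb j f) = ∑ k, E (zc k) * pd k (pdb j f) + ∑ k, E (cj (zc k)) * pdb k (pdb j f) :=
        fun j => hE' _
      simp only [← t1, ← t2]
      have t3 : ∀ j, pd j f * E (D (zc j)) = E (D (zc j)) * pd j f := fun j => mul_comm _ _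
      have t4 : ∀ j, pdb j f * E (D (cj (zc j))) = E (D (cj (zc j))) * pdb j f := fun j => mul_comm _ _
      simp only [t3, t4]
      abel
    have e3 : (∑ j, E (zc j) * (∑ k, D (zc k) * pd k (pd j f) + ∑ k, D (cj (zc k)) * pdb k (pd j f)) +
          ∑ j, E (cj (zc j)) * (∑ k, D (zc k) * pd k (pdb j f) + ∑ k, D (cj (zc k)) * pdb k (pdb j f))) =
        (∑ j, D (zc j) * (∑ k, E (zc k) * pd k (pd j f) + ∑ k, E (cj (zc k)) * pdb k (pd j f)) +
          ∑ j, D (cj (zc j)) * (∑ k, E (zc k) * pd k (pdb j f) + ∑ k, E (cj (zc k)) * pdb k (pdb j f))) := by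
      simp only [mul_add, Finset.sum_add_distrib, Finset.mul_sum]
      have s1 : ∑ j, ∑ k, E (zc j) * (D (zc k) * pd k (pd j f)) =
          ∑ j, ∑ k, D (zc j) * (E (zc k) * pd k (pd j f)) := by
        rw [Finset.sum_comm]
        refine Finset.sum_congr rfl fun j _ => Finset.sum_congr rfl fun k _ => ?_
        rw [pd_pd j k]; ring
      have s2 : ∑ j, ∑ k, E (zc j) * (D (cj (zc k)) * pdb k (pd j f)) =
          ∑ j, ∑ k, D (cj (zc j)) * (E (zc k) * pd k (pdb j f)) := by
        rw [Finset.sum_comm]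
        refine Finset.sum_congr rfl fun j _ => Finset.sum_congr rfl fun k _ => ?_
        rw [pd_pdb k j]; ring
      have s3 : ∑ j, ∑ k, E (cj (zc j)) * (D (zc k) * pd k (pdb j f)) =
          ∑ j, ∑ k, D (zc j) * (E (cj (zc k)) * pdb k (pd j f)) := by
        rw [Finset.sum_comm]
        refine Finset.sum_congr rfl fun j _ => Finset.sum_congr rfl fun k _ => ?_
        rw [pd_pdb j k]; ring
      have s4 : ∑ j, ∑ k, E (cj (zc j)) * (D (cj (zc k)) * pdb k (pdb j f)) =
          ∑ j, ∑ k, D (cj (zc j)) * (E (cj (zc k)) * pdb k (pdb j f)) := by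
        rw [Finset.sum_comm]
        refine Finset.sum_congr rfl fun j _ => Finset.sum_congr rfl fun k _ => ?_
        rw [pdb_pdb j k]; ring
      rw [s1, s2, s3, s4]
      ring
    rw [e1, e2, e3]
    simp only [Derivation.commutator_apply, sub_mul, Finset.sum_sub_distrib]
    abel

theorem mem_VF {D : DD n} : D ∈ VF n ↔ IsVF D := Iff.rfl

/-- the field `∑ a_j ∂/∂z_j` -/
noncomputable def ZZ (a : Fin n → Rn n) : DD n := ∑ j, a j • pd j

theorem dsum_apply {ι : Type*} (s : Finset ι) (D : ι → DD n) (f : Rn n) :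
    (∑ i ∈ s, D i) f = ∑ i ∈ s, D i f := by
  classical
  induction s using Finset.induction_on with
  | empty => simp
  | insert b s hb ih => rw [Finset.sum_insert hb, Finset.sum_insert hb, Derivation.add_apply, ih]

theorem ZZ_apply (a : Fin n → Rn n) (f : Rn n) : ZZ a f = ∑ j, a j * pd j f := by
  rw [ZZ, dsum_apply]
  rfl

theorem ZZ_zc (a : Fin n → Rn n) (k : Fin n) : ZZ a (zc k) = a k := by
  rw [ZZ_apply]
  simp [pd_zc]

theorem ZZ_zcb (a : Fin n → Rn n) (k : Fin n) : ZZ a (cj (zc k)) = 0 := by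
  rw [ZZ_apply]
  simp [pd_cj, pdb_zc]

theorem isVF_ZZ (a : Fin n → Rn n) : IsVF (ZZ a) := by
  intro f
  simp only [ZZ_zc, ZZ_zcb, zero_mul, Finset.sum_const_zero, add_zero]
  exact ZZ_apply a f

/-- the Lie algebra generated by `Z` and its conjugate -/
noncomputable def gZ (a : Fin n → Rn n) : LieSubalgebra ℂ (DD n) :=
  LieSubalgebra.lieSpan ℂ (DD n) {ZZ a, cjD (ZZ a)}

theorem ZZ_mem_gZ (a : Fin n → Rn n) : ZZ a ∈ gZ a := LieSubalgebra.subset_lieSpan (by simp)

theorem gZ_le_VF (a : Fin n → Rn n) : gZ a ≤ VF n := by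
  rw [gZ, LieSubalgebra.lieSpan_le]
  rintro X hX
  rcases hX with rfl | hX
  · exact isVF_ZZ a
  · rw [Set.mem_singleton_iff] at hX
    subst hX
    exact (isVF_ZZ a).cjD

theorem gZ_pres (a : Fin n → Rn n) (p : Ideal (Rn n)) (hcj : ∀ f ∈ p, cj f ∈ p)
    (ha : ∀ f ∈ p, ∑ j, a j * pd j f ∈ p) : ∀ D ∈ gZ a, ∀ f ∈ p, D f ∈ p := by
  let N : LieSubalgebra ℂ (DD n) :=
    { carrier := {D | ∀ f ∈ p, D f ∈ p}
      add_mem' := by
        intro D E hD hE f hf
        rw [Derivation.add_apply]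
        exact p.add_mem (hD f hf) (hE f hf)
      zero_mem' := by
        intro f _
        rw [Derivation.zero_apply]
        exact p.zero_mem
      smul_mem' := by
        intro c D hD f hf
        rw [Derivation.smul_apply, ← algebraMap_smul (Rn n) c (D f)]
        exact p.mul_mem_left _ (hD f hf)
      lie_mem' := by
        intro D E hD hE f hf
        rw [Derivation.commutator_apply]
        exact p.sub_mem (hD _ (hE f hf)) (hE _ (hD f hf)) }
  have : gZ a ≤ N := by
    rw [gZ, LieSubalgebra.lieSpan_le]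
    rintro X hX
    rcases hX with rfl | hX
    · intro f hf
      rw [ZZ_apply]
      exact ha f hf
    · rw [Set.mem_singleton_iff] at hX
      subst hX
      intro f hf
      rw [cjD_apply, ZZ_apply]
      exact hcj _ (ha _ (hcj f hf))
  intro D hD
  exact this hD

theorem gZ_cjD (a : Fin n → Rn n) : ∀ D ∈ gZ a, cjD D ∈ gZ a := by
  let N : LieSubalgebra ℂ (DD n) :=
    { carrier := {D | cjD D ∈ gZ a}
      add_mem' := by
        intro D E hD hE
        show cjD (D + E) ∈ gZ a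
        rw [cjD_add]
        exact (gZ a).add_mem hD hE
      zero_mem' := by
        show cjD 0 ∈ gZ a
        rw [cjD_zero]
        exact (gZ a).zero_mem
      smul_mem' := by
        intro c D hD
        show cjD (c • D) ∈ gZ a
        rw [cjD_smul]
        exact (gZ a).smul_mem _ hD
      lie_mem' := by
        intro D E hD hE
        show cjD ⁅D, E⁆ ∈ gZ a
        rw [cjD_lie]
        exact (gZ a).lie_mem hD hE }
  have : gZ a ≤ N := by
    conv_lhs => rw [gZ]
    rw [LieSubalgebra.lieSpan_le]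
    rintro X hX
    rcases hX with rfl | hX
    · exact LieSubalgebra.subset_lieSpan (by simp)
    · rw [Set.mem_singleton_iff] at hX
      subst hX
      show cjD (cjD (ZZ a)) ∈ gZ a
      rw [cjD_cjD]
      exact ZZ_mem_gZ a
  intro D hD
  exact this hD

/-- the algebraic framework for a prime ideal and a null vector field -/
noncomputable def mkPol (a : Fin n → Rn n) (p : Ideal (Rn n)) (hcj : ∀ f ∈ p, cj f ∈ p)
    (ha : ∀ f ∈ p, ∑ j, a j * pd j f ∈ p) : Pol (DD n) (TT n) where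
  d1 := { toFun := δ1, map_add' := δ1_add, map_smul' := δ1_smul }
  d2 := { toFun := δ2, map_add' := δ2_add, map_smul' := δ2_smul }
  c11 := δ11_comm
  c22 := δ22_comm
  c12 := δ12_comm
  𝔤 := gZ a
  P := Submodule.comap mu (p.restrictScalars ℂ)
  hP := by
    intro X hX τ hτ
    show mu (δ1 X τ + δ2 X τ) ∈ p
    rw [mu_delta (mem_VF.1 (gZ_le_VF a hX))]
    exact gZ_pres a p hcj ha X hX _ hτ
  c := cjD
  c_add := cjD_add
  c_smul := cjD_smul
  c_c := cjD_cjD
  c_mem := gZ_cjD a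
  c_lie := cjD_lie

section

variable (a : Fin n → Rn n) (p : Ideal (Rn n)) (hcj : ∀ f ∈ p, cj f ∈ p)
    (ha : ∀ f ∈ p, ∑ j, a j * pd j f ∈ p)

theorem mkPol_d1 (D : DD n) : (mkPol a p hcj ha).d1 D = δ1 D := rfl
theorem mkPol_d2 (D : DD n) : (mkPol a p hcj ha).d2 D = δ2 D := rfl
theorem mkPol_g : (mkPol a p hcj ha).𝔤 = gZ a := rfl
theorem mkPol_c (D : DD n) : (mkPol a p hcj ha).c D = cjD D := rfl
theorem mem_mkPol_P (τ : TT n) : τ ∈ (mkPol a p hcj ha).P ↔ mu τ ∈ p := Iff.rfl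

end

/-- the function `r`, polarised -/
noncomputable def psi (r : Rn n) : TT n := 1 ⊗ₜ[ℂ] (1 ⊗ₜ[ℂ] r)

theorem mu_psi (r : Rn n) : mu (psi r) = r := by
  rw [psi, mu_tmul, one_mul, one_mul]

theorem δ1_psi (D : DD n) (r : Rn n) :
    δ1 D (psi r) = ∑ j, D (zc j) ⊗ₜ[ℂ] ((1 : Rn n) ⊗ₜ[ℂ] pd j r) := by
  rw [psi, δ1_tmul, Derivation.map_one_eq_zero, TensorProduct.zero_tmul, zero_add]
  simp only [mul_one]

theorem δ2_psi (D : DD n) (r : Rn n) :
    δ2 D (psi r) = ∑ j, (1 : Rn n) ⊗ₜ[ℂ] (D (cj (zc j)) ⊗ₜ[ℂ] pdb j r) := by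
  rw [psi, δ2_tmul, Derivation.map_one_eq_zero, TensorProduct.zero_tmul, TensorProduct.tmul_zero,
    zero_add]
  simp only [mul_one]

theorem δ12_psi (D E : DD n) (r : Rn n) :
    δ1 D (δ2 E (psi r)) = ∑ k, ∑ j, D (zc j) ⊗ₜ[ℂ] (E (cj (zc k)) ⊗ₜ[ℂ] pd j (pdb k r)) := by
  rw [δ2_psi, map_sum]
  refine Finset.sum_congr rfl fun k _ => ?_
  rw [δ1_tmul, Derivation.map_one_eq_zero, TensorProduct.zero_tmul, zero_add]
  simp only [mul_one]

theorem δ2_Z_psi (a : Fin n → Rn n) (r : Rn n) : δ2 (ZZ a) (psi r) = 0 := by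
  rw [δ2_psi]
  simp only [ZZ_zcb, TensorProduct.zero_tmul, TensorProduct.tmul_zero, Finset.sum_const_zero]

theorem δ1_Zb_psi (a : Fin n → Rn n) (r : Rn n) : δ1 (cjD (ZZ a)) (psi r) = 0 := by
  rw [δ1_psi]
  simp only [cjD_apply, ZZ_zcb, map_zero, TensorProduct.zero_tmul, Finset.sum_const_zero]

/-- the base case -/
theorem psi_van_two (a : Fin n → Rn n) (p : Ideal (Rn n)) (hcj : ∀ f ∈ p, cj f ∈ p)
    (ha : ∀ f ∈ p, ∑ j, a j * pd j f ∈ p) (r : Rn n) (hr : r ∈ p) (hrr : cj r = r) (κ : Rn n)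
    (hκ : ∀ m, ∑ j, a j * pd j (pdb m r) - κ * pdb m r ∈ p) :
    psi r ∈ (mkPol a p hcj ha).Van 2 := by
  set W := mkPol a p hcj ha with hW
  have h1 : psi r ∈ W.Van 1 := by
    rw [Pol.mem_van_succ]
    refine ⟨?_, fun X _ => ⟨W.mem_van_zero _, W.mem_van_zero _⟩⟩
    rw [hW, mem_mkPol_P, mu_psi]
    exact hr
  have hV1 : ∀ τ : TT n, τ ∈ W.Van 1 ↔ mu τ ∈ p := by
    intro τ
    rw [Pol.mem_van_succ, hW, mem_mkPol_P]
    exact ⟨fun h => h.1, fun h => ⟨h, fun X _ => ⟨Pol.mem_van_zero _ _, Pol.mem_van_zero _ _⟩⟩⟩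
  apply W.van_bracket (ZZ a) rfl (psi r) (δ2_Z_psi a r) (δ1_Zb_psi a r) (le_refl 1) h1
  -- the key computation
  have comp : ∀ V : DD n, mu (δ2 V (psi r)) ∈ p → mu (δ1 (ZZ a) (δ2 V (psi r))) ∈ p := by
    intro V hV
    have e1 : mu (δ1 (ZZ a) (δ2 V (psi r))) =
        ∑ k, V (cj (zc k)) * (∑ j, a j * pd j (pdb k r) - κ * pdb k r) + κ * mu (δ2 V (psi r)) := by
      rw [δ12_psi, δ2_psi]
      simp only [map_sum, mu_tmul, ZZ_zc, mul_sub, Finset.sum_sub_distrib, Finset.mul_sum, one_mul]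
      have s1 : ∀ k j, a j * (V (cj (zc k)) * pd j (pdb k r)) = V (cj (zc k)) * (a j * pd j (pdb k r)) :=
        fun k j => by ring
      have s2 : ∀ k, κ * (V (cj (zc k)) * pdb k r) = V (cj (zc k)) * (κ * pdb k r) := fun k => by ring
      simp only [s1, s2]
      ring
    rw [e1]
    exact p.add_mem (p.sum_mem fun k _ => p.mul_mem_left _ (hκ k)) (p.mul_mem_left _ hV)
  intro V hV v1 v2
  rw [hV1] at v1 v2 ⊢
  rw [hV1]
  refine ⟨comp V v1, ?_⟩
  have e2 : mu (δ1 (cjD V) (δ2 (cjD (ZZ a)) (psi r))) = cj (mu (δ1 (ZZ a) (δ2 V (psi r)))) := by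
    rw [δ12_psi, δ12_psi]
    simp only [map_sum, mu_tmul, map_mul, cjD_apply, cj_cj]
    rw [Finset.sum_comm]
    refine Finset.sum_congr rfl fun j _ => Finset.sum_congr rfl fun k _ => ?_
    rw [← pdb_cj, ← pd_cj, hrr, pd_pdb]
    ring
  show mu (δ1 (cjD V) (δ2 (cjD (ZZ a)) (psi r))) ∈ p
  rw [e2]
  exact hcj _ (comp V v1)

end Pool.Agent.V7H87.KD
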