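import Mathlib
import Pool.Agent.V7H87.KD.PolI

set_option autoImplicit false

open Filter Topology Asymptotics Complex
open scoped TensorProduct ContDiff ComplexConjugate

namespace Pool.Agent.V7H87.KD

variable {n : ℕ}

/-- evaluation at a point -/
noncomputable def ev (y : Fin n → ℂ) : Rn n →ₗ[ℂ] ℂ where
  toFun f := (f : (Fin n → ℂ) → ℂ) y
  map_add' _ _ := rfl
  map_smul' _ _ := rfl

theorem ev_apply (y : Fin n → ℂ) (f : Rn n) : ev y f = (f : (Fin n → ℂ) → ℂ) y := rfl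

theorem ev_mul (y : Fin n → ℂ) (f g : Rn n) : ev y (f * g) = ev y f * ev y g := rfl

theorem ev_one (y : Fin n → ℂ) : ev y (1 : Rn n) = 1 := rfl

/-- the truncated exponential `∑_{i<N} t^i D^i A / i!` at `y` -/
noncomputable def exL (D : DD n) (N : ℕ) (t : ℂ) (y : Fin n → ℂ) : Rn n →ₗ[ℂ] ℂ :=
  ∑ i ∈ Finset.range N, (t ^ i / (i.factorial : ℂ)) • (ev y ∘ₗ ((D : Rn n →ₗ[ℂ] Rn n) ^ i))

theorem exL_apply (D : DD n) (N : ℕ) (t : ℂ) (y : Fin n → ℂ) (A : Rn n) :
    exL D N t y A = ∑ i ∈ Finset.range N, (t ^ i / (i.factorial : ℂ)) *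
      ((((D : Rn n →ₗ[ℂ] Rn n) ^ i) A : Rn n) : (Fin n → ℂ) → ℂ) y := by
  simp only [exL, LinearMap.sum_apply, LinearMap.smul_apply, LinearMap.comp_apply, ev_apply, smul_eq_mul]

theorem exL_succ (D : DD n) (N : ℕ) (t : ℂ) (y : Fin n → ℂ) (A : Rn n) :
    exL D (N + 1) t y A = exL D N t y A + (t ^ N / (N.factorial : ℂ)) *
      ((((D : Rn n →ₗ[ℂ] Rn n) ^ N) A : Rn n) : (Fin n → ℂ) → ℂ) y := by
  rw [exL_apply, exL_apply, Finset.sum_range_succ]

theorem exL_zero (D : DD n) (N : ℕ) (y : Fin n → ℂ) (A : Rn n) :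
    exL D (N + 1) 0 y A = (A : (Fin n → ℂ) → ℂ) y := by
  rw [exL_apply, Finset.sum_range_succ']
  simp

theorem exL_one (D : DD n) (N : ℕ) (t : ℂ) (y : Fin n → ℂ) : exL D (N + 1) t y 1 = 1 := by
  rw [exL_apply, Finset.sum_range_succ']
  have : ∀ i, ((D : Rn n →ₗ[ℂ] Rn n) ^ (i + 1)) (1 : Rn n) = 0 := by
    intro i
    rw [pow_succ, Module.End.mul_apply, Derivation.coeFn_coe, Derivation.map_one_eq_zero, map_zero]
  simp [this]

theorem exL_deriv (D : DD n) (N : ℕ) (t : ℂ) (y : Fin n → ℂ) (A : Rn n) (s : ℝ) :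
    HasDerivAt (fun s : ℝ => exL D (N + 1) (s * t) y A) (t * exL D N (s * t) y (D A)) s := by
  have h1 : ∀ i : ℕ, HasDerivAt (fun s : ℝ => (((s : ℂ) * t) ^ (i + 1) / ((i + 1).factorial : ℂ)) *
      ((((D : Rn n →ₗ[ℂ] Rn n) ^ (i + 1)) A : Rn n) : (Fin n → ℂ) → ℂ) y)
      (t * ((((s : ℂ) * t) ^ i / (i.factorial : ℂ)) *
      ((((D : Rn n →ₗ[ℂ] Rn n) ^ i) (D A) : Rn n) : (Fin n → ℂ) → ℂ) y)) s := by
    intro i
    have h2 : HasDerivAt (fun s : ℝ => (s : ℂ) * t) t s := by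
      simpa using (Complex.ofRealCLM.hasDerivAt (x := s)).mul_const t
    have h3 := ((h2.fun_pow (i + 1)).div_const ((i + 1).factorial : ℂ)).mul_const
      (((((D : Rn n →ₗ[ℂ] Rn n) ^ (i + 1)) A : Rn n) : (Fin n → ℂ) → ℂ) y)
    refine h3.congr_deriv ?_
    rw [pow_succ (D : Rn n →ₗ[ℂ] Rn n) i, Module.End.mul_apply, Derivation.coeFn_coe,
      Nat.factorial_succ]
    push_cast
    have hi : (i.factorial : ℂ) ≠ 0 := by exact_mod_cast Nat.factorial_ne_zero i
    have hi1 : ((i : ℂ) + 1) ≠ 0 := by exact_mod_cast Nat.succ_ne_zero i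
    field_simp
  have h4 : HasDerivAt (fun s : ℝ => ∑ i ∈ Finset.range N,
      (((s : ℂ) * t) ^ (i + 1) / ((i + 1).factorial : ℂ)) *
      ((((D : Rn n →ₗ[ℂ] Rn n) ^ (i + 1)) A : Rn n) : (Fin n → ℂ) → ℂ) y +
      (A : (Fin n → ℂ) → ℂ) y) (t * exL D N (s * t) y (D A)) s := by
    rw [exL_apply, Finset.mul_sum]
    have := (HasDerivAt.fun_sum (u := Finset.range N) fun i _ => h1 i).add_const
      ((A : (Fin n → ℂ) → ℂ) y)
    exact this
  have h5 : (fun s : ℝ => exL D (N + 1) (s * t) y A) = fun s : ℝ => ∑ i ∈ Finset.range N,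
      (((s : ℂ) * t) ^ (i + 1) / ((i + 1).factorial : ℂ)) *
      ((((D : Rn n →ₗ[ℂ] Rn n) ^ (i + 1)) A : Rn n) : (Fin n → ℂ) → ℂ) y +
      (A : (Fin n → ℂ) → ℂ) y := by
    funext s
    rw [exL_apply, Finset.sum_range_succ']
    simp
  rw [h5]
  exact h4

theorem cont_exL (D : DD n) (N : ℕ) (A : Rn n) :
    Continuous fun q : (Fin n → ℂ) × ℂ => exL D N q.2 q.1 A := by
  simp only [exL_apply]
  refine continuous_finsetSum _ fun i _ => ?_
  exact ((continuous_snd.pow i).div_const _).mul ((cont _).comp continuous_fst)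

/-- the order of vanishing in the last variable, locally uniformly -/
def Oh (x0 : Fin n → ℂ) (N : ℕ) (E : (Fin n → ℂ) × ℂ → ℂ) : Prop :=
  E =O[𝓝 (x0, (0 : ℂ))] fun q => ‖q.2‖ ^ N

section Oh

variable {x0 : Fin n → ℂ} {N : ℕ} {E F : (Fin n → ℂ) × ℂ → ℂ}

theorem Oh.add (h1 : Oh x0 N E) (h2 : Oh x0 N F) : Oh x0 N fun q => E q + F q :=
  IsBigO.add h1 h2

theorem Oh.sub (h1 : Oh x0 N E) (h2 : Oh x0 N F) : Oh x0 N fun q => E q - F q :=
  IsBigO.sub h1 h2

theorem Oh.neg (h1 : Oh x0 N E) : Oh x0 N fun q => -E q :=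
  IsBigO.neg_left h1

theorem Oh.zero : Oh x0 N fun _ => 0 := isBigO_zero _ _

theorem Oh.sum {ι : Type*} {s : Finset ι} {E : ι → (Fin n → ℂ) × ℂ → ℂ}
    (h : ∀ i ∈ s, Oh x0 N (E i)) : Oh x0 N fun q => ∑ i ∈ s, E i q :=
  IsBigO.fun_sum h

theorem Oh.of_cont (h : Continuous E) : Oh x0 0 E := by
  unfold Oh
  simp only [pow_zero]
  exact (h.tendsto _).isBigO_one ℝ

theorem Oh.mul {M : ℕ} (h1 : Oh x0 N E) (h2 : Oh x0 M F) : Oh x0 (N + M) fun q => E q * F q := by
  unfold Oh at *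
  simp only [pow_add]
  exact IsBigO.mul h1 h2

theorem Oh.mul_cont (h1 : Oh x0 N E) (h2 : Continuous F) : Oh x0 N fun q => E q * F q := by
  simpa using Oh.mul h1 (Oh.of_cont (x0 := x0) h2)

theorem Oh.cont_mul (h1 : Oh x0 N E) (h2 : Continuous F) : Oh x0 N fun q => F q * E q := by
  simpa using Oh.mul (Oh.of_cont (x0 := x0) h2) h1

theorem Oh.mono {M : ℕ} (hMN : M ≤ N) (h : Oh x0 N E) : Oh x0 M E := by
  unfold Oh at *
  refine h.trans ?_
  refine IsBigO.of_bound 1 ?_
  have h1 : ∀ᶠ q : (Fin n → ℂ) × ℂ in 𝓝 (x0, (0 : ℂ)), ‖q.2‖ < 1 := by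
    have : Tendsto (fun q : (Fin n → ℂ) × ℂ => ‖q.2‖) (𝓝 (x0, (0 : ℂ))) (𝓝 ‖(0 : ℂ)‖) :=
      (continuous_snd.norm).tendsto _
    rw [norm_zero] at this
    exact this.eventually (gt_mem_nhds one_pos)
  filter_upwards [h1] with q hq
  rw [one_mul, norm_pow, norm_pow, norm_norm]
  exact pow_le_pow_of_le_one (norm_nonneg _) hq.le hMN

theorem Oh.pow_snd : Oh x0 N fun q => q.2 ^ N := by
  unfold Oh
  refine IsBigO.of_bound 1 (Eventually.of_forall fun q => ?_)
  rw [one_mul, norm_pow, norm_pow, norm_norm]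

theorem Oh.conj (h : Oh x0 N E) : Oh x0 N fun q => E (q.1, (starRingEnd ℂ) q.2) := by
  unfold Oh at *
  have ht : Tendsto (fun q : (Fin n → ℂ) × ℂ => (q.1, (starRingEnd ℂ) q.2)) (𝓝 (x0, (0 : ℂ)))
      (𝓝 (x0, (0 : ℂ))) := by
    have : Continuous fun q : (Fin n → ℂ) × ℂ => (q.1, (starRingEnd ℂ) q.2) :=
      continuous_fst.prodMk (continuous_conj.comp continuous_snd)
    have h2 := this.tendsto (x0, (0 : ℂ))
    simpa using h2
  have := h.comp_tendsto ht
  refine this.trans ?_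
  refine IsBigO.of_bound 1 (Eventually.of_forall fun q => ?_)
  simp

theorem Oh.congr (h : Oh x0 N E) (he : ∀ q, E q = F q) : Oh x0 N F := by
  have : E = F := funext he
  rwa [this] at h

end Oh

theorem radial {x0 : Fin n → ℂ} {N : ℕ} {E E1 E2 : (Fin n → ℂ) × ℂ → ℂ} (h0 : ∀ y, E (y, 0) = 0)
    (hd : ∀ y t (s : ℝ), HasDerivAt (fun s : ℝ => E (y, s * t))
      (t * E1 (y, s * t) + (starRingEnd ℂ) t * E2 (y, s * t)) s)
    (h1 : Oh x0 N E1) (h2 : Oh x0 N E2) : Oh x0 (N + 1) E := by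
  obtain ⟨C1, hC1, hb1⟩ := h1.exists_pos
  obtain ⟨C2, hC2, hb2⟩ := h2.exists_pos
  rw [IsBigOWith] at hb1 hb2
  have hb := hb1.and hb2
  rw [nhds_prod_eq, Filter.eventually_prod_iff] at hb
  obtain ⟨pa, hpa, pb, hpb, hab⟩ := hb
  obtain ⟨ε, hε, hball⟩ := Metric.eventually_nhds_iff.1 hpb
  have hev : ∀ᶠ q : (Fin n → ℂ) × ℂ in 𝓝 (x0, (0 : ℂ)), pa q.1 ∧ ‖q.2‖ < ε := by
    rw [nhds_prod_eq]
    refine (hpa.prod_mk (?_ : ∀ᶠ t : ℂ in 𝓝 0, ‖t‖ < ε))
    rw [Metric.eventually_nhds_iff]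
    exact ⟨ε, hε, fun {y} hy => by simpa using hy⟩
  refine IsBigO.of_bound (C1 + C2) ?_
  filter_upwards [hev] with q hq
  obtain ⟨y, t⟩ := q
  obtain ⟨hy, ht⟩ := hq
  simp only at hy ht ⊢
  have hbound : ∀ s ∈ Set.Icc (0 : ℝ) 1,
      ‖t * E1 (y, s * t) + (starRingEnd ℂ) t * E2 (y, s * t)‖ ≤ (C1 + C2) * ‖t‖ ^ (N + 1) := by
    intro s hs
    have hst : ‖(s : ℂ) * t‖ ≤ ‖t‖ := by
      rw [norm_mul, Complex.norm_real, Real.norm_eq_abs, abs_of_nonneg hs.1]
      exact mul_le_of_le_one_left (norm_nonneg _) hs.2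
    have hb := hab hy (hball (by simpa using hst.trans_lt ht) : pb ((s : ℂ) * t))
    simp only [norm_pow, norm_norm] at hb
    have e1 : ‖E1 (y, s * t)‖ ≤ C1 * ‖t‖ ^ N :=
      hb.1.trans (mul_le_mul_of_nonneg_left (pow_le_pow_left₀ (norm_nonneg _) hst N) hC1.le)
    have e2 : ‖E2 (y, s * t)‖ ≤ C2 * ‖t‖ ^ N :=
      hb.2.trans (mul_le_mul_of_nonneg_left (pow_le_pow_left₀ (norm_nonneg _) hst N) hC2.le)
    calc ‖t * E1 (y, s * t) + (starRingEnd ℂ) t * E2 (y, s * t)‖
        ≤ ‖t‖ * ‖E1 (y, s * t)‖ + ‖t‖ * ‖E2 (y, s * t)‖ := by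
          refine (norm_add_le _ _).trans ?_
          rw [norm_mul, norm_mul, RCLike.norm_conj]
      _ ≤ ‖t‖ * (C1 * ‖t‖ ^ N) + ‖t‖ * (C2 * ‖t‖ ^ N) :=
          add_le_add (mul_le_mul_of_nonneg_left e1 (norm_nonneg _))
            (mul_le_mul_of_nonneg_left e2 (norm_nonneg _))
      _ = (C1 + C2) * ‖t‖ ^ (N + 1) := by ring
  have := norm_image_sub_le_of_norm_deriv_le_segment_01'
    (f := fun s : ℝ => E (y, s * t))
    (f' := fun s : ℝ => t * E1 (y, s * t) + (starRingEnd ℂ) t * E2 (y, s * t))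
    (fun s _ => (hd y t s).hasDerivWithinAt) (fun s hs => hbound s ⟨hs.1, hs.2.le⟩)
  simp only [ofReal_one, one_mul, ofReal_zero, zero_mul, h0, sub_zero] at this
  simpa using this

theorem exL_succ_sub (x0 : Fin n → ℂ) (D : DD n) (N : ℕ) (A : Rn n) :
    Oh x0 N fun q => exL D (N + 1) q.2 q.1 A - exL D N q.2 q.1 A := by
  have : Oh x0 N fun q : (Fin n → ℂ) × ℂ => q.2 ^ N * (((N.factorial : ℂ))⁻¹ *
      ((((D : Rn n →ₗ[ℂ] Rn n) ^ N) A : Rn n) : (Fin n → ℂ) → ℂ) q.1) :=
    Oh.pow_snd.mul_cont (continuous_const.mul ((cont _).comp continuous_fst))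
  refine this.congr fun q => ?_
  rw [exL_succ]
  ring

theorem exL_mul (x0 : Fin n → ℂ) (D : DD n) (N : ℕ) (A B : Rn n) :
    Oh x0 N fun q => exL D N q.2 q.1 (A * B) - exL D N q.2 q.1 A * exL D N q.2 q.1 B := by
  induction N generalizing A B with
  | zero =>
    refine Oh.zero.congr fun q => ?_
    simp [exL_apply]
  | succ N ih =>
    apply radial (E1 := fun q => exL D N q.2 q.1 (D (A * B)) -
      (exL D N q.2 q.1 (D A) * exL D (N + 1) q.2 q.1 B + exL D (N + 1) q.2 q.1 A * exL D N q.2 q.1 (D B)))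
      (E2 := fun _ => 0)
    · intro y
      simp only [exL_zero]
      exact sub_self _
    · intro y t s
      have h1 := exL_deriv D N t y (A * B) s
      have h2 := (exL_deriv D N t y A s).fun_mul (exL_deriv D N t y B s)
      refine (h1.fun_sub h2).congr_deriv ?_
      ring
    · have e1 := ih A (D B)
      have e2 := ih B (D A)
      have e3 := (exL_succ_sub x0 D N B).cont_mul (cont_exL D N (D A))
      have e4 := (exL_succ_sub x0 D N A).mul_cont (cont_exL D N (D B))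
      refine (((e1.add e2).sub e3).sub e4).congr fun q => ?_
      rw [Derivation.leibniz, smul_eq_mul, smul_eq_mul, map_add]
      ring
    · exact Oh.zero

/-- the displaced point -/
noncomputable def yy (D : DD n) (N : ℕ) (t : ℂ) (y : Fin n → ℂ) : Fin n → ℂ :=
  fun j => exL D N t y (zc j)

theorem cont_yy (D : DD n) (N : ℕ) : Continuous fun q : (Fin n → ℂ) × ℂ => yy D N q.2 q.1 :=
  continuous_pi fun j => cont_exL D N (zc j)

theorem yy_zero (D : DD n) (N : ℕ) (y : Fin n → ℂ) : yy D (N + 1) 0 y = y := by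
  funext j
  exact exL_zero D N y (zc j)

/-- the value of a polarised function at the displaced point -/
noncomputable def GG (D : DD n) (N : ℕ) (t : ℂ) (y : Fin n → ℂ) : TT n →ₗ[ℂ] ℂ :=
  LinearMap.mul' ℂ ℂ ∘ₗ TensorProduct.map (exL D N t y)
    (LinearMap.mul' ℂ ℂ ∘ₗ TensorProduct.map (exL D N ((starRingEnd ℂ) t) y) (ev (yy D N t y)))

theorem GG_tmul (D : DD n) (N : ℕ) (t : ℂ) (y : Fin n → ℂ) (A B G : Rn n) :
    GG D N t y (A ⊗ₜ[ℂ] (B ⊗ₜ[ℂ] G)) = exL D N t y A * (exL D N ((starRingEnd ℂ) t) y B *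
      (G : (Fin n → ℂ) → ℂ) (yy D N t y)) := rfl

theorem cont_conj_exL (D : DD n) (N : ℕ) (A : Rn n) :
    Continuous fun q : (Fin n → ℂ) × ℂ => exL D N ((starRingEnd ℂ) q.2) q.1 A := by
  have h1 : Continuous fun q : (Fin n → ℂ) × ℂ => (q.1, (starRingEnd ℂ) q.2) :=
    continuous_fst.prodMk (continuous_conj.comp continuous_snd)
  have h2 := (cont_exL D N A).comp h1
  simpa only [Function.comp_def] using h2

theorem cont_GG (D : DD n) (N : ℕ) (τ : TT n) :
    Continuous fun q : (Fin n → ℂ) × ℂ => GG D N q.2 q.1 τ := by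
  induction τ using TensorProduct.induction_on with
  | zero => simp only [map_zero]; exact continuous_const
  | add x y hx hy => simp only [map_add]; exact hx.add hy
  | tmul A σ =>
    induction σ using TensorProduct.induction_on with
    | zero => simp only [TensorProduct.tmul_zero, map_zero]; exact continuous_const
    | add x y hx hy => simp only [TensorProduct.tmul_add, map_add]; exact hx.add hy
    | tmul B G =>
      simp only [GG_tmul]
      exact (cont_exL D N A).mul ((cont_conj_exL D N B).mul ((cont G).comp (cont_yy D N)))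

theorem fderiv_eq (G : Rn n) (y v : Fin n → ℂ) :
    fderiv ℝ (G : (Fin n → ℂ) → ℂ) y v = ∑ j, v j * (pd j G : (Fin n → ℂ) → ℂ) y +
      ∑ j, (starRingEnd ℂ) (v j) * (pdb j G : (Fin n → ℂ) → ℂ) y := by
  have hv : v = ∑ j, ((v j).re • (Pi.single j (1 : ℂ) : Fin n → ℂ) +
      (v j).im • (Pi.single j I : Fin n → ℂ)) := by
    funext k
    simp only [Finset.sum_apply, Pi.add_apply, Pi.smul_apply, Pi.single_apply, smul_ite, smul_zero,
      Finset.sum_add_distrib, Finset.sum_ite_eq, Finset.mem_univ, if_true]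
    simp [Complex.re_add_im]
  conv_lhs => rw [hv]
  rw [map_sum, ← Finset.sum_add_distrib]
  refine Finset.sum_congr rfl fun j _ => ?_
  rw [map_add, map_smul, map_smul, pd_apply, pdb_apply]
  simp only [Complex.real_smul]
  have e1 : v j = (v j).re + (v j).im * I := (Complex.re_add_im _).symm
  have e2 : (starRingEnd ℂ) (v j) = (v j).re - (v j).im * I := by
    conv_lhs => rw [e1]
    rw [map_add, map_mul, conj_ofReal, conj_ofReal, conj_I]; ring
  set P := fderiv ℝ (G : (Fin n → ℂ) → ℂ) y (Pi.single j 1) with hP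
  set Q := fderiv ℝ (G : (Fin n → ℂ) → ℂ) y (Pi.single j I) with hQ
  rw [e2]
  conv_rhs => rw [e1]
  have hI : I * I = -1 := I_mul_I
  have hI2 : I ^ 2 = -1 := I_sq
  simp only [add_re, ofReal_re, mul_re, I_re, mul_zero, ofReal_im, I_im, mul_one, sub_self, add_zero,
    add_im, mul_im, zero_add]
  ring_nf
  rw [hI2]
  ring

theorem real_apply {D : DD n} (hD : cjD D = D) (f : Rn n) : D (cj f) = cj (D f) := by
  have h1 : cjD D f = D f := by rw [hD]
  rw [cjD_apply] at h1
  rw [← h1, cj_cj]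

theorem conj_exL {D : DD n} (hD : cjD D = D) (N : ℕ) (t : ℂ) (y : Fin n → ℂ) (A : Rn n) :
    (starRingEnd ℂ) (exL D N t y A) = exL D N ((starRingEnd ℂ) t) y (cj A) := by
  rw [exL_apply, exL_apply, map_sum]
  refine Finset.sum_congr rfl fun i _ => ?_
  rw [map_mul, map_div₀, map_pow]
  have h1 : (starRingEnd ℂ) ((i.factorial : ℂ)) = i.factorial := by simp
  have h2 : ∀ i : ℕ, ((D : Rn n →ₗ[ℂ] Rn n) ^ i) (cj A) = cj (((D : Rn n →ₗ[ℂ] Rn n) ^ i) A) := by
    intro i
    induction i with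
    | zero => rfl
    | succ i ih =>
      rw [pow_succ', Module.End.mul_apply, Module.End.mul_apply, ih]
      exact real_apply hD _
  rw [h1, h2, cj_apply]

/-- the derivative of `GG` along rays -/
theorem GG_deriv (x0 : Fin n → ℂ) {D : DD n} (hD : cjD D = D) (N : ℕ) (τ : TT n) :
    ∃ R1 R2 : (Fin n → ℂ) × ℂ → ℂ, Oh x0 N R1 ∧ Oh x0 N R2 ∧
      ∀ y t (s : ℝ), HasDerivAt (fun s : ℝ => GG D (N + 1) (s * t) y τ)
        (t * (GG D (N + 1) (s * t) y (δ1 D τ) + R1 (y, s * t)) +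
          (starRingEnd ℂ) t * (GG D (N + 1) (s * t) y (δ2 D τ) + R2 (y, s * t))) s := by
  induction τ using TensorProduct.induction_on with
  | zero =>
    refine ⟨fun _ => 0, fun _ => 0, Oh.zero, Oh.zero, fun y t s => ?_⟩
    simp only [map_zero, add_zero, mul_zero]
    exact hasDerivAt_const _ _
  | add x z hx hz =>
    obtain ⟨R1, R2, h1, h2, h3⟩ := hx
    obtain ⟨S1, S2, g1, g2, g3⟩ := hz
    refine ⟨_, _, h1.add g1, h2.add g2, fun y t s => ?_⟩
    simp only [map_add]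
    refine ((h3 y t s).fun_add (g3 y t s)).congr_deriv ?_
    ring
  | tmul A σ =>
    induction σ using TensorProduct.induction_on with
    | zero =>
      refine ⟨fun _ => 0, fun _ => 0, Oh.zero, Oh.zero, fun y t s => ?_⟩
      simp only [TensorProduct.tmul_zero, map_zero, add_zero, mul_zero]
      exact hasDerivAt_const _ _
    | add x z hx hz =>
      obtain ⟨R1, R2, h1, h2, h3⟩ := hx
      obtain ⟨S1, S2, g1, g2, g3⟩ := hz
      refine ⟨_, _, h1.add g1, h2.add g2, fun y t s => ?_⟩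
      simp only [TensorProduct.tmul_add, map_add]
      refine ((h3 y t s).fun_add (g3 y t s)).congr_deriv ?_
      ring
    | tmul B G =>
      refine ⟨fun q => -(exL D (N + 1) q.2 q.1 (D A) - exL D N q.2 q.1 (D A)) *
          (exL D (N + 1) ((starRingEnd ℂ) q.2) q.1 B * (G : (Fin n → ℂ) → ℂ) (yy D (N + 1) q.2 q.1)) +
          ∑ j, (exL D N q.2 q.1 (D (zc j)) * exL D (N + 1) q.2 q.1 A -
            exL D (N + 1) q.2 q.1 (D (zc j) * A)) * (exL D (N + 1) ((starRingEnd ℂ) q.2) q.1 B *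
              (pd j G : (Fin n → ℂ) → ℂ) (yy D (N + 1) q.2 q.1)),
        fun q => exL D (N + 1) q.2 q.1 A *
          (-(exL D (N + 1) ((starRingEnd ℂ) q.2) q.1 (D B) - exL D N ((starRingEnd ℂ) q.2) q.1 (D B)) *
            (G : (Fin n → ℂ) → ℂ) (yy D (N + 1) q.2 q.1)) +
          ∑ j, exL D (N + 1) q.2 q.1 A * ((exL D N ((starRingEnd ℂ) q.2) q.1 (D (cj (zc j))) *
            exL D (N + 1) ((starRingEnd ℂ) q.2) q.1 B -
            exL D (N + 1) ((starRingEnd ℂ) q.2) q.1 (D (cj (zc j)) * B)) *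
              (pdb j G : (Fin n → ℂ) → ℂ) (yy D (N + 1) q.2 q.1)), ?_, ?_, ?_⟩
      · -- Oh R1
        have hcg : ∀ H : Rn n, Continuous fun q : (Fin n → ℂ) × ℂ =>
            exL D (N + 1) ((starRingEnd ℂ) q.2) q.1 B * (H : (Fin n → ℂ) → ℂ) (yy D (N + 1) q.2 q.1) :=
          fun H => (cont_conj_exL D (N + 1) B).mul ((cont H).comp (cont_yy D (N + 1)))
        refine Oh.add ?_ (Oh.sum fun j _ => ?_)
        · exact ((exL_succ_sub x0 D N (D A)).neg).mul_cont (hcg G)
        · refine Oh.mul_cont ?_ (hcg _)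
          have e1 := (exL_mul x0 D (N + 1) (D (zc j)) A).mono (Nat.le_succ N)
          have e2 := (exL_succ_sub x0 D N (D (zc j))).mul_cont (cont_exL D (N + 1) A)
          refine ((e1.neg).sub e2).congr fun q => ?_
          ring
      · -- Oh R2
        have hcg : ∀ H : Rn n, Continuous fun q : (Fin n → ℂ) × ℂ =>
            (H : (Fin n → ℂ) → ℂ) (yy D (N + 1) q.2 q.1) :=
          fun H => (cont H).comp (cont_yy D (N + 1))
        refine Oh.add ?_ (Oh.sum fun j _ => ?_)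
        · refine Oh.cont_mul ?_ (cont_exL D (N + 1) A)
          exact ((exL_succ_sub x0 D N (D B)).conj.neg).mul_cont (hcg G)
        · refine Oh.cont_mul ?_ (cont_exL D (N + 1) A)
          refine Oh.mul_cont ?_ (hcg _)
          have e1 := ((exL_mul x0 D (N + 1) (D (cj (zc j))) B).mono (Nat.le_succ N)).conj
          have e2 := ((exL_succ_sub x0 D N (D (cj (zc j)))).mul_cont (cont_exL D (N + 1) B)).conj
          refine ((e1.neg).sub e2).congr fun q => ?_
          ring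
      · intro y t s
        have hA := exL_deriv D N t y A s
        have hB0 := exL_deriv D N ((starRingEnd ℂ) t) y B s
        have hcs : ∀ s : ℝ, (starRingEnd ℂ) ((s : ℂ) * t) = s * (starRingEnd ℂ) t := by
          intro s; rw [map_mul, conj_ofReal]
        have hB : HasDerivAt (fun s : ℝ => exL D (N + 1) ((starRingEnd ℂ) (s * t)) y B)
            ((starRingEnd ℂ) t * exL D N ((starRingEnd ℂ) (s * t)) y (D B)) s := by
          simpa only [hcs] using hB0
        have hyy : HasDerivAt (fun s : ℝ => yy D (N + 1) (s * t) y)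
            (fun j => t * exL D N (s * t) y (D (zc j))) s :=
          hasDerivAt_pi.2 fun j => exL_deriv D N t y (zc j) s
        have hG : HasDerivAt (fun s : ℝ => (G : (Fin n → ℂ) → ℂ) (yy D (N + 1) (s * t) y))
            (fderiv ℝ (G : (Fin n → ℂ) → ℂ) (yy D (N + 1) (s * t) y)
              (fun j => t * exL D N (s * t) y (D (zc j)))) s :=
          ((diff G _).hasFDerivAt).comp_hasDerivAt s hyy
        have hall := hA.fun_mul (hB.fun_mul hG)
        simp only [GG_tmul]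
        refine hall.congr_deriv ?_
        rw [fderiv_eq, δ1_tmul, δ2_tmul]
        simp only [map_add, map_sum, GG_tmul]
        have hconj : ∀ j, (starRingEnd ℂ) (t * exL D N (s * t) y (D (zc j))) =
            (starRingEnd ℂ) t * exL D N ((starRingEnd ℂ) (s * t)) y (D (cj (zc j))) := by
          intro j
          rw [map_mul, conj_exL hD, real_apply hD]
        simp only [hconj]
        simp only [mul_add, Finset.mul_sum, sub_mul, mul_sub, Finset.sum_sub_distrib,
          Finset.sum_add_distrib, add_mul]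
        have s1 : ∑ j, exL D (N + 1) (s * t) y A * (exL D (N + 1) ((starRingEnd ℂ) (s * t)) y B *
            (t * exL D N (s * t) y (D (zc j)) * (pd j G : (Fin n → ℂ) → ℂ) (yy D (N + 1) (s * t) y))) =
          ∑ j, t * (exL D N (s * t) y (D (zc j)) * exL D (N + 1) (s * t) y A *
            (exL D (N + 1) ((starRingEnd ℂ) (s * t)) y B *
              (pd j G : (Fin n → ℂ) → ℂ) (yy D (N + 1) (s * t) y))) :=
          Finset.sum_congr rfl fun j _ => by ring
        have s2 : ∑ j, exL D (N + 1) (s * t) y A * (exL D (N + 1) ((starRingEnd ℂ) (s * t)) y B *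
            ((starRingEnd ℂ) t * exL D N ((starRingEnd ℂ) (s * t)) y (D (cj (zc j))) *
              (pdb j G : (Fin n → ℂ) → ℂ) (yy D (N + 1) (s * t) y))) =
          ∑ j, (starRingEnd ℂ) t * (exL D (N + 1) (s * t) y A *
            (exL D N ((starRingEnd ℂ) (s * t)) y (D (cj (zc j))) *
              exL D (N + 1) ((starRingEnd ℂ) (s * t)) y B *
              (pdb j G : (Fin n → ℂ) → ℂ) (yy D (N + 1) (s * t) y))) :=
          Finset.sum_congr rfl fun j _ => by ring
        rw [s1, s2]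
        ring

/-- the homogeneous components of the Taylor expansion -/
noncomputable def HH (D : DD n) (m : ℕ) (t : ℂ) (y : Fin n → ℂ) (τ : TT n) : ℂ :=
  ((m.factorial : ℂ))⁻¹ * ev y (mu (((t • δ1 D + (starRingEnd ℂ) t • δ2 D) ^ m) τ))

theorem HH_real (D : DD n) (m : ℕ) (s : ℝ) (t : ℂ) (y : Fin n → ℂ) (τ : TT n) :
    HH D m (s * t) y τ = (s : ℂ) ^ m * HH D m t y τ := by
  have : ((s : ℂ) * t) • δ1 D + (starRingEnd ℂ) ((s : ℂ) * t) • δ2 D =
      (s : ℂ) • (t • δ1 D + (starRingEnd ℂ) t • δ2 D) := by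
    rw [map_mul, conj_ofReal, smul_add, smul_smul, smul_smul]
  rw [HH, HH, this, smul_pow, LinearMap.smul_apply, map_smul, map_smul, smul_eq_mul]
  ring

theorem HH_succ (D : DD n) (m : ℕ) (t : ℂ) (y : Fin n → ℂ) (τ : TT n) :
    (m + 1 : ℂ) * HH D (m + 1) t y τ = t * HH D m t y (δ1 D τ) + (starRingEnd ℂ) t * HH D m t y (δ2 D τ) := by
  rw [HH, HH, HH, pow_succ, Module.End.mul_apply, LinearMap.add_apply, LinearMap.smul_apply,
    LinearMap.smul_apply, map_add, map_smul, map_smul, map_add, map_smul, map_smul, map_add, map_smul,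
    map_smul, smul_eq_mul, smul_eq_mul, Nat.factorial_succ]
  push_cast
  have h1 : ((m : ℂ) + 1) ≠ 0 := by exact_mod_cast Nat.succ_ne_zero m
  have h2 : (m.factorial : ℂ) ≠ 0 := by exact_mod_cast Nat.factorial_ne_zero m
  field_simp

theorem HH_zero (D : DD n) (t : ℂ) (y : Fin n → ℂ) (τ : TT n) :
    HH D 0 t y τ = (mu τ : (Fin n → ℂ) → ℂ) y := by
  simp [HH, ev_apply]

theorem HH_deriv (D : DD n) (m : ℕ) (t : ℂ) (y : Fin n → ℂ) (τ : TT n) (s : ℝ) :
    HasDerivAt (fun s : ℝ => HH D (m + 1) (s * t) y τ)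
      (t * HH D m (s * t) y (δ1 D τ) + (starRingEnd ℂ) t * HH D m (s * t) y (δ2 D τ)) s := by
  have h1 : (fun s : ℝ => HH D (m + 1) (s * t) y τ) = fun s : ℝ => (s : ℂ) ^ (m + 1) * HH D (m + 1) t y τ :=
    funext fun s => HH_real D (m + 1) s t y τ
  rw [h1, HH_real, HH_real]
  have h2 : HasDerivAt (fun s : ℝ => (s : ℂ)) 1 s := Complex.ofRealCLM.hasDerivAt (x := s)
  have h3 := (h2.fun_pow (m + 1)).mul_const (HH D (m + 1) t y τ)
  refine h3.congr_deriv ?_
  have := HH_succ D m t y τ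
  push_cast
  linear_combination ((s : ℂ) ^ m) * this

theorem mu_GG_zero (D : DD n) (N : ℕ) (y : Fin n → ℂ) (τ : TT n) :
    GG D (N + 1) 0 y τ = (mu τ : (Fin n → ℂ) → ℂ) y := by
  induction τ using TensorProduct.induction_on with
  | zero => simp
  | add x z hx hz => rw [map_add, map_add, hx, hz]; rfl
  | tmul A σ =>
    induction σ using TensorProduct.induction_on with
    | zero => simp
    | add x z hx hz => rw [TensorProduct.tmul_add, map_add, map_add, hx, hz]; rfl
    | tmul B G =>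
      rw [GG_tmul, map_zero, exL_zero, exL_zero, yy_zero, mu_tmul]
      rfl

/-- Taylor expansion of a polarised function at the displaced points -/
theorem GG_taylor (x0 : Fin n → ℂ) {D : DD n} (hD : cjD D = D) (N : ℕ) (K : ℕ) (hK : K ≤ N + 1) :
    ∀ τ : TT n, Oh x0 K fun q => GG D (N + 1) q.2 q.1 τ - ∑ m ∈ Finset.range K, HH D m q.2 q.1 τ := by
  induction K with
  | zero =>
    intro τ
    simp only [Finset.range_zero, Finset.sum_empty, sub_zero]
    exact Oh.of_cont (cont_GG D (N + 1) τ)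
  | succ K ih =>
    intro τ
    obtain ⟨R1, R2, hR1, hR2, hR⟩ := GG_deriv x0 hD N τ
    have ih := ih (by omega)
    apply radial (E1 := fun q => (GG D (N + 1) q.2 q.1 (δ1 D τ) + R1 q) -
        ∑ m ∈ Finset.range K, HH D m q.2 q.1 (δ1 D τ))
      (E2 := fun q => (GG D (N + 1) q.2 q.1 (δ2 D τ) + R2 q) -
        ∑ m ∈ Finset.range K, HH D m q.2 q.1 (δ2 D τ))
    · intro y
      simp only
      rw [mu_GG_zero, Finset.sum_range_succ']
      have : ∀ m, HH D (m + 1) 0 y τ = 0 := by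
        intro m
        have := HH_real D (m + 1) 0 0 y τ
        simpa using this
      simp only [this, Finset.sum_const_zero, zero_add, HH_zero, sub_self]
    · intro y t s
      have h1 := hR y t s
      have h2 : HasDerivAt (fun s : ℝ => ∑ m ∈ Finset.range K, HH D (m + 1) (s * t) y τ)
          (∑ m ∈ Finset.range K, (t * HH D m (s * t) y (δ1 D τ) +
            (starRingEnd ℂ) t * HH D m (s * t) y (δ2 D τ))) s :=
        HasDerivAt.fun_sum fun m _ => HH_deriv D m t y τ s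
      have h3 := h1.fun_sub (h2.add_const (HH D 0 0 y τ))
      have e : (fun s : ℝ => GG D (N + 1) (s * t) y τ -
          ∑ m ∈ Finset.range (K + 1), HH D m (s * t) y τ) =
          (fun s : ℝ => GG D (N + 1) (s * t) y τ -
            ((∑ m ∈ Finset.range K, HH D (m + 1) (s * t) y τ) + HH D 0 0 y τ)) := by
        funext s
        rw [Finset.sum_range_succ', HH_zero, HH_zero]
      show HasDerivAt (fun s : ℝ => GG D (N + 1) (s * t) y τ -
          ∑ m ∈ Finset.range (K + 1), HH D m (s * t) y τ) _ s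
      rw [e]
      refine h3.congr_deriv ?_
      simp only [Finset.sum_add_distrib, Finset.mul_sum, mul_sub, mul_add]
      ring
    · have := (ih (δ1 D τ)).add (hR1.mono (by omega : K ≤ N))
      refine this.congr fun q => ?_
      ring
    · have := (ih (δ2 D τ)).add (hR2.mono (by omega : K ≤ N))
      refine this.congr fun q => ?_
      ring

end Pool.Agent.V7H87.KD
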