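import Mathlib
import Pool.Agent.V7H87.KD.Rep
import Pool.Agent.V7H87.KD.Levi

set_option autoImplicit false

open Filter Topology Asymptotics Complex
open scoped ContDiff ComplexConjugate

namespace Pool.Agent.V7H87.KD

variable {n : ℕ}

/-- the coefficients of `∂r` -/
noncomputable def rl (r : Rn n) (y : Fin n → ℂ) : Fin n → ℂ := fun j => (pd j r : (Fin n → ℂ) → ℂ) y

/-- the coefficients of `∂∂̄r` -/
noncomputable def rm (r : Rn n) (y : Fin n → ℂ) : Fin n → Fin n → ℂ :=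
  fun j k => (pd j (pdb k r) : (Fin n → ℂ) → ℂ) y

theorem contDiff_rl (r : Rn n) : ContDiff ℝ ∞ (rl r) := contDiff_pi' fun j => smooth (pd j r)

theorem contDiff_rm (r : Rn n) : ContDiff ℝ ∞ (rm r) :=
  contDiff_pi' fun j => contDiff_pi' fun k => smooth (pd j (pdb k r))

theorem fderiv_real (r : (Fin n → ℂ) → ℝ) (hr : ContDiff ℝ ∞ r) (rr : Rn n)
    (hrr : ∀ y, (rr : (Fin n → ℂ) → ℂ) y = r y) (x v : Fin n → ℂ) :
    fderiv ℝ (rr : (Fin n → ℂ) → ℂ) x v = ((fderiv ℝ r x v : ℝ) : ℂ) := by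
  have h1 : (rr : (Fin n → ℂ) → ℂ) = fun y => Complex.ofRealCLM (r y) := funext fun y => hrr y
  have h2 : HasFDerivAt r (fderiv ℝ r x) x := ((hr.differentiable (by simp)) x).hasFDerivAt
  have h3 : HasFDerivAt (fun y => Complex.ofRealCLM (r y)) (Complex.ofRealCLM ∘L fderiv ℝ r x) x :=
    Complex.ofRealCLM.hasFDerivAt.comp x h2
  rw [h1, h3.fderiv]
  rfl

theorem cj_real (r : (Fin n → ℂ) → ℝ) (rr : Rn n)
    (hrr : ∀ y, (rr : (Fin n → ℂ) → ℂ) y = r y) : cj rr = rr := by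
  ext y
  rw [cj_apply, hrr, conj_ofReal]

theorem exists_rl_ne (r : (Fin n → ℂ) → ℝ) (hr : ContDiff ℝ ∞ r) (rr : Rn n)
    (hrr : ∀ y, (rr : (Fin n → ℂ) → ℂ) y = r y) (x : Fin n → ℂ) (hd : fderiv ℝ r x ≠ 0) :
    ∃ j, rl rr x j ≠ 0 := by
  by_contra hcon
  push Not at hcon
  apply hd
  ext v
  have h1 := fderiv_real r hr rr hrr x v
  rw [fderiv_eq] at h1
  have h2 : ∀ j, (pd j rr : (Fin n → ℂ) → ℂ) x = 0 := hcon
  have h3 : ∀ j, (pdb j rr : (Fin n → ℂ) → ℂ) x = 0 := by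
    intro j
    rw [← cj_real r rr hrr, pdb_cj, cj_apply, h2, map_zero]
  simp only [h2, h3, mul_zero, Finset.sum_const_zero, add_zero] at h1
  show fderiv ℝ r x v = 0
  exact_mod_cast h1.symm

theorem levi_ineq (r : (Fin n → ℂ) → ℝ) (hr : ContDiff ℝ ∞ r) (rr : Rn n)
    (hrr : ∀ y, (rr : (Fin n → ℂ) → ℂ) y = r y) (x0 : Fin n → ℂ) (hx0 : r x0 = 0)
    (hd : fderiv ℝ r x0 ≠ 0)
    (hL : ∀ᶠ y in 𝓝 x0, r y = 0 → ∀ w, linf (rl rr y) w = 0 → 0 ≤ (sesq (rm rr y) w w).re) :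
    ∃ C : ℝ, 0 ≤ C ∧ ∀ᶠ y in 𝓝 x0, ∀ w,
      -(C * (|r y| * ‖w‖ ^ 2 + ‖linf (rl rr y) w‖ * ‖w‖)) ≤ (sesq (rm rr y) w w).re := by
  obtain ⟨j, hj⟩ := exists_rl_ne r hr rr hrr x0 hd
  obtain ⟨K0, hK0, hproj⟩ := exists_proj r hr x0 hx0 hd
  obtain ⟨K1, t1, ht1, hl1⟩ := ((contDiff_rl rr).contDiffAt (x := x0)).of_le
    (by exact_mod_cast le_top : (1 : WithTop ℕ∞) ≤ ∞) |>.exists_lipschitzOnWith
  obtain ⟨K2, t2, ht2, hl2⟩ := ((contDiff_rm rr).contDiffAt (x := x0)).of_le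
    (by exact_mod_cast le_top : (1 : WithTop ℕ∞) ≤ ∞) |>.exists_lipschitzOnWith
  set c := ‖rl rr x0 j‖ / 2 with hc
  have hc0 : 0 < c := by
    have : 0 < ‖rl rr x0 j‖ := norm_pos_iff.2 hj
    positivity
  set B := ‖rl rr x0‖ + ‖rm rr x0‖ + 1 with hB
  have hB0 : 0 ≤ B := by positivity
  set K : ℝ := (K1 + K2) * K0 with hK
  have hKn : 0 ≤ K := by positivity
  have crl : Continuous (rl rr) := (contDiff_rl rr).continuous
  have crm : Continuous (rm rr) := (contDiff_rm rr).continuous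
  -- the good neighbourhood
  have hV : ∀ᶠ z in 𝓝 x0, z ∈ t1 ∧ z ∈ t2 ∧ ‖rm rr z‖ ≤ B ∧ ‖rl rr z‖ ≤ B ∧ c ≤ ‖rl rr z j‖ ∧
      (r z = 0 → ∀ w, linf (rl rr z) w = 0 → 0 ≤ (sesq (rm rr z) w w).re) := by
    have e1 : ∀ᶠ z in 𝓝 x0, ‖rm rr z‖ < B :=
      (crm.norm.tendsto x0).eventually (gt_mem_nhds (by
        rw [hB]
        have := norm_nonneg (rl rr x0)
        linarith))
    have e2 : ∀ᶠ z in 𝓝 x0, ‖rl rr z‖ < B :=
      (crl.norm.tendsto x0).eventually (gt_mem_nhds (by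
        rw [hB]
        have := norm_nonneg (rm rr x0)
        linarith))
    have e3 : ∀ᶠ z in 𝓝 x0, c < ‖rl rr z j‖ := by
      have h1 : Continuous fun z => ‖rl rr z j‖ := ((continuous_apply j).comp crl).norm
      refine (h1.tendsto x0).eventually (lt_mem_nhds ?_)
      have : 0 < ‖rl rr x0 j‖ := norm_pos_iff.2 hj
      rw [hc]
      linarith
    filter_upwards [ht1, ht2, e1, e2, e3, hL] with z a1 a2 a3 a4 a5 a6
    exact ⟨a1, a2, a3.le, a4.le, a5.le, a6⟩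
  obtain ⟨δ, hδ, hball⟩ := Metric.eventually_nhds_iff.1 hV
  have hnear : ∀ᶠ y in 𝓝 x0, ‖y - x0‖ + K0 * |r y| < δ := by
    have h1 : Continuous fun y => ‖y - x0‖ + K0 * |r y| :=
      ((continuous_id.sub continuous_const).norm).add (continuous_const.mul hr.continuous.abs)
    refine (h1.tendsto x0).eventually (gt_mem_nhds ?_)
    simpa [hx0] using hδ
  refine ⟨n * n * K + n * n * B * (1 + (1 + n * B / c)) * (n * K + 1) / c, ?_, ?_⟩
  rotate_left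
  · filter_upwards [hproj, hnear] with y hy1 hy2 w
    obtain ⟨z, hz0, hzy⟩ := hy1
    have hyd : dist y x0 < δ := by
      rw [dist_eq_norm]
      have : 0 ≤ K0 * |r y| := by positivity
      linarith
    have hzd : dist z x0 < δ := by
      rw [dist_eq_norm]
      have : z - x0 = (z - y) + (y - x0) := by abel
      rw [this]
      refine (norm_add_le _ _).trans_lt ?_
      linarith
    obtain ⟨a1, a2, a3, a4, a5, a6⟩ := hball hzd
    obtain ⟨b1, b2, -⟩ := hball hyd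
    have l1 : ‖rl rr y - rl rr z‖ ≤ K * |r y| := by
      have := hl1.dist_le_mul y b1 z a1
      rw [dist_eq_norm, dist_eq_norm, norm_sub_rev y z] at this
      refine this.trans ?_
      have h1 : (K1 : ℝ) * ‖z - y‖ ≤ K1 * (K0 * |r y|) := by gcongr
      have h2 : 0 ≤ (K2 : ℝ) * K0 * |r y| := by positivity
      rw [hK]
      nlinarith
    have l2 : ‖rm rr y - rm rr z‖ ≤ K * |r y| := by
      have := hl2.dist_le_mul y b2 z a2
      rw [dist_eq_norm, dist_eq_norm, norm_sub_rev y z] at this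
      refine this.trans ?_
      have h1 : (K2 : ℝ) * ‖z - y‖ ≤ K2 * (K0 * |r y|) := by gcongr
      have h2 : 0 ≤ (K1 : ℝ) * K0 * |r y| := by positivity
      rw [hK]
      nlinarith
    exact levi_alg hc0 hB0 hKn (abs_nonneg _) a3 a4 a5 l2 l1 (a6 hz0) w
  · positivity

/-- smallness modulo an ideal -/
def PS (p : Ideal (Rn n)) (F : (Fin n → ℂ) → ℝ) : Prop :=
  ∃ h ∈ p, ∀ y, 0 ≤ F y ∧ ∃ c : ℝ, (h : (Fin n → ℂ) → ℂ) y = c ∧ F y ^ 2 ≤ c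

section PS

variable {p : Ideal (Rn n)} {F G : (Fin n → ℂ) → ℝ}

theorem PS.nonneg (h : PS p F) (y : Fin n → ℂ) : 0 ≤ F y := by
  obtain ⟨h, -, hF⟩ := h
  exact (hF y).1

theorem PS.zero : PS p fun _ => 0 := ⟨0, p.zero_mem, fun y => ⟨le_refl _, 0, by simp, by simp⟩⟩

theorem PS.add (hF : PS p F) (hG : PS p G) : PS p fun y => F y + G y := by
  obtain ⟨f, hf, hF⟩ := hF
  obtain ⟨g, hg, hG⟩ := hG
  refine ⟨2 * f + 2 * g, p.add_mem (p.mul_mem_left _ hf) (p.mul_mem_left _ hg), fun y => ?_⟩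
  obtain ⟨f0, c, hc, hfc⟩ := hF y
  obtain ⟨g0, d, hd, hgd⟩ := hG y
  refine ⟨add_nonneg f0 g0, 2 * c + 2 * d, ?_, ?_⟩
  · have : ((2 * f + 2 * g : Rn n) : (Fin n → ℂ) → ℂ) y =
        2 * (f : (Fin n → ℂ) → ℂ) y + 2 * (g : (Fin n → ℂ) → ℂ) y := rfl
    rw [this, hc, hd]
    push_cast
    ring
  · nlinarith [sq_nonneg (F y - G y)]

theorem PS.const_mul (hF : PS p F) {C : ℝ} (hC : 0 ≤ C) : PS p fun y => C * F y := by
  obtain ⟨f, hf, hF⟩ := hF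
  refine ⟨algebraMap ℂ (Rn n) ((C : ℂ) ^ 2) * f, p.mul_mem_left _ hf, fun y => ?_⟩
  obtain ⟨f0, c, hc, hfc⟩ := hF y
  refine ⟨mul_nonneg hC f0, C ^ 2 * c, ?_, ?_⟩
  · have : ((algebraMap ℂ (Rn n) ((C : ℂ) ^ 2) * f : Rn n) : (Fin n → ℂ) → ℂ) y =
        (C : ℂ) ^ 2 * (f : (Fin n → ℂ) → ℂ) y := rfl
    rw [this, hc]
    push_cast
    ring
  · nlinarith [sq_nonneg C]

theorem PS.norm {f : Rn n} (hf : f ∈ p) : PS p fun y => ‖(f : (Fin n → ℂ) → ℂ) y‖ := by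
  refine ⟨cj f * f, p.mul_mem_left _ hf, fun y => ⟨norm_nonneg _, ‖(f : (Fin n → ℂ) → ℂ) y‖ ^ 2, ?_,
    le_refl _⟩⟩
  have : ((cj f * f : Rn n) : (Fin n → ℂ) → ℂ) y =
      (starRingEnd ℂ) ((f : (Fin n → ℂ) → ℂ) y) * (f : (Fin n → ℂ) → ℂ) y := rfl
  rw [this, mul_comm, Complex.mul_conj, Complex.normSq_eq_norm_sq]

theorem PS.sum {ι : Type*} {s : Finset ι} {F : ι → (Fin n → ℂ) → ℝ} (h : ∀ i ∈ s, PS p (F i)) :
    PS p fun y => ∑ i ∈ s, F i y := by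
  classical
  induction s using Finset.induction_on with
  | empty => simpa using PS.zero
  | insert b s hb ih =>
    simp only [Finset.sum_insert hb]
    exact (h b (Finset.mem_insert_self b s)).add (ih fun i hi => h i (Finset.mem_insert_of_mem hi))

end PS

/-- the radical property -/
def RadP (x0 : Fin n → ℂ) (p : Ideal (Rn n)) : Prop :=
  ∀ g f : Rn n, f ∈ p → ∀ m : ℕ, 1 ≤ m →
    (∀ᶠ y in 𝓝 x0, ‖(g : (Fin n → ℂ) → ℂ) y‖ ^ m ≤ ‖(f : (Fin n → ℂ) → ℂ) y‖) → g ∈ p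

theorem mem_of_PS {x0 : Fin n → ℂ} {p : Ideal (Rn n)} (hp : RadP x0 p) {g : Rn n}
    {F : (Fin n → ℂ) → ℝ} (hF : PS p F) {m : ℕ} (hm : 1 ≤ m)
    (h : ∀ᶠ y in 𝓝 x0, ‖(g : (Fin n → ℂ) → ℂ) y‖ ^ m ≤ F y) : g ∈ p := by
  obtain ⟨f, hf, hF⟩ := hF
  refine hp g f hf (m * 2) (by omega) ?_
  filter_upwards [h] with y hy
  obtain ⟨f0, c, hc, hfc⟩ := hF y
  rw [hc, Complex.norm_real, Real.norm_eq_abs, pow_mul]
  refine le_trans ?_ (le_abs_self c)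
  refine le_trans ?_ hfc
  exact pow_le_pow_left₀ (by positivity) hy 2

/-- the vanishing lemma -/
theorem mem_of_small {x0 : Fin n → ℂ} {p : Ideal (Rn n)} (hp : RadP x0 p) {g : Rn n}
    {F : (Fin n → ℂ) → ℝ} (hF : PS p F) (N : ℕ) (C : ℝ) (hC : 0 ≤ C)
    (h : ∀ᶠ q : (Fin n → ℂ) × ℝ in 𝓝 (x0, (0 : ℝ)), 0 ≤ q.2 →
      ‖(g : (Fin n → ℂ) → ℂ) q.1‖ * q.2 ^ N ≤ C * (q.2 ^ (N + 1) + F q.1)) : g ∈ p := by
  rw [nhds_prod_eq, Filter.eventually_prod_iff] at h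
  obtain ⟨pa, hpa, pb, hpb, hab⟩ := h
  obtain ⟨δ, hδ, hball⟩ := Metric.eventually_nhds_iff.1 hpb
  set B := ‖(g : (Fin n → ℂ) → ℂ) x0‖ + 1 with hB
  have hB0 : 0 < B := by positivity
  have hgB : ∀ᶠ y in 𝓝 x0, ‖(g : (Fin n → ℂ) → ℂ) y‖ < B :=
    ((cont g).norm.tendsto x0).eventually (gt_mem_nhds (by rw [hB]; linarith))
  set ε : ℝ := min (δ / (2 * B)) (1 / (2 * C + 1)) with hε
  have hε0 : 0 < ε := by positivity
  have hε1 : ε * B < δ := by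
    have : ε ≤ δ / (2 * B) := min_le_left _ _
    calc ε * B ≤ δ / (2 * B) * B := by gcongr
      _ = δ / 2 := by field_simp
      _ < δ := by linarith
  have hε2 : C * ε ≤ 1 / 2 := by
    have : ε ≤ 1 / (2 * C + 1) := min_le_right _ _
    calc C * ε ≤ C * (1 / (2 * C + 1)) := by gcongr
      _ ≤ 1 / 2 := by
        rw [mul_one_div, div_le_div_iff₀ (by positivity) (by positivity)]
        linarith
  refine mem_of_PS hp (hF.const_mul (C := 2 * C / ε ^ N) (by positivity)) (m := N + 1) (by omega) ?_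
  filter_upwards [hpa, hgB] with y hy1 hy2
  set G := ‖(g : (Fin n → ℂ) → ℂ) y‖ with hG
  have hG0 : 0 ≤ G := norm_nonneg _
  have hεG : ε * G < δ := by
    calc ε * G ≤ ε * B := by gcongr
      _ < δ := hε1
  have hσ : pb (ε * G) := by
    apply hball
    rw [Real.dist_eq, sub_zero, abs_of_nonneg (by positivity)]
    exact hεG
  have key := hab hy1 hσ (by positivity)
  simp only at key
  rw [mul_pow, mul_pow] at key
  rw [div_mul_eq_mul_div, le_div_iff₀ (by positivity)]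
  have e1 : G * (ε ^ N * G ^ N) = ε ^ N * G ^ (N + 1) := by ring
  rw [e1] at key
  have e2 : C * (ε ^ (N + 1) * G ^ (N + 1) + F y) = (C * ε) * (ε ^ N * G ^ (N + 1)) + C * F y := by ring
  rw [e2] at key
  have e3 : (C * ε) * (ε ^ N * G ^ (N + 1)) ≤ 1 / 2 * (ε ^ N * G ^ (N + 1)) := by gcongr
  nlinarith

/-- the displaced vectors -/
noncomputable def ww (D : DD n) (N : ℕ) (E : DD n) (t : ℂ) (y : Fin n → ℂ) : Fin n → ℂ :=
  fun j => exL D N t y (E (zc j))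

theorem cont_ww (D : DD n) (N : ℕ) (E : DD n) :
    Continuous fun q : (Fin n → ℂ) × ℂ => ww D N E q.2 q.1 :=
  continuous_pi fun j => cont_exL D N (E (zc j))

theorem GG_psi (D : DD n) (N : ℕ) (t : ℂ) (y : Fin n → ℂ) (rr : Rn n) :
    GG D (N + 1) t y (psi rr) = (rr : (Fin n → ℂ) → ℂ) (yy D (N + 1) t y) := by
  rw [psi, GG_tmul, exL_one, exL_one, one_mul, one_mul]

theorem GG_d1 (D : DD n) (N : ℕ) (E : DD n) (t : ℂ) (y : Fin n → ℂ) (rr : Rn n) :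
    GG D (N + 1) t y (δ1 E (psi rr)) = linf (rl rr (yy D (N + 1) t y)) (ww D (N + 1) E t y) := by
  rw [δ1_psi, map_sum, linf]
  refine Finset.sum_congr rfl fun j _ => ?_
  rw [GG_tmul, exL_one, one_mul]
  rfl

theorem GG_levi {D : DD n} (hD : cjD D = D) (N : ℕ) (E E' : DD n) (t : ℂ) (y : Fin n → ℂ) (rr : Rn n) :
    GG D N t y (δ1 E (δ2 (cjD E') (psi rr))) =
      sesq (rm rr (yy D N t y)) (ww D N E t y) (ww D N E' t y) := by
  rw [δ12_psi, map_sum, sesq, Finset.sum_comm]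
  refine Finset.sum_congr rfl fun k _ => ?_
  rw [map_sum]
  refine Finset.sum_congr rfl fun j _ => ?_
  rw [GG_tmul, cjD_apply, cj_cj, ← conj_exL hD]
  show _ = exL D N t y (E (zc j)) * (starRingEnd ℂ) (exL D N t y (E' (zc k))) * _
  rw [mul_assoc]
  rfl

theorem sesq_conj {rr : Rn n} (hrr : cj rr = rr) (y w w' : Fin n → ℂ) :
    (starRingEnd ℂ) (sesq (rm rr y) w w') = sesq (rm rr y) w' w := by
  rw [sesq, sesq, map_sum, Finset.sum_comm]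
  refine Finset.sum_congr rfl fun j _ => ?_
  rw [map_sum]
  refine Finset.sum_congr rfl fun k _ => ?_
  rw [map_mul, map_mul, Complex.conj_conj]
  have : (starRingEnd ℂ) (rm rr y j k) = rm rr y k j := by
    show (starRingEnd ℂ) ((pd j (pdb k rr) : (Fin n → ℂ) → ℂ) y) = (pd k (pdb j rr) : (Fin n → ℂ) → ℂ) y
    rw [← cj_apply, ← pdb_cj, ← pd_cj, hrr, pd_pdb]
  rw [this]
  ring

/-- the embedding of the imaginary direction -/
theorem tendsto_im (x0 : Fin n → ℂ) :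
    Tendsto (fun q : (Fin n → ℂ) × ℝ => (q.1, I * (q.2 : ℂ))) (𝓝 (x0, (0 : ℝ))) (𝓝 (x0, (0 : ℂ))) := by
  have : Continuous fun q : (Fin n → ℂ) × ℝ => (q.1, I * (q.2 : ℂ)) :=
    continuous_fst.prodMk (continuous_const.mul (Complex.continuous_ofReal.comp continuous_snd))
  have h := this.tendsto (x0, (0 : ℝ))
  simpa using h

theorem HH_im (D : DD n) (m : ℕ) (ρ : ℝ) (y : Fin n → ℂ) (τ : TT n) :
    HH D m (I * ρ) y τ = (I * ρ) ^ m * (((m.factorial : ℂ))⁻¹ *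
      (mu (((δ1 D + (-1 : ℂ) • δ2 D) ^ m) τ) : (Fin n → ℂ) → ℂ) y) := by
  have : (I * (ρ : ℂ)) • δ1 D + (starRingEnd ℂ) (I * (ρ : ℂ)) • δ2 D = (I * (ρ : ℂ)) • (δ1 D + (-1 : ℂ) • δ2 D) := by
    rw [map_mul, conj_ofReal, conj_I]
    module
  rw [HH, this, smul_pow, LinearMap.smul_apply, map_smul, map_smul, smul_eq_mul, ev_apply]
  ring

section main

variable (a : Fin n → Rn n) (p : Ideal (Rn n)) (hcj : ∀ f ∈ p, cj f ∈ p)
    (ha : ∀ f ∈ p, ∑ j, a j * pd j f ∈ p)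

/-- the leading term in an imaginary direction -/
theorem lead (x0 : Fin n → ℂ) {D : DD n} (hD : cjD D = D) (hDg : D ∈ gZ a) (N m : ℕ) (hmN : m ≤ N)
    {τ : TT n} (hτ : τ ∈ (mkPol a p hcj ha).Van m) :
    ∃ C : ℝ, 0 ≤ C ∧ ∃ F, PS p F ∧ ∀ᶠ q : (Fin n → ℂ) × ℝ in 𝓝 (x0, (0 : ℝ)),
      ‖GG D (N + 1) (I * q.2) q.1 τ - (I * q.2) ^ m * (((m.factorial : ℂ))⁻¹ * 2 ^ m *
        (mu (((δ1 D) ^ m) τ) : (Fin n → ℂ) → ℂ) q.1)‖ ≤ C * |q.2| ^ (m + 1) + F q.1 := by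
  set W := mkPol a p hcj ha with hW
  have h1 := GG_taylor x0 hD N (m + 1) (by omega) τ
  obtain ⟨C, hC, hb⟩ := h1.exists_pos
  rw [IsBigOWith] at hb
  have hb2 := (tendsto_im x0).eventually hb
  obtain ⟨κ, hκ, hκe⟩ := W.van_lead hDg hτ
  have hP : mu κ ∈ p := (mem_mkPol_P a p hcj ha _).1 hκ
  have hκe' : mu (((δ1 D + (-1 : ℂ) • δ2 D) ^ m) τ) = (2 : ℂ) ^ m • mu (((δ1 D) ^ m) τ) + mu κ := by
    rw [← map_smul, ← map_add]
    exact congrArg mu hκe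
  have hPi : ∀ i < m, mu (((δ1 D + (-1 : ℂ) • δ2 D) ^ i) τ) ∈ p := by
    intro i hi
    refine (mem_mkPol_P a p hcj ha _).1 (W.van_le_P (k := m - i) (by omega) (W.van_powsub hDg ?_))
    rw [Nat.sub_add_cancel hi.le]
    exact hτ
  have hPSi : ∀ i ∈ Finset.range m, PS p fun y =>
      ‖(mu (((δ1 D + (-1 : ℂ) • δ2 D) ^ i) τ) : (Fin n → ℂ) → ℂ) y‖ :=
    fun i hi => PS.norm (hPi i (Finset.mem_range.1 hi))
  refine ⟨C, hC.le, _, (PS.sum hPSi).add (PS.norm hP), ?_⟩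
  have hsmall : ∀ᶠ q : (Fin n → ℂ) × ℝ in 𝓝 (x0, (0 : ℝ)), |q.2| < 1 := by
    have : Tendsto (fun q : (Fin n → ℂ) × ℝ => |q.2|) (𝓝 (x0, (0 : ℝ))) (𝓝 |(0 : ℝ)|) :=
      (continuous_snd.abs).tendsto _
    rw [abs_zero] at this
    exact this.eventually (gt_mem_nhds one_pos)
  filter_upwards [hb2, hsmall] with q hq hq1
  obtain ⟨y, ρ⟩ := q
  simp only at hq hq1 ⊢
  have hnI : ‖I * (ρ : ℂ)‖ = |ρ| := by
    rw [norm_mul, norm_I, one_mul, Complex.norm_real, Real.norm_eq_abs]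
  rw [norm_pow, norm_norm, hnI] at hq
  have e : GG D (N + 1) (I * ρ) y τ - (I * ρ) ^ m * (((m.factorial : ℂ))⁻¹ * 2 ^ m *
        (mu (((δ1 D) ^ m) τ) : (Fin n → ℂ) → ℂ) y) =
      (GG D (N + 1) (I * ρ) y τ - ∑ i ∈ Finset.range (m + 1), HH D i (I * ρ) y τ) +
      (∑ i ∈ Finset.range m, HH D i (I * ρ) y τ + (I * ρ) ^ m * (((m.factorial : ℂ))⁻¹ *
        (mu κ : (Fin n → ℂ) → ℂ) y)) := by
    rw [Finset.sum_range_succ, HH_im D m, hκe']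
    have : (((2 : ℂ) ^ m • mu (((δ1 D) ^ m) τ) + mu κ : Rn n) : (Fin n → ℂ) → ℂ) y =
        (2 : ℂ) ^ m * (mu (((δ1 D) ^ m) τ) : (Fin n → ℂ) → ℂ) y + (mu κ : (Fin n → ℂ) → ℂ) y := rfl
    rw [this]
    ring
  rw [e]
  refine (norm_add_le _ _).trans (add_le_add hq ?_)
  refine (norm_add_le _ _).trans (add_le_add ?_ ?_)
  · refine (norm_sum_le _ _).trans (Finset.sum_le_sum fun i _ => ?_)
    rw [HH_im, norm_mul, norm_mul, norm_pow, hnI, norm_inv, Complex.norm_natCast]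
    have h1 : |ρ| ^ i ≤ 1 := pow_le_one₀ (abs_nonneg _) hq1.le
    have h2 : ((i.factorial : ℝ))⁻¹ ≤ 1 := inv_le_one_of_one_le₀ (by exact_mod_cast Nat.factorial_pos i)
    have h3 : 0 ≤ ((i.factorial : ℝ))⁻¹ := by positivity
    set X := ‖(mu (((δ1 D + (-1 : ℂ) • δ2 D) ^ i) τ) : (Fin n → ℂ) → ℂ) y‖ with hX
    have hX0 : 0 ≤ X := norm_nonneg _
    calc |ρ| ^ i * (((i.factorial : ℝ))⁻¹ * X) ≤ 1 * (1 * X) := by gcongr
      _ = X := by ring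
  · rw [norm_mul, norm_mul, norm_pow, hnI, norm_inv, Complex.norm_natCast]
    have h1 : |ρ| ^ m ≤ 1 := pow_le_one₀ (abs_nonneg _) hq1.le
    have h2 : ((m.factorial : ℝ))⁻¹ ≤ 1 := inv_le_one_of_one_le₀ (by exact_mod_cast Nat.factorial_pos m)
    have h3 : 0 ≤ ((m.factorial : ℝ))⁻¹ := by positivity
    set X := ‖(mu κ : (Fin n → ℂ) → ℂ) y‖ with hX
    have hX0 : 0 ≤ X := norm_nonneg _
    calc |ρ| ^ m * (((m.factorial : ℝ))⁻¹ * X) ≤ 1 * (1 * X) := by gcongr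
      _ = X := by ring

/-- size in an imaginary direction -/
theorem size (x0 : Fin n → ℂ) {D : DD n} (hD : cjD D = D) (hDg : D ∈ gZ a) (N m : ℕ) (hmN : m ≤ N + 1)
    {τ : TT n} (hτ : τ ∈ (mkPol a p hcj ha).Van m) :
    ∃ C : ℝ, 0 ≤ C ∧ ∃ F, PS p F ∧ ∀ᶠ q : (Fin n → ℂ) × ℝ in 𝓝 (x0, (0 : ℝ)),
      ‖GG D (N + 1) (I * q.2) q.1 τ‖ ≤ C * |q.2| ^ m + F q.1 := by
  set W := mkPol a p hcj ha with hW
  have h1 := GG_taylor x0 hD N m (by omega) τ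
  obtain ⟨C, hC, hb⟩ := h1.exists_pos
  rw [IsBigOWith] at hb
  have hb2 := (tendsto_im x0).eventually hb
  have hPi : ∀ i < m, mu (((δ1 D + (-1 : ℂ) • δ2 D) ^ i) τ) ∈ p := by
    intro i hi
    refine (mem_mkPol_P a p hcj ha _).1 (W.van_le_P (k := m - i) (by omega) (W.van_powsub hDg ?_))
    rw [Nat.sub_add_cancel hi.le]
    exact hτ
  have hPSi : ∀ i ∈ Finset.range m, PS p fun y =>
      ‖(mu (((δ1 D + (-1 : ℂ) • δ2 D) ^ i) τ) : (Fin n → ℂ) → ℂ) y‖ :=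
    fun i hi => PS.norm (hPi i (Finset.mem_range.1 hi))
  refine ⟨C, hC.le, _, PS.sum hPSi, ?_⟩
  have hsmall : ∀ᶠ q : (Fin n → ℂ) × ℝ in 𝓝 (x0, (0 : ℝ)), |q.2| < 1 := by
    have : Tendsto (fun q : (Fin n → ℂ) × ℝ => |q.2|) (𝓝 (x0, (0 : ℝ))) (𝓝 |(0 : ℝ)|) :=
      (continuous_snd.abs).tendsto _
    rw [abs_zero] at this
    exact this.eventually (gt_mem_nhds one_pos)
  filter_upwards [hb2, hsmall] with q hq hq1
  obtain ⟨y, ρ⟩ := q
  simp only at hq hq1 ⊢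
  have hnI : ‖I * (ρ : ℂ)‖ = |ρ| := by
    rw [norm_mul, norm_I, one_mul, Complex.norm_real, Real.norm_eq_abs]
  rw [norm_pow, norm_norm, hnI] at hq
  have e : GG D (N + 1) (I * ρ) y τ =
      (GG D (N + 1) (I * ρ) y τ - ∑ i ∈ Finset.range m, HH D i (I * ρ) y τ) +
      ∑ i ∈ Finset.range m, HH D i (I * ρ) y τ := by ring
  rw [e]
  refine (norm_add_le _ _).trans (add_le_add hq ?_)
  refine (norm_sum_le _ _).trans (Finset.sum_le_sum fun i _ => ?_)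
  rw [HH_im, norm_mul, norm_mul, norm_pow, hnI, norm_inv, Complex.norm_natCast]
  have h1 : |ρ| ^ i ≤ 1 := pow_le_one₀ (abs_nonneg _) hq1.le
  have h2 : ((i.factorial : ℝ))⁻¹ ≤ 1 := inv_le_one_of_one_le₀ (by exact_mod_cast Nat.factorial_pos i)
  have h3 : 0 ≤ ((i.factorial : ℝ))⁻¹ := by positivity
  set X := ‖(mu (((δ1 D + (-1 : ℂ) • δ2 D) ^ i) τ) : (Fin n → ℂ) → ℂ) y‖ with hX
  have hX0 : 0 ≤ X := norm_nonneg _
  calc |ρ| ^ i * (((i.factorial : ℝ))⁻¹ * X) ≤ 1 * (1 * X) := by gcongr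
    _ = X := by ring

end main

end Pool.Agent.V7H87.KD
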