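import Mathlib
import Pool.Agent.V7H87.KD.Pos

set_option autoImplicit false

open Filter Topology Asymptotics Complex
open scoped ContDiff ComplexConjugate

namespace Pool.Agent.V7H87.KD

variable {n : ℕ}

theorem mem_of_small' {x0 : Fin n → ℂ} {p : Ideal (Rn n)} (hp : RadP x0 p) {g : Rn n}
    {F : (Fin n → ℂ) → ℝ} (hF : PS p F) (N : ℕ) (c K : ℝ) (hc : 0 < c) (hK : 0 ≤ K)
    (h : ∀ᶠ q : (Fin n → ℂ) × ℝ in 𝓝 (x0, (0 : ℝ)), 0 ≤ q.2 →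
      c * ‖(g : (Fin n → ℂ) → ℂ) q.1‖ * q.2 ^ N ≤ K * q.2 ^ (N + 1) + F q.1) : g ∈ p := by
  refine mem_of_small hp (hF.const_mul (C := 1 / c) (by positivity)) N (K / c + 1) (by positivity) ?_
  filter_upwards [h] with q hq h0
  have h1 := hq h0
  have hF0 : 0 ≤ F q.1 := hF.nonneg q.1
  have h2 : ‖(g : (Fin n → ℂ) → ℂ) q.1‖ * q.2 ^ N ≤ (K * q.2 ^ (N + 1) + F q.1) / c := by
    rw [le_div_iff₀ hc]
    calc ‖(g : (Fin n → ℂ) → ℂ) q.1‖ * q.2 ^ N * c = c * ‖(g : (Fin n → ℂ) → ℂ) q.1‖ * q.2 ^ N := by ring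
      _ ≤ _ := h1
  refine h2.trans ?_
  have h3 : (K / c + 1) * (q.2 ^ (N + 1) + 1 / c * F q.1) - (K * q.2 ^ (N + 1) + F q.1) / c =
      q.2 ^ (N + 1) + K / c * (1 / c * F q.1) := by
    field_simp
    ring
  have h4 : 0 ≤ q.2 ^ (N + 1) + K / c * (1 / c * F q.1) := by positivity
  linarith

theorem tendsto_yy (x0 : Fin n → ℂ) (D : DD n) (N : ℕ) :
    Tendsto (fun q : (Fin n → ℂ) × ℝ => yy D (N + 1) (I * q.2) q.1) (𝓝 (x0, (0 : ℝ))) (𝓝 x0) := by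
  have h1 : Tendsto (fun q : (Fin n → ℂ) × ℂ => yy D (N + 1) q.2 q.1) (𝓝 (x0, (0 : ℂ))) (𝓝 x0) := by
    have := (cont_yy D (N + 1)).tendsto (x0, (0 : ℂ))
    rwa [yy_zero] at this
  have h2 := Tendsto.comp h1 (tendsto_im x0)
  simpa only [Function.comp_def] using h2

theorem bdd_ww (x0 : Fin n → ℂ) (D E : DD n) (N : ℕ) :
    ∃ B : ℝ, 0 ≤ B ∧ ∀ᶠ q : (Fin n → ℂ) × ℝ in 𝓝 (x0, (0 : ℝ)), ‖ww D (N + 1) E (I * q.2) q.1‖ ≤ B := by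
  have h1 : ∀ᶠ q : (Fin n → ℂ) × ℂ in 𝓝 (x0, (0 : ℂ)), ‖ww D (N + 1) E q.2 q.1‖ <
      ‖ww D (N + 1) E 0 x0‖ + 1 :=
    ((cont_ww D (N + 1) E).norm.tendsto (x0, (0 : ℂ))).eventually (gt_mem_nhds (lt_add_one _))
  refine ⟨‖ww D (N + 1) E 0 x0‖ + 1, by positivity, ?_⟩
  have h2 := (tendsto_im x0).eventually h1
  filter_upwards [h2] with q hq
  exact hq.le

theorem tendsto_neg (x0 : Fin n → ℂ) :
    Tendsto (fun q : (Fin n → ℂ) × ℝ => (q.1, -q.2)) (𝓝 (x0, (0 : ℝ))) (𝓝 (x0, (0 : ℝ))) := by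
  have : Continuous fun q : (Fin n → ℂ) × ℝ => (q.1, -q.2) :=
    continuous_fst.prodMk continuous_snd.neg
  have h := this.tendsto (x0, (0 : ℝ))
  simpa using h

theorem tendsto_sq (x0 : Fin n → ℂ) :
    Tendsto (fun q : (Fin n → ℂ) × ℝ => (q.1, q.2 ^ 2)) (𝓝 (x0, (0 : ℝ))) (𝓝 (x0, (0 : ℝ))) := by
  have : Continuous fun q : (Fin n → ℂ) × ℝ => (q.1, q.2 ^ 2) :=
    continuous_fst.prodMk (continuous_snd.pow 2)
  have h := this.tendsto (x0, (0 : ℝ))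
  simpa using h

theorem eventually_lt_one (x0 : Fin n → ℂ) :
    ∀ᶠ q : (Fin n → ℂ) × ℝ in 𝓝 (x0, (0 : ℝ)), |q.2| < 1 := by
  have : Tendsto (fun q : (Fin n → ℂ) × ℝ => |q.2|) (𝓝 (x0, (0 : ℝ))) (𝓝 |(0 : ℝ)|) :=
    (continuous_snd.abs).tendsto _
  rw [abs_zero] at this
  exact this.eventually (gt_mem_nhds one_pos)

/-- the Cauchy-Schwarz type inequality -/
theorem cs_alg {M : Fin n → Fin n → ℂ} {l w1 w2 : Fin n → ℂ} {R C B : ℝ} (hR : 0 ≤ R) (hC : 0 ≤ C)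
    (hpos : ∀ w, -(C * (R * ‖w‖ ^ 2 + ‖linf l w‖ * ‖w‖)) ≤ (sesq M w w).re)
    (hherm : ∀ w w', (starRingEnd ℂ) (sesq M w w') = sesq M w' w)
    (h1 : ‖w1‖ ≤ B) (h2 : ‖w2‖ ≤ B) {η : ℝ} (hη : 0 ≤ η) (hη1 : η ≤ 1) :
    2 * (η * ‖sesq M w1 w2‖) ≤ ‖sesq M w1 w1‖ + η ^ 2 * ‖sesq M w2 w2‖ +
      C * (R * (2 * B) ^ 2 + (‖linf l w1‖ + ‖linf l w2‖) * (2 * B)) := by
  have hB : 0 ≤ B := (norm_nonneg _).trans h1
  obtain ⟨u, hu, hub⟩ : ∃ u : ℂ, ‖u‖ ≤ 1 ∧ (starRingEnd ℂ) u * sesq M w1 w2 = ‖sesq M w1 w2‖ := by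
    by_cases h : sesq M w1 w2 = 0
    · exact ⟨0, by simp, by simp [h]⟩
    · have hn : ‖sesq M w1 w2‖ ≠ 0 := norm_ne_zero_iff.2 h
      refine ⟨sesq M w1 w2 / ‖sesq M w1 w2‖, ?_, ?_⟩
      · rw [norm_div, Complex.norm_real, norm_norm, div_self hn]
      · rw [map_div₀, conj_ofReal, div_mul_eq_mul_div, mul_comm, Complex.mul_conj,
          Complex.normSq_eq_norm_sq]
        have : (‖sesq M w1 w2‖ : ℂ) ≠ 0 := by exact_mod_cast hn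
        field_simp
        push_cast
        ring
  obtain ⟨s, hs⟩ : ∃ s : ℂ, s = -(η : ℂ) * u := ⟨_, rfl⟩
  have hsn : ‖s‖ ≤ η := by
    rw [hs, norm_mul, norm_neg, Complex.norm_real, Real.norm_eq_abs, abs_of_nonneg hη]
    exact mul_le_of_le_one_right hη hu
  have hsb : (starRingEnd ℂ) s * sesq M w1 w2 = -((η * ‖sesq M w1 w2‖ : ℝ) : ℂ) := by
    rw [hs, map_mul, map_neg, conj_ofReal, mul_assoc, hub]
    push_cast
    ring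
  have key := hpos (w1 + s • w2)
  have e : sesq M (w1 + s • w2) (w1 + s • w2) = sesq M w1 w1 + (starRingEnd ℂ) s * sesq M w1 w2 +
      (starRingEnd ℂ) ((starRingEnd ℂ) s * sesq M w1 w2) + (s * (starRingEnd ℂ) s) * sesq M w2 w2 := by
    rw [sesq_add_left, sesq_add_right, sesq_add_right, sesq_smul_left, sesq_smul_left,
      sesq_smul_right, sesq_smul_right, map_mul, Complex.conj_conj, hherm]
    ring
  rw [e, hsb] at key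
  simp only [add_re, neg_re, conj_re, ofReal_re] at key
  have k1 : (sesq M w1 w1).re ≤ ‖sesq M w1 w1‖ := Complex.re_le_norm _
  have k2 : ((s * (starRingEnd ℂ) s) * sesq M w2 w2).re ≤ η ^ 2 * ‖sesq M w2 w2‖ := by
    refine (Complex.re_le_norm _).trans ?_
    rw [norm_mul, norm_mul, RCLike.norm_conj]
    have : ‖s‖ * ‖s‖ ≤ η ^ 2 := by nlinarith [norm_nonneg s]
    gcongr
  have hw : ‖w1 + s • w2‖ ≤ 2 * B := by
    refine (norm_add_le _ _).trans ?_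
    rw [norm_smul]
    have : ‖s‖ * ‖w2‖ ≤ 1 * B := by
      have : ‖s‖ ≤ 1 := hsn.trans hη1
      gcongr
    linarith
  have hl : ‖linf l (w1 + s • w2)‖ ≤ ‖linf l w1‖ + ‖linf l w2‖ := by
    rw [linf_add, linf_smul]
    refine (norm_add_le _ _).trans ?_
    rw [norm_mul]
    have : ‖s‖ * ‖linf l w2‖ ≤ 1 * ‖linf l w2‖ := by
      have : ‖s‖ ≤ 1 := hsn.trans hη1
      gcongr
    linarith
  have k3 : C * (R * ‖w1 + s • w2‖ ^ 2 + ‖linf l (w1 + s • w2)‖ * ‖w1 + s • w2‖) ≤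
      C * (R * (2 * B) ^ 2 + (‖linf l w1‖ + ‖linf l w2‖) * (2 * B)) := by
    gcongr
  linarith

section main

variable (a : Fin n → Rn n) (p : Ideal (Rn n)) (hcj : ∀ f ∈ p, cj f ∈ p)
    (ha : ∀ f ∈ p, ∑ j, a j * pd j f ∈ p)
    (r : (Fin n → ℂ) → ℝ) (rr : Rn n) (hrr : ∀ y, (rr : (Fin n → ℂ) → ℂ) y = r y)
    (x0 : Fin n → ℂ) (hrad : RadP x0 p)
    (hL : ∃ C : ℝ, 0 ≤ C ∧ ∀ᶠ y in 𝓝 x0, ∀ w,
      -(C * (|r y| * ‖w‖ ^ 2 + ‖linf (rl rr y) w‖ * ‖w‖)) ≤ (sesq (rm rr y) w w).re)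

theorem norm_pow_im (m : ℕ) (ρ : ℝ) (hρ : 0 ≤ ρ) (g : ℂ) :
    ‖(I * (ρ : ℂ)) ^ m * (((m.factorial : ℂ))⁻¹ * 2 ^ m * g)‖ =
      (((m.factorial : ℝ))⁻¹ * 2 ^ m) * ‖g‖ * ρ ^ m := by
  rw [norm_mul, norm_pow, norm_mul, norm_I, one_mul, Complex.norm_real, Real.norm_eq_abs,
    abs_of_nonneg hρ, norm_mul, norm_mul, norm_inv, Complex.norm_natCast, norm_pow]
  simp only [Complex.norm_ofNat]
  ring

include hrad in
theorem mem_of_lead {D : DD n} (hD : cjD D = D) (hDg : D ∈ gZ a) (m : ℕ)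
    {τ : TT n} (hτ : τ ∈ (mkPol a p hcj ha).Van m) (K : ℝ) (hK : 0 ≤ K) (F : (Fin n → ℂ) → ℝ)
    (hF : PS p F)
    (h : ∀ᶠ q : (Fin n → ℂ) × ℝ in 𝓝 (x0, (0 : ℝ)), 0 ≤ q.2 →
      q.2 * ‖GG D (m + 1) (I * ((q.2 ^ 2 : ℝ) : ℂ)) q.1 τ‖ ≤ K * q.2 ^ (2 * m + 2) + F q.1) :
    mu (((δ1 D) ^ m) τ) ∈ p := by
  obtain ⟨C, hC, G, hG, hlead⟩ := lead a p hcj ha x0 hD hDg m m (le_refl m) hτ
  have hlead2 := (tendsto_sq x0).eventually hlead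
  have hc0 : (0 : ℝ) < ((m.factorial : ℝ))⁻¹ * 2 ^ m := by positivity
  refine mem_of_small' hrad (hF.add hG) (2 * m + 1) (((m.factorial : ℝ))⁻¹ * 2 ^ m) (K + C) hc0
    (by positivity) ?_
  filter_upwards [h, hlead2, eventually_lt_one x0] with q h1 h2 h3 h0
  obtain ⟨y, σ⟩ := q
  simp only at h1 h2 h3 h0 ⊢
  have h1 := h1 h0
  rw [abs_of_nonneg h0] at h3
  have h4 : |σ ^ 2| = σ ^ 2 := abs_of_nonneg (sq_nonneg σ)
  rw [h4] at h2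
  set g := (mu (((δ1 D) ^ m) τ) : (Fin n → ℂ) → ℂ) y with hg
  set A := GG D (m + 1) (I * ((σ ^ 2 : ℝ) : ℂ)) y τ with hA
  have e1 := norm_pow_im m (σ ^ 2) (sq_nonneg σ) g
  have h5 : ‖(I * ((σ ^ 2 : ℝ) : ℂ)) ^ m * (((m.factorial : ℂ))⁻¹ * 2 ^ m * g)‖ ≤
      ‖A‖ + (C * (σ ^ 2) ^ (m + 1) + G y) := by
    have := norm_sub_norm_le ((I * ((σ ^ 2 : ℝ) : ℂ)) ^ m * (((m.factorial : ℂ))⁻¹ * 2 ^ m * g)) A
    rw [norm_sub_rev] at this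
    linarith
  rw [e1] at h5
  have h6 : (((m.factorial : ℝ))⁻¹ * 2 ^ m) * ‖g‖ * (σ ^ 2) ^ m * σ ≤
      (‖A‖ + (C * (σ ^ 2) ^ (m + 1) + G y)) * σ := by gcongr
  have h7 : (((m.factorial : ℝ))⁻¹ * 2 ^ m) * ‖g‖ * σ ^ (2 * m + 1) =
      (((m.factorial : ℝ))⁻¹ * 2 ^ m) * ‖g‖ * (σ ^ 2) ^ m * σ := by
    rw [← pow_mul, pow_succ]; ring
  rw [h7]
  have hG0 : 0 ≤ G y := hG.nonneg y
  have h8 : (C * (σ ^ 2) ^ (m + 1) + G y) * σ ≤ C * (σ ^ 2) ^ (m + 1) + G y := by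
    apply mul_le_of_le_one_right (by positivity) h3.le
  have h9 : (σ ^ 2) ^ (m + 1) = σ ^ (2 * m + 1 + 1) := by
    rw [← pow_mul]; congr 1
  rw [h9] at h8 h6
  have h10 : σ ^ (2 * m + 2) = σ ^ (2 * m + 1 + 1) := rfl
  rw [h10] at h1
  calc _ ≤ _ := h6
    _ = σ * ‖A‖ + (C * σ ^ (2 * m + 1 + 1) + G y) * σ := by ring
    _ ≤ (K * σ ^ (2 * m + 1 + 1) + F y) + (C * σ ^ (2 * m + 1 + 1) + G y) := add_le_add h1 h8
    _ = _ := by ring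

include hrad hL hrr in
theorem cs_step {D : DD n} (hD : cjD D = D) (hDg : D ∈ gZ a) (m : ℕ) (E1 E2 : DD n)
    (h1 : psi rr ∈ (mkPol a p hcj ha).Van (m + 1))
    (h2 : δ1 E1 (psi rr) ∈ (mkPol a p hcj ha).Van (m + 1))
    (h3 : δ1 E2 (psi rr) ∈ (mkPol a p hcj ha).Van (m + 1))
    (h4 : δ1 E1 (δ2 (cjD E1) (psi rr)) ∈ (mkPol a p hcj ha).Van (m + 1))
    (h5 : δ1 E2 (δ2 (cjD E2) (psi rr)) ∈ (mkPol a p hcj ha).Van m)
    (h6 : δ1 E1 (δ2 (cjD E2) (psi rr)) ∈ (mkPol a p hcj ha).Van m)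
    (h7 : δ1 E2 (δ2 (cjD E1) (psi rr)) ∈ (mkPol a p hcj ha).Van m) :
    mu (((δ1 D) ^ m) (δ1 E1 (δ2 (cjD E2) (psi rr)))) ∈ p ∧
    mu (((δ1 D) ^ m) (δ1 E2 (δ2 (cjD E1) (psi rr)))) ∈ p := by
  obtain ⟨CL, hCL, hLev⟩ := hL
  obtain ⟨B1, hB1, hw1⟩ := bdd_ww x0 D E1 m
  obtain ⟨B2, hB2, hw2⟩ := bdd_ww x0 D E2 m
  set B := B1 + B2 with hB
  have hB0 : 0 ≤ B := by positivity
  obtain ⟨C1, hC1, F1, hF1, s1⟩ := size a p hcj ha x0 hD hDg m (m + 1) le_rfl h1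
  obtain ⟨C2, hC2, F2, hF2, s2⟩ := size a p hcj ha x0 hD hDg m (m + 1) le_rfl h2
  obtain ⟨C3, hC3, F3, hF3, s3⟩ := size a p hcj ha x0 hD hDg m (m + 1) le_rfl h3
  obtain ⟨C4, hC4, F4, hF4, s4⟩ := size a p hcj ha x0 hD hDg m (m + 1) le_rfl h4
  obtain ⟨C5, hC5, F5, hF5, s5⟩ := size a p hcj ha x0 hD hDg m m (by omega) h5
  have hcjr : cj rr = rr := cj_real r rr hrr
  -- the main estimate
  set K : ℝ := C4 + C5 + CL * (C1 * (2 * B) ^ 2 + (C2 + C3) * (2 * B)) with hK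
  have hK0 : 0 ≤ K := by positivity
  set F : (Fin n → ℂ) → ℝ := fun y => F4 y + F5 y + CL * ((2 * B) ^ 2 * F1 y + (2 * B) * (F2 y + F3 y))
    with hFdef
  have hF : PS p F := (hF4.add hF5).add ((((hF1.const_mul (by positivity)).add
    ((hF2.add hF3).const_mul (by positivity)))).const_mul hCL)
  have main : ∀ᶠ q : (Fin n → ℂ) × ℝ in 𝓝 (x0, (0 : ℝ)), 0 ≤ q.2 →
      q.2 * ‖GG D (m + 1) (I * ((q.2 ^ 2 : ℝ) : ℂ)) q.1 (δ1 E1 (δ2 (cjD E2) (psi rr)))‖ ≤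
        K * q.2 ^ (2 * m + 2) + F q.1 := by
    have e0 := (tendsto_sq x0).eventually ((tendsto_yy x0 D m).eventually hLev)
    have e1 := (tendsto_sq x0).eventually s1
    have e2 := (tendsto_sq x0).eventually s2
    have e3 := (tendsto_sq x0).eventually s3
    have e4 := (tendsto_sq x0).eventually s4
    have e5 := (tendsto_sq x0).eventually s5
    have e6 := (tendsto_sq x0).eventually hw1
    have e7 := (tendsto_sq x0).eventually hw2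
    filter_upwards [e0, e1, e2, e3, e4, e5, e6, e7, eventually_lt_one x0] with q f0 f1 f2 f3 f4 f5 f6 f7 f8 h0
    obtain ⟨y, σ⟩ := q
    simp only at f0 f1 f2 f3 f4 f5 f6 f7 f8 h0 ⊢
    rw [abs_of_nonneg h0] at f8
    have habs : |σ ^ 2| = σ ^ 2 := abs_of_nonneg (sq_nonneg σ)
    rw [habs] at f1 f2 f3 f4 f5
    rw [GG_psi, hrr, Complex.norm_real, Real.norm_eq_abs] at f1
    rw [GG_d1] at f2 f3
    rw [GG_levi hD] at f4 f5 ⊢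
    set y' := yy D (m + 1) (I * ((σ ^ 2 : ℝ) : ℂ)) y with hy'
    set w1 := ww D (m + 1) E1 (I * ((σ ^ 2 : ℝ) : ℂ)) y with hw1'
    set w2 := ww D (m + 1) E2 (I * ((σ ^ 2 : ℝ) : ℂ)) y with hw2'
    have cs := cs_alg (abs_nonneg (r y')) hCL f0 (sesq_conj hcjr y')
      (f6.trans (by rw [hB]; linarith : B1 ≤ B)) (f7.trans (by rw [hB]; linarith : B2 ≤ B)) h0 f8.le
    set S := (σ ^ 2) ^ (m + 1) with hS
    have hS2 : S = σ ^ (2 * m + 2) := by rw [hS, ← pow_mul]; congr 1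
    have hS3 : σ ^ 2 * (σ ^ 2) ^ m = S := by rw [hS, pow_succ]; ring
    have hsq1 : σ ^ 2 ≤ 1 := pow_le_one₀ h0 f8.le
    have t5 : σ ^ 2 * ‖sesq (rm rr y') w2 w2‖ ≤ C5 * S + F5 y := by
      calc σ ^ 2 * ‖sesq (rm rr y') w2 w2‖ ≤ σ ^ 2 * (C5 * (σ ^ 2) ^ m + F5 y) := by gcongr
        _ = C5 * (σ ^ 2 * (σ ^ 2) ^ m) + σ ^ 2 * F5 y := by ring
        _ ≤ C5 * S + F5 y := by
          rw [hS3]
          have : σ ^ 2 * F5 y ≤ 1 * F5 y := by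
            have := hF5.nonneg y
            gcongr
          linarith
    have t1 : CL * (|r y'| * (2 * B) ^ 2 + (‖linf (rl rr y') w1‖ + ‖linf (rl rr y') w2‖) * (2 * B)) ≤
        CL * ((C1 * S + F1 y) * (2 * B) ^ 2 + ((C2 * S + F2 y) + (C3 * S + F3 y)) * (2 * B)) := by
      gcongr
    have nn : 0 ≤ σ * ‖sesq (rm rr y') w1 w2‖ := by positivity
    calc σ * ‖sesq (rm rr y') w1 w2‖ ≤ 2 * (σ * ‖sesq (rm rr y') w1 w2‖) := by linarith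
      _ ≤ _ := cs
      _ ≤ (C4 * S + F4 y) + (C5 * S + F5 y) +
          CL * ((C1 * S + F1 y) * (2 * B) ^ 2 + ((C2 * S + F2 y) + (C3 * S + F3 y)) * (2 * B)) := by
          gcongr
      _ = K * S + F y := by rw [hK, hFdef]; ring
      _ = K * σ ^ (2 * m + 2) + F y := by rw [hS2]
  refine ⟨mem_of_lead a p hcj ha x0 hrad hD hDg m h6 K hK0 F hF main,
    mem_of_lead a p hcj ha x0 hrad hD hDg m h7 K hK0 F hF ?_⟩
  filter_upwards [main] with q hq h0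
  have h1 := hq h0
  rw [GG_levi hD] at h1 ⊢
  rwa [← sesq_conj hcjr, RCLike.norm_conj]

include hrad hL hrr in
theorem odd_step {D : DD n} (hD : cjD D = D) (hDg : D ∈ gZ a) (m : ℕ) (hm : Odd m) (E : DD n)
    (h1 : psi rr ∈ (mkPol a p hcj ha).Van (m + 1))
    (h2 : δ1 E (psi rr) ∈ (mkPol a p hcj ha).Van (m + 1))
    (h3 : δ1 E (δ2 (cjD E) (psi rr)) ∈ (mkPol a p hcj ha).Van m) :
    mu (((δ1 D) ^ m) (δ1 E (δ2 (cjD E) (psi rr)))) ∈ p := by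
  obtain ⟨CL, hCL, hLev⟩ := hL
  obtain ⟨B, hB0, hw⟩ := bdd_ww x0 D E m
  obtain ⟨C1, hC1, F1, hF1, s1⟩ := size a p hcj ha x0 hD hDg m (m + 1) le_rfl h1
  obtain ⟨C2, hC2, F2, hF2, s2⟩ := size a p hcj ha x0 hD hDg m (m + 1) le_rfl h2
  obtain ⟨C3, hC3, F3, hF3, s3⟩ := lead a p hcj ha x0 hD hDg m m (le_refl m) h3
  have hcjr : cj rr = rr := cj_real r rr hrr
  set K : ℝ := CL * (C1 * B ^ 2 + C2 * B) + C3 with hK
  have hK0 : 0 ≤ K := by positivity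
  set F : (Fin n → ℂ) → ℝ := fun y => CL * (B ^ 2 * F1 y + B * F2 y) + F3 y with hFdef
  have hF : PS p F := (((hF1.const_mul (by positivity)).add
    (hF2.const_mul hB0)).const_mul hCL).add hF3
  -- one sided estimate
  have one : ∀ᶠ q : (Fin n → ℂ) × ℝ in 𝓝 (x0, (0 : ℝ)),
      -(K * |q.2| ^ (m + 1) + F q.1) ≤ ((I * (q.2 : ℂ)) ^ m * (((m.factorial : ℂ))⁻¹ * 2 ^ m *
        (mu (((δ1 D) ^ m) (δ1 E (δ2 (cjD E) (psi rr)))) : (Fin n → ℂ) → ℂ) q.1)).re ∧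
      |((I * (q.2 : ℂ)) ^ m * (((m.factorial : ℂ))⁻¹ * 2 ^ m *
        (mu (((δ1 D) ^ m) (δ1 E (δ2 (cjD E) (psi rr)))) : (Fin n → ℂ) → ℂ) q.1)).im| ≤
        K * |q.2| ^ (m + 1) + F q.1 := by
    filter_upwards [(tendsto_yy x0 D m).eventually hLev, s1, s2, s3, hw] with q f0 f1 f2 f3 f4
    obtain ⟨y, ρ⟩ := q
    simp only at f0 f1 f2 f3 f4 ⊢
    rw [GG_psi, hrr, Complex.norm_real, Real.norm_eq_abs] at f1
    rw [GG_d1] at f2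
    rw [GG_levi hD] at f3
    set y' := yy D (m + 1) (I * (ρ : ℂ)) y with hy'
    set w := ww D (m + 1) E (I * (ρ : ℂ)) y with hw'
    set Z := (I * (ρ : ℂ)) ^ m * (((m.factorial : ℂ))⁻¹ * 2 ^ m *
        (mu (((δ1 D) ^ m) (δ1 E (δ2 (cjD E) (psi rr)))) : (Fin n → ℂ) → ℂ) y) with hZ
    have him : (sesq (rm rr y') w w).im = 0 := by
      have := sesq_conj hcjr y' w w
      exact Complex.conj_eq_iff_im.1 this
    have hpos := f0 w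
    have hF10 := hF1.nonneg y
    have hF20 := hF2.nonneg y
    have hF30 := hF3.nonneg y
    have t1 : CL * (|r y'| * ‖w‖ ^ 2 + ‖linf (rl rr y') w‖ * ‖w‖) ≤
        CL * ((C1 * |ρ| ^ (m + 1) + F1 y) * B ^ 2 + (C2 * |ρ| ^ (m + 1) + F2 y) * B) := by
      gcongr
    have t2 : |(sesq (rm rr y') w w - Z).re| ≤ C3 * |ρ| ^ (m + 1) + F3 y :=
      (Complex.abs_re_le_norm _).trans f3
    have t3 : |(sesq (rm rr y') w w - Z).im| ≤ C3 * |ρ| ^ (m + 1) + F3 y :=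
      (Complex.abs_im_le_norm _).trans f3
    rw [sub_re] at t2
    rw [sub_im, him, zero_sub, abs_neg] at t3
    have t4 := (abs_le.1 t2).2
    have nn : 0 ≤ CL * ((C1 * |ρ| ^ (m + 1) + F1 y) * B ^ 2 + (C2 * |ρ| ^ (m + 1) + F2 y) * B) := by
      positivity
    have hKF : K * |ρ| ^ (m + 1) + F y = CL * ((C1 * |ρ| ^ (m + 1) + F1 y) * B ^ 2 +
        (C2 * |ρ| ^ (m + 1) + F2 y) * B) + (C3 * |ρ| ^ (m + 1) + F3 y) := by
      rw [hK, hFdef]; ring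
    rw [hKF]
    constructor
    · linarith
    · linarith
  have hc0 : (0 : ℝ) < ((m.factorial : ℝ))⁻¹ * 2 ^ m := by positivity
  refine mem_of_small' hrad (hF.const_mul (C := 2) (by norm_num)) m (((m.factorial : ℝ))⁻¹ * 2 ^ m)
    (2 * K) hc0 (by positivity) ?_
  filter_upwards [one, (tendsto_neg x0).eventually one] with q q1 q2 h0
  obtain ⟨y, ρ⟩ := q
  simp only at q1 q2 h0 ⊢
  rw [abs_neg] at q2
  rw [abs_of_nonneg h0] at q1 q2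
  set g := (mu (((δ1 D) ^ m) (δ1 E (δ2 (cjD E) (psi rr)))) : (Fin n → ℂ) → ℂ) y with hg
  set Z := (I * (ρ : ℂ)) ^ m * (((m.factorial : ℂ))⁻¹ * 2 ^ m * g) with hZ
  have hneg : (I * ((-ρ : ℝ) : ℂ)) ^ m * (((m.factorial : ℂ))⁻¹ * 2 ^ m * g) = -Z := by
    have : (I * ((-ρ : ℝ) : ℂ)) = -(I * (ρ : ℂ)) := by push_cast; ring
    rw [this, hm.neg_pow, hZ]
    ring
  rw [hneg, neg_re] at q2
  have e1 := norm_pow_im m ρ h0 g
  rw [← e1]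
  have h4 : |Z.re| ≤ K * ρ ^ (m + 1) + F y := abs_le.2 ⟨q1.1, by linarith [q2.1]⟩
  have h5 : |Z.im| ≤ K * ρ ^ (m + 1) + F y := q1.2
  calc ‖Z‖ ≤ |Z.re| + |Z.im| := Complex.norm_le_abs_re_add_abs_im Z
    _ ≤ (K * ρ ^ (m + 1) + F y) + (K * ρ ^ (m + 1) + F y) := add_le_add h4 h5
    _ = _ := by ring

end main

end Pool.Agent.V7H87.KD
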