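import Mathlib
import Pool.Agent.V7H87.KD.KCDef
import Pool.Agent.V7H87.KD.Pos2
import Pool.Agent.V7H87.LA.LA

set_option autoImplicit false

open Filter Topology Complex
open scoped ContDiff ComplexConjugate

namespace Pool.Agent.V7H87.KD

variable {n : ℕ}

theorem not_mem_of_ne {x0 : Fin n → ℂ} {p : Ideal (Rn n)} (hrad : RadP x0 p) (h1 : (1 : Rn n) ∉ p)
    {g : Rn n} (hg : (g : (Fin n → ℂ) → ℂ) x0 ≠ 0) : g ∉ p := by
  intro hgp
  apply h1
  set c := ‖(g : (Fin n → ℂ) → ℂ) x0‖ / 2 with hc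
  have hpos : 0 < ‖(g : (Fin n → ℂ) → ℂ) x0‖ := norm_pos_iff.2 hg
  have hc0 : 0 < c := by positivity
  have hev : ∀ᶠ y in 𝓝 x0, c < ‖(g : (Fin n → ℂ) → ℂ) y‖ :=
    ((cont g).norm.tendsto x0).eventually (lt_mem_nhds (by rw [hc]; linarith))
  refine hrad 1 (algebraMap ℂ (Rn n) ((c : ℂ)⁻¹) * g) (p.mul_mem_left _ hgp) 1 le_rfl ?_
  filter_upwards [hev] with y hy
  have e1 : ((1 : Rn n) : (Fin n → ℂ) → ℂ) y = 1 := rfl
  have e2 : ((algebraMap ℂ (Rn n) ((c : ℂ)⁻¹) * g : Rn n) : (Fin n → ℂ) → ℂ) y =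
      (c : ℂ)⁻¹ * (g : (Fin n → ℂ) → ℂ) y := rfl
  rw [e1, e2, norm_one, one_pow, norm_mul, norm_inv, Complex.norm_real, Real.norm_eq_abs,
    abs_of_pos hc0, ← div_eq_inv_mul, le_div_iff₀ hc0]
  linarith

theorem cj_mem {x0 : Fin n → ℂ} {p : Ideal (Rn n)} (hrad : RadP x0 p) : ∀ f ∈ p, cj f ∈ p := by
  intro f hf
  refine hrad (cj f) f hf 1 le_rfl (Eventually.of_forall fun y => ?_)
  rw [cj_apply, RCLike.norm_conj, pow_one]

theorem exists_list {F : Rn n → Fin n → Rn n} {p : Ideal (Rn n)} (φs : List (Fin n → Rn n))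
    (h : ∀ φ ∈ φs, φ ∈ {φ | ∃ f ∈ p, φ = F f}) : ∃ fs : List (Rn n), φs = fs.map F ∧ ∀ f ∈ fs, f ∈ p := by
  induction φs with
  | nil => exact ⟨[], rfl, by simp⟩
  | cons φ φs ih =>
    obtain ⟨fs, h1, h2⟩ := ih fun φ hφ => h φ (List.mem_cons_of_mem _ hφ)
    obtain ⟨f, hf, hφ⟩ := h φ List.mem_cons_self
    refine ⟨f :: fs, by rw [List.map_cons, ← h1, ← hφ], ?_⟩
    intro g hg
    rcases List.mem_cons.1 hg with rfl | hg
    · exact hf
    · exact h2 g hg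

/-- vanishing to infinite order at the generic point -/
theorem van_infty (r : (Fin n → ℂ) → ℝ) (hr : ContDiff ℝ ∞ r) (rr : Rn n)
    (hrr : ∀ y, (rr : (Fin n → ℂ) → ℂ) y = r y) (x0 : Fin n → ℂ) (hx0 : r x0 = 0)
    (hd : fderiv ℝ r x0 ≠ 0)
    (hL : ∀ᶠ y in 𝓝 x0, r y = 0 → ∀ w, linf (rl rr y) w = 0 → 0 ≤ (sesq (rm rr y) w w).re)
    (p : Ideal (Rn n)) (hp : p.IsPrime) (hK : KC r x0 p) :
    ∃ (a : Fin n → Rn n) (hcj : ∀ f ∈ p, cj f ∈ p) (ha : ∀ f ∈ p, ∑ j, a j * pd j f ∈ p),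
      (∃ j, a j ∉ p) ∧ ∀ k, psi rr ∈ (mkPol a p hcj ha).Van k := by
  have hrad : RadP x0 p := hK.rad
  have h1p : (1 : Rn n) ∉ p := fun h => hp.ne_top ((Ideal.eq_top_iff_one p).2 h)
  have hcjr : cj rr = rr := cj_real r rr hrr
  have hrfun : (rr : (Fin n → ℂ) → ℂ) = fun y => (r y : ℂ) := funext hrr
  have hrp : rr ∈ p := hK.r_mem rr hrfun
  obtain ⟨j0, hj0⟩ := exists_rl_ne r hr rr hrr x0 hd
  have hj0p : pd j0 rr ∉ p := not_mem_of_ne hrad h1p hj0
  have hj0p' : pdb j0 rr ∉ p := by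
    have e : pdb j0 rr = cj (pd j0 rr) := by
      conv_lhs => rw [← hcjr]
      rw [pdb_cj]
    intro h
    apply hj0p
    have := cj_mem hrad _ h
    rwa [e, cj_cj] at this
  have hform : ∀ φs : List (Fin n → Rn n), φs.length ≤ n - 1 →
      (∀ φ ∈ φs, φ ∈ {φ : Fin n → Rn n | ∃ f ∈ p, φ = fun j => pd j f}) →
      ∀ l : ExteriorAlgebra ℂ (Cov n) →ₗ[ℂ] ℂ, ∃ g ∈ p, (g : (Fin n → ℂ) → ℂ) = fun x =>
        l ((φs.map fun φ => ExteriorAlgebra.ι ℂ (∑ j, (φ j : (Fin n → ℂ) → ℂ) x • eZ j)).prod *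
          ExteriorAlgebra.ι ℂ (∑ j, (pd j rr : (Fin n → ℂ) → ℂ) x • eZ j) *
          ExteriorAlgebra.ι ℂ (∑ j, (pdb j rr : (Fin n → ℂ) → ℂ) x • eZb j) *
          (∑ j, ∑ k, (pd j (pdb k rr) : (Fin n → ℂ) → ℂ) x •
            (ExteriorAlgebra.ι ℂ (eZ j) * ExteriorAlgebra.ι ℂ (eZb k))) ^ (n - 1 - φs.length)) := by
    intro φs hlen hφ l
    obtain ⟨fs, rfl, hfs⟩ := exists_list φs hφ
    rw [List.length_map] at hlen
    obtain ⟨g, hg, hge⟩ := hK.form fs hlen hfs l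
    refine ⟨g, hg, hge.trans ?_⟩
    funext x
    congr 1
    rw [kohnForm, List.map_map, List.map_map, List.length_map, List.length_map]
    congr 1
    · congr 1
      · congr 1
        · congr 1
          refine List.map_congr_left fun f _ => ?_
          simp only [Function.comp_apply, del]
          congr 1
          refine Finset.sum_congr rfl fun j _ => ?_
          rw [pd_coe]
        · rw [del]
          congr 1
          refine Finset.sum_congr rfl fun j _ => ?_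
          rw [pd_coe, hrfun]
      · rw [delb]
        congr 1
        refine Finset.sum_congr rfl fun j _ => ?_
        rw [pdb_coe, hrfun]
    · rw [ddb]
      congr 1
      refine Finset.sum_congr rfl fun j _ => Finset.sum_congr rfl fun k _ => ?_
      rw [pd_coe, pdb_coe, hrfun]
  obtain ⟨a, s, κ, ⟨j1, haj⟩, hs, haF, haθ⟩ := Pool.Agent.V7H87.LA.null_vector (Fin n → ℂ) (Rn n) p hp
    (fun j => pd j rr) (fun j => pdb j rr) (fun j k => pd j (pdb k rr))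
    {φ : Fin n → Rn n | ∃ f ∈ p, φ = fun j => pd j f} ⟨rr, hrp, rfl⟩ j0 hj0p j0 hj0p' hform
  have hcj := cj_mem hrad
  have ha : ∀ f ∈ p, ∑ j, (s * a j) * pd j f ∈ p := by
    intro f hf
    have := haF (fun j => pd j f) ⟨f, hf, rfl⟩
    have e : ∑ j, (s * a j) * pd j f = s * ∑ j, a j * pd j f := by
      rw [Finset.mul_sum]
      exact Finset.sum_congr rfl fun j _ => by ring
    rw [e]
    exact p.mul_mem_left _ this
  have hκ : ∀ m, ∑ j, (s * a j) * pd j (pdb m rr) - κ * pdb m rr ∈ p := by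
    intro m
    have := haθ m
    have e : ∑ j, (s * a j) * pd j (pdb m rr) = s * ∑ j, a j * pd j (pdb m rr) := by
      rw [Finset.mul_sum]
      exact Finset.sum_congr rfl fun j _ => by ring
    rw [e]
    exact this
  refine ⟨fun j => s * a j, hcj, ha, ⟨j1, fun h => ?_⟩, ?_⟩
  · rcases hp.mem_or_mem h with h | h
    · exact hs h
    · exact haj h
  · have hLev := levi_ineq r hr rr hrr x0 hx0 hd hL
    exact (mkPol (fun j => s * a j) p hcj ha).van_all (ZZ fun j => s * a j) rfl (psi rr)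
      (δ2_Z_psi _ rr) (δ1_Zb_psi _ rr)
      (psi_van_two _ p hcj ha rr hrp hcjr κ hκ)
      (fun m hm D1 _ h1 h2 h3 D hDg hD =>
        odd_step _ p hcj ha r rr hrr x0 hrad hLev hD hDg m hm D1 h1 h2 h3)
      (fun m D1 _ D2 _ h1 h2 h3 h4 h5 h6 h7 D hDg hD =>
        cs_step _ p hcj ha r rr hrr x0 hrad hLev hD hDg m D1 D2 h1 h2 h3 h4 h5 h6 h7)

end Pool.Agent.V7H87.KD
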