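import Mathlib

set_option autoImplicit false

namespace Pool.Agent.V7H87.KD

/-- the multi-indices with all entries at most `a` -/
def box (n a : ℕ) : Finset (Fin n → ℕ) := Fintype.piFinset fun _ => Finset.range (a + 1)

/-- `γ^α` -/
noncomputable def mpow {n : ℕ} (γ : Fin n → PowerSeries ℂ) (α : Fin n → ℕ) : PowerSeries ℂ :=
  ∏ j, γ j ^ α j

/-- the coefficient of `s^a s̄^b` in `∑ A_{αβ} γ(s)^α conj(γ(s)^β)` (for `γ(0) = 0`, where only the
multi-indices `|α| ≤ a`, `|β| ≤ b` contribute) -/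
noncomputable def pairing {n : ℕ} (A : (Fin n → ℕ) → (Fin n → ℕ) → ℂ) (γ : Fin n → PowerSeries ℂ)
    (a b : ℕ) : ℂ :=
  ∑ α ∈ box n a, ∑ β ∈ box n b,
    A α β * (PowerSeries.coeff a (mpow γ α)) * (starRingEnd ℂ) (PowerSeries.coeff b (mpow γ β))

end Pool.Agent.V7H87.KD
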