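import Mathlib
import Pool.Agent.V7H87.KD.Pos2
import Pool.Agent.V7H43.KD.Spec
import Pool.Agent.V7H43.KD.Tay3

set_option autoImplicit false

open Filter Topology Complex Asymptotics
open scoped ContDiff ComplexConjugate

namespace Pool.Agent.V7H87.KD

variable {n : ℕ}

/-- the Taylor coefficients of a polarised function -/
noncomputable def EE (D : DD n) (τ : TT n) (a b : ℕ) (y : Fin n → ℂ) : ℂ :=
  ((a.factorial : ℂ))⁻¹ * ((b.factorial : ℂ))⁻¹ *
    (mu (((δ1 D) ^ a) (((δ2 D) ^ b) τ)) : (Fin n → ℂ) → ℂ) y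

theorem HH_eq (D : DD n) (m : ℕ) (t : ℂ) (y : Fin n → ℂ) (τ : TT n) :
    HH D m t y τ = ∑ ab ∈ Finset.HasAntidiagonal.antidiagonal m,
      EE D τ ab.1 ab.2 y * t ^ ab.1 * (conj t) ^ ab.2 := by
  have hcomm : Commute (t • δ1 D) ((starRingEnd ℂ) t • δ2 D) := by
    show (t • δ1 D) * ((starRingEnd ℂ) t • δ2 D) = ((starRingEnd ℂ) t • δ2 D) * (t • δ1 D)
    apply LinearMap.ext
    intro x
    simp only [Module.End.mul_apply, LinearMap.smul_apply, map_smul]
    rw [δ12_comm, smul_comm]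
  rw [HH, hcomm.add_pow', LinearMap.sum_apply, map_sum, map_sum, Finset.mul_sum]
  refine Finset.sum_congr rfl fun ab hab => ?_
  obtain ⟨a, b⟩ := ab
  have hab : a + b = m := Finset.HasAntidiagonal.mem_antidiagonal.1 hab
  subst hab
  simp only
  rw [smul_pow, smul_pow]
  have e1 : ((a + b).choose a • (t ^ a • (δ1 D) ^ a * (starRingEnd ℂ) t ^ b • (δ2 D) ^ b)) τ =
      (((a + b).choose a : ℂ) * (t ^ a * (starRingEnd ℂ) t ^ b)) • ((δ1 D) ^ a) (((δ2 D) ^ b) τ) := by
    rw [LinearMap.smul_apply, Module.End.mul_apply, LinearMap.smul_apply, LinearMap.smul_apply, map_smul,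
      ← Nat.cast_smul_eq_nsmul ℂ, smul_smul, smul_smul]
    congr 1
    ring
  rw [e1, map_smul, map_smul, smul_eq_mul, ev_apply, EE]
  have h1 : ((a.factorial : ℂ)) ≠ 0 := by exact_mod_cast Nat.factorial_ne_zero a
  have h2 : ((b.factorial : ℂ)) ≠ 0 := by exact_mod_cast Nat.factorial_ne_zero b
  have h3 : (((a + b).factorial : ℂ)) ≠ 0 := by exact_mod_cast Nat.factorial_ne_zero (a + b)
  have h4 : (((a + b).choose a : ℂ)) * a.factorial * b.factorial = (a + b).factorial := by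
    have := Nat.add_choose_mul_factorial_mul_factorial a b
    rw [← Nat.choose_symm_add] at this
    exact_mod_cast this
  field_simp
  rw [← h4]
  ring

/-- the Taylor coefficients of the flow -/
noncomputable def cc (D : DD n) (i : ℕ) (j : Fin n) (y : Fin n → ℂ) : ℂ :=
  ((i.factorial : ℂ))⁻¹ * ((((D : Rn n →ₗ[ℂ] Rn n) ^ i) (zc j) : Rn n) : (Fin n → ℂ) → ℂ) y

theorem cont_cc (D : DD n) (i : ℕ) (j : Fin n) : Continuous (cc D i j) :=
  continuous_const.mul (cont _)

theorem pairing_eq {D : DD n} (hD : cjD D = D) (rr : Rn n) (A : (Fin n → ℕ) → (Fin n → ℕ) → Rn n)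
    (hA : ∀ (y : Fin n → ℂ) (v : Fin n → Polynomial ℂ), (∀ j, (v j).coeff 0 = 0) → ∀ N : ℕ,
      (fun t : ℂ => (rr : (Fin n → ℂ) → ℂ) (fun j => y j + (v j).eval t) -
        ∑ m ∈ Finset.range N, ∑ ab ∈ Finset.HasAntidiagonal.antidiagonal m,
          pairing (fun α β => (A α β : (Fin n → ℂ) → ℂ) y) (fun j => (v j : PowerSeries ℂ)) ab.1 ab.2 *
            t ^ ab.1 * (conj t) ^ ab.2) =O[𝓝 0] fun t : ℂ => ‖t‖ ^ N)
    (y : Fin n → ℂ) (a b : ℕ) :
    pairing (fun α β => (A α β : (Fin n → ℂ) → ℂ) y)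
      (fun j => PowerSeries.mk fun i => if i = 0 then 0 else cc D i j y) a b = EE D (psi rr) a b y := by
  obtain ⟨N, hN⟩ : ∃ N, N = a + b + 1 := ⟨_, rfl⟩
  let v : Fin n → Polynomial ℂ := fun j =>
    ∑ i ∈ Finset.range N, Polynomial.monomial (i + 1) (cc D (i + 1) j y)
  have hvc : ∀ j i, (v j).coeff i = if i = 0 then 0 else if i ≤ N then cc D i j y else 0 := by
    intro j i
    simp only [v, Polynomial.finsetSum_coeff, Polynomial.coeff_monomial]
    rcases i with _ | i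
    · simp
    · simp only [Nat.add_right_cancel_iff, Nat.succ_ne_zero, if_false, Finset.sum_ite_eq',
        Finset.mem_range]
      by_cases h : i < N
      · simp [h, Nat.succ_le_of_lt h]
      · have : ¬ (i + 1 ≤ N) := by omega
        simp [h, this]
  have hv0 : ∀ j, (v j).coeff 0 = 0 := by
    intro j
    rw [hvc]
    simp
  have hve : ∀ t : ℂ, (fun j => y j + (v j).eval t) = yy D (N + 1) t y := by
    intro t
    funext j
    simp only [v, yy, exL_apply]
    rw [Finset.sum_range_succ' _ N, Polynomial.eval_finsetSum, add_comm]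
    congr 1
    · refine Finset.sum_congr rfl fun i _ => ?_
      rw [Polynomial.eval_monomial, cc]
      ring
    · simp only [pow_zero, Nat.factorial_zero, Nat.cast_one, div_one, one_mul]
      rfl
  have h1 := hA y v hv0 N
  have h2 := GG_taylor y hD N N (by omega) (psi rr)
  have h3 : (fun t : ℂ => GG D (N + 1) t y (psi rr) - ∑ m ∈ Finset.range N, HH D m t y (psi rr))
      =O[𝓝 0] fun t : ℂ => ‖t‖ ^ N := by
    have ht : Tendsto (fun t : ℂ => (y, t)) (𝓝 0) (𝓝 (y, (0 : ℂ))) :=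
      (Continuous.prodMk_right y).tendsto 0
    unfold Oh at h2
    have h3 := IsBigO.comp_tendsto h2 ht
    simpa only [Function.comp_def] using h3
  have h4 := h3.sub h1
  have h5 : (fun t : ℂ => ∑ m ∈ Finset.range N, ∑ ab ∈ Finset.HasAntidiagonal.antidiagonal m,
      (pairing (fun α β => (A α β : (Fin n → ℂ) → ℂ) y) (fun j => (v j : PowerSeries ℂ)) ab.1 ab.2 -
        EE D (psi rr) ab.1 ab.2 y) * t ^ ab.1 * (conj t) ^ ab.2) =O[𝓝 0] fun t : ℂ => ‖t‖ ^ N := by
    have e : ∀ t : ℂ, (GG D (N + 1) t y (psi rr) - ∑ m ∈ Finset.range N, HH D m t y (psi rr)) -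
        ((rr : (Fin n → ℂ) → ℂ) (fun j => y j + (v j).eval t) -
        ∑ m ∈ Finset.range N, ∑ ab ∈ Finset.HasAntidiagonal.antidiagonal m,
          pairing (fun α β => (A α β : (Fin n → ℂ) → ℂ) y) (fun j => (v j : PowerSeries ℂ)) ab.1 ab.2 *
            t ^ ab.1 * (conj t) ^ ab.2) =
        ∑ m ∈ Finset.range N, ∑ ab ∈ Finset.HasAntidiagonal.antidiagonal m,
          (pairing (fun α β => (A α β : (Fin n → ℂ) → ℂ) y) (fun j => (v j : PowerSeries ℂ)) ab.1 ab.2 -
            EE D (psi rr) ab.1 ab.2 y) * t ^ ab.1 * (conj t) ^ ab.2 := by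
      intro t
      rw [GG_psi, hve t]
      have e1 : ∀ m ∈ Finset.range N, HH D m t y (psi rr) =
          ∑ ab ∈ Finset.HasAntidiagonal.antidiagonal m,
            EE D (psi rr) ab.1 ab.2 y * t ^ ab.1 * (conj t) ^ ab.2 := fun m _ => HH_eq D m t y (psi rr)
      rw [Finset.sum_congr rfl e1, sub_sub_sub_cancel_left, ← Finset.sum_sub_distrib]
      refine Finset.sum_congr rfl fun m _ => ?_
      rw [← Finset.sum_sub_distrib]
      refine Finset.sum_congr rfl fun ab _ => ?_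
      rw [sub_mul, sub_mul]
    exact h4.congr_left e
  have h6 := Pool.Agent.V7H43.KD.coeff_unique N (fun a b =>
    pairing (fun α β => (A α β : (Fin n → ℂ) → ℂ) y) (fun j => (v j : PowerSeries ℂ)) a b -
        EE D (psi rr) a b y) h5 a b (by omega)
  rw [← sub_eq_zero.1 h6]
  apply Pool.Agent.V7H43.KD.pairing_congr
  intro j i hi
  rw [PowerSeries.coeff_mk, Polynomial.coeff_coe, hvc]
  have : i ≤ N := by
    have := max_le_add_of_nonneg (Nat.zero_le a) (Nat.zero_le b)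
    omega
  simp [this]

/-- a sequence of points with the required properties -/
theorem exists_seq {D : DD n} (rr : Rn n) (x0 : Fin n → ℂ) (p : Ideal (Rn n)) (hrad : RadP x0 p)
    (hE : ∀ a b, mu (((δ1 D) ^ a) (((δ2 D) ^ b) (psi rr))) ∈ p) (j0 : Fin n) (hj0 : D (zc j0) ∉ p) :
    ∃ y : ℕ → Fin n → ℂ, Tendsto y atTop (𝓝 x0) ∧ (∀ m, ‖y m - x0‖ ≤ 1) ∧
      (∀ m, (fun j => cc D 1 j (y m)) ≠ 0) ∧
      ∀ a b K : ℕ, ∀ᶠ m in atTop, ‖EE D (psi rr) a b (y m)‖ ≤
        ‖(fun j => cc D 1 j (y m))‖ ^ K / (m + 1 : ℝ) := by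
  have hcc : ∀ j y, cc D 1 j y = (D (zc j) : (Fin n → ℂ) → ℂ) y := by
    intro j y
    rw [cc, pow_one]
    simp
  -- a bound
  have hcont : Continuous fun y : Fin n → ℂ => (fun j => cc D 1 j y) :=
    continuous_pi fun j => cont_cc D 1 j
  obtain ⟨B0, hB0⟩ := (isCompact_closedBall x0 1).exists_bound_of_continuousOn hcont.continuousOn
  set B : ℝ := max B0 1 with hB
  have hB1 : 1 ≤ B := le_max_right _ _
  have hBpos : 0 < B := by linarith
  have hbound : ∀ y : Fin n → ℂ, ‖y - x0‖ ≤ 1 → ‖(fun j => cc D 1 j y)‖ ≤ B := by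
    intro y hy
    refine (hB0 y ?_).trans (le_max_left _ _)
    rw [Metric.mem_closedBall, dist_eq_norm]
    exact hy
  -- the sum of the coefficients
  let S : ℕ → (Fin n → ℂ) → ℝ := fun m y =>
    ∑ a ∈ Finset.range (m + 1), ∑ b ∈ Finset.range (m + 1), ‖EE D (psi rr) a b y‖
  have hPSE : ∀ a b, PS p fun y => ‖EE D (psi rr) a b y‖ := by
    intro a b
    have h1 := (PS.norm (hE a b)).const_mul (C := ‖((a.factorial : ℂ))⁻¹ * ((b.factorial : ℂ))⁻¹‖)
      (norm_nonneg _)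
    have e : (fun y => ‖EE D (psi rr) a b y‖) = fun y =>
        ‖((a.factorial : ℂ))⁻¹ * ((b.factorial : ℂ))⁻¹‖ *
          ‖(mu (((δ1 D) ^ a) (((δ2 D) ^ b) (psi rr))) : (Fin n → ℂ) → ℂ) y‖ := by
      funext y
      rw [EE, norm_mul]
    rw [e]
    exact h1
  have hPSS : ∀ m, PS p (S m) := fun m => PS.sum fun a _ => PS.sum fun b _ => hPSE a b
  have key : ∀ m : ℕ, ∃ y : Fin n → ℂ, ‖y - x0‖ < 1 / (m + 1 : ℝ) ∧
      (m + 1 : ℝ) * B ^ (m + 1) * S m y < ‖(fun j => cc D 1 j y)‖ ^ (m + 1) := by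
    intro m
    by_contra hcon
    push Not at hcon
    apply hj0
    refine mem_of_PS hrad ((hPSS m).const_mul (C := (m + 1 : ℝ) * B ^ (m + 1)) (by positivity))
      (m := m + 1) (by omega) ?_
    have hev : ∀ᶠ y in 𝓝 x0, ‖y - x0‖ < 1 / (m + 1 : ℝ) := by
      rw [Metric.eventually_nhds_iff]
      exact ⟨1 / (m + 1 : ℝ), by positivity, fun {y} hy => by rwa [dist_eq_norm] at hy⟩
    filter_upwards [hev] with y hy
    refine le_trans ?_ (hcon y hy)
    rw [← hcc]
    exact pow_le_pow_left₀ (norm_nonneg _) (norm_le_pi_norm (fun j => cc D 1 j y) j0) _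
  choose y hy1 hy2 using key
  have hy3 : ∀ m, ‖y m - x0‖ ≤ 1 := by
    intro m
    refine (hy1 m).le.trans ?_
    rw [div_le_one (by positivity)]
    have : (0 : ℝ) ≤ m := Nat.cast_nonneg m
    linarith
  refine ⟨y, ?_, hy3, ?_, ?_⟩
  · rw [tendsto_iff_norm_sub_tendsto_zero]
    refine squeeze_zero (fun m => norm_nonneg _) (fun m => (hy1 m).le) ?_
    exact tendsto_one_div_add_atTop_nhds_zero_nat
  · intro m h0
    have h1 := hy2 m
    have hS0 : 0 ≤ S m (y m) := Finset.sum_nonneg fun a _ => Finset.sum_nonneg fun b _ => norm_nonneg _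
    rw [h0, norm_zero, zero_pow (by omega)] at h1
    have : 0 ≤ (m + 1 : ℝ) * B ^ (m + 1) * S m (y m) := by positivity
    linarith
  · intro a b K
    filter_upwards [eventually_ge_atTop (max (max a b) K)] with m hm
    have ha : a ≤ m := (le_max_left a b).trans ((le_max_left _ _).trans hm)
    have hb : b ≤ m := (le_max_right a b).trans ((le_max_left _ _).trans hm)
    have hK : K ≤ m := (le_max_right _ _).trans hm
    set X := ‖(fun j => cc D 1 j (y m))‖ with hX
    have hX0 : 0 ≤ X := norm_nonneg _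
    have hXB : X ≤ B := hbound _ (hy3 m)
    have h1 : ‖EE D (psi rr) a b (y m)‖ ≤ S m (y m) := by
      have e1 : ‖EE D (psi rr) a b (y m)‖ ≤ ∑ b ∈ Finset.range (m + 1), ‖EE D (psi rr) a b (y m)‖ :=
        Finset.single_le_sum (f := fun b => ‖EE D (psi rr) a b (y m)‖) (fun b _ => norm_nonneg _)
          (Finset.mem_range.2 (by omega))
      refine e1.trans ?_
      exact Finset.single_le_sum (f := fun a => ∑ b ∈ Finset.range (m + 1), ‖EE D (psi rr) a b (y m)‖)
        (fun a _ => Finset.sum_nonneg fun b _ => norm_nonneg _) (Finset.mem_range.2 (by omega))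
    have h2 := hy2 m
    rw [le_div_iff₀ (by positivity)]
    have h3 : ‖EE D (psi rr) a b (y m)‖ * (m + 1 : ℝ) * B ^ (m + 1) ≤ X ^ (m + 1) := by
      calc ‖EE D (psi rr) a b (y m)‖ * (m + 1 : ℝ) * B ^ (m + 1) ≤
          S m (y m) * (m + 1 : ℝ) * B ^ (m + 1) := by gcongr
        _ = (m + 1 : ℝ) * B ^ (m + 1) * S m (y m) := by ring
        _ ≤ X ^ (m + 1) := h2.le
    have h4 : X ^ (m + 1) ≤ X ^ K * B ^ (m + 1) := by
      have e1 : m + 1 = K + (m + 1 - K) := by omega
      calc X ^ (m + 1) = X ^ K * X ^ (m + 1 - K) := by rw [← pow_add, ← e1]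
        _ ≤ X ^ K * B ^ (m + 1 - K) := by gcongr
        _ ≤ X ^ K * B ^ (m + 1) := by
          have : B ^ (m + 1 - K) ≤ B ^ (m + 1) := pow_le_pow_right₀ hB1 (by omega)
          gcongr
    exact le_of_mul_le_mul_right (h3.trans h4) (by positivity)

end Pool.Agent.V7H87.KD
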