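import Mathlib
import Pool.Agent.V7H87.KD.Fin1
import Pool.Agent.V7H87.KD.Fin2

set_option autoImplicit false

open Filter Topology Complex Asymptotics
open scoped ContDiff ComplexConjugate

namespace Pool.Agent.V7H87.KD

variable {n : ℕ}

/-- a zero of `r` with non-vanishing differential is a boundary point of `r < 0` -/
theorem mem_frontier_of_zero (r : (Fin n → ℂ) → ℝ) (hr : ContDiff ℝ ∞ r) {y : Fin n → ℂ}
    (h0 : r y = 0) (hd : fderiv ℝ r y ≠ 0) : y ∈ frontier {y | r y < 0} := by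
  have hopen : IsOpen {y | r y < 0} := isOpen_lt hr.continuous continuous_const
  rw [frontier, hopen.interior_eq]
  refine ⟨?_, fun h => ?_⟩
  · by_contra hcl
    apply hd
    apply IsLocalMin.fderiv_eq_zero
    have h1 : (closure {y | r y < 0})ᶜ ∈ 𝓝 y := isClosed_closure.isOpen_compl.mem_nhds hcl
    filter_upwards [h1] with z hz
    rw [h0]
    by_contra hlt
    push Not at hlt
    exact hz (subset_closure hlt)
  · have h2 : r y < 0 := h
    rw [h0] at h2
    exact lt_irrefl _ h2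

/-- the main theorem, given a prime Kohn-closed ideal -/
theorem type_infinite (r : (Fin n → ℂ) → ℝ) (hr : ContDiff ℝ ∞ r) (x : Fin n → ℂ) (hx : r x = 0)
    (hd : fderiv ℝ r x ≠ 0)
    (hpsc : ∀ᶠ y in 𝓝 x, y ∈ frontier {y | r y < 0} → ∀ ζ : Fin n → ℂ,
      ∑ j, dz j (fun w => (r w : ℂ)) y * ζ j = 0 →
        0 ≤ (∑ j, ∑ k, dz j (dzb k fun w => (r w : ℂ)) y * ζ j * conj (ζ k)).re)
    (p : Ideal (Rn n)) (hp : p.IsPrime) (hK : KC r x p) : dAngeloType r x = ⊤ := by
  have hrs : ContDiff ℝ ∞ fun y => (r y : ℂ) := Complex.ofRealCLM.contDiff.comp hr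
  set rr : Rn n := ⟨fun y => (r y : ℂ), mem_Rn.2 hrs⟩ with hrrdef
  have hrr : ∀ y, (rr : (Fin n → ℂ) → ℂ) y = r y := fun y => rfl
  have hrfun : (rr : (Fin n → ℂ) → ℂ) = fun y => (r y : ℂ) := rfl
  have hL : ∀ᶠ y in 𝓝 x, r y = 0 → ∀ w, linf (rl rr y) w = 0 → 0 ≤ (sesq (rm rr y) w w).re := by
    have hc : Continuous (fderiv ℝ r) := hr.continuous_fderiv (by simp)
    have hev : ∀ᶠ y in 𝓝 x, fderiv ℝ r y ≠ 0 := (hc.tendsto x).eventually (isOpen_ne.mem_nhds hd)
    filter_upwards [hev, hpsc] with y hy hy2 h0 w hw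
    have h1 := hy2 (mem_frontier_of_zero r hr h0 hy) w (by
      rw [← hw, linf]
      refine Finset.sum_congr rfl fun j _ => ?_
      rw [rl, pd_coe, hrfun, mul_comm])
    refine h1.trans_eq ?_
    congr 1
    rw [sesq]
    refine Finset.sum_congr rfl fun j _ => Finset.sum_congr rfl fun k _ => ?_
    rw [rm, pd_coe, pdb_coe, hrfun]
    ring
  have hrad : RadP x p := hK.rad
  obtain ⟨a, hcj, ha, ⟨j0, hj0⟩, hvan⟩ := van_infty r hr rr hrr x hx hd hL p hp hK
  -- the real field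
  set Z : DD n := ZZ a with hZ
  set D : DD n := Z + cjD Z with hD0
  have hD : cjD D = D := by rw [hD0, cjD_add, cjD_cjD, add_comm]
  have hZg : Z ∈ gZ a := ZZ_mem_gZ a
  have hDg : D ∈ gZ a := (gZ a).add_mem hZg (gZ_cjD a _ hZg)
  set W := mkPol a p hcj ha with hW
  have hE : ∀ i k, mu (((δ1 D) ^ i) (((δ2 D) ^ k) (psi rr))) ∈ p := by
    intro i k
    have h1 : psi rr ∈ W.Van (1 + i + k) := hvan _
    have h2 : ((δ2 D) ^ k) (psi rr) ∈ W.Van (1 + i) := W.van_pow2 hDg h1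
    have h3 : ((δ1 D) ^ i) (((δ2 D) ^ k) (psi rr)) ∈ W.Van 1 := W.van_pow hDg h2
    exact (mem_mkPol_P a p hcj ha _).1 (W.van_le_P le_rfl h3)
  have hDz : D (zc j0) ∉ p := by
    have : D (zc j0) = a j0 := by
      rw [hD0, Derivation.add_apply, hZ, ZZ_zc, cjD_apply, ZZ_zcb, map_zero, add_zero]
    rwa [this]
  obtain ⟨A, hA⟩ := Pool.Agent.V7H43.KD.taylor_pairing rr
  obtain ⟨y, hy, hy1, hyc, hyE⟩ := exists_seq rr x p hrad hE j0 hDz
  obtain ⟨e, he⟩ := Pool.Agent.V7H43.KD.specialise (fun m i j => cc D i j (y m))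
    (fun m α β => (A α β : (Fin n → ℂ) → ℂ) (y m)) (fun α β => (A α β : (Fin n → ℂ) → ℂ) x)
    (by
      intro i
      have hcont : Continuous fun y : Fin n → ℂ => (fun j => cc D i j y) :=
        continuous_pi fun j => cont_cc D i j
      obtain ⟨B0, hB0⟩ := (isCompact_closedBall x 1).exists_bound_of_continuousOn hcont.continuousOn
      refine ⟨B0, fun m j => ?_⟩
      refine (norm_le_pi_norm (fun j => cc D i j (y m)) j).trans (hB0 (y m) ?_)
      rw [Metric.mem_closedBall, dist_eq_norm]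
      exact hy1 m)
    hyc
    (fun α β => ((cont (A α β)).tendsto x).comp hy)
    (by
      intro i k K
      filter_upwards [hyE i k K] with m hm
      rw [pairing_eq hD rr A hA]
      exact hm)
  exact Pool.Agent.V7H43.KD.dAngelo_top r x (fun α β => (A α β : (Fin n → ℂ) → ℂ) x)
    (fun v hv N => hA x v hv N) e he

end Pool.Agent.V7H87.KD
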