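import Mathlib
import Pool.Agent.V7H87.KD.KCDef

set_option autoImplicit false

open Filter Topology
open scoped ContDiff

namespace Pool.Agent.V7H87.KD

variable {n : ℕ}

/-- the forms with coefficients in `A` -/
def FF (A : Set ((Fin n → ℂ) → ℂ)) : AddSubmonoid ((Fin n → ℂ) → ExteriorAlgebra ℂ (Cov n)) :=
  AddSubmonoid.closure {Φ | ∃ a ∈ A, ∃ e : ExteriorAlgebra ℂ (Cov n), Φ = fun y => a y • e}

theorem FF_smul {A : Set ((Fin n → ℂ) → ℂ)} {a : (Fin n → ℂ) → ℂ} (ha : a ∈ A)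
    (e : ExteriorAlgebra ℂ (Cov n)) : (fun y => a y • e) ∈ FF A :=
  AddSubmonoid.subset_closure ⟨a, ha, e, rfl⟩

theorem FF_coef {A : Set ((Fin n → ℂ) → ℂ)} (h0 : (0 : (Fin n → ℂ) → ℂ) ∈ A)
    (hadd : ∀ a ∈ A, ∀ b ∈ A, a + b ∈ A) (hc : ∀ a ∈ A, ∀ c : ℂ, (fun y => a y * c) ∈ A)
    {Φ : (Fin n → ℂ) → ExteriorAlgebra ℂ (Cov n)} (hΦ : Φ ∈ FF A)
    (l : ExteriorAlgebra ℂ (Cov n) →ₗ[ℂ] ℂ) : (fun y => l (Φ y)) ∈ A := by
  induction hΦ using AddSubmonoid.closure_induction with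
  | mem Φ h =>
    obtain ⟨a, ha, e, rfl⟩ := h
    simp only [map_smul, smul_eq_mul]
    exact hc a ha _
  | zero =>
    simp only [Pi.zero_apply, map_zero]
    exact h0
  | add Φ Ψ _ _ h1 h2 =>
    simp only [Pi.add_apply, map_add]
    exact hadd _ h1 _ h2

theorem FF_mul {A B C : Set ((Fin n → ℂ) → ℂ)}
    (hABC : ∀ a ∈ A, ∀ b ∈ B, (fun y => a y * b y) ∈ C)
    {Φ Ψ : (Fin n → ℂ) → ExteriorAlgebra ℂ (Cov n)} (hΦ : Φ ∈ FF A) (hΨ : Ψ ∈ FF B) :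
    (fun y => Φ y * Ψ y) ∈ FF C := by
  induction hΦ using AddSubmonoid.closure_induction with
  | mem Φ h =>
    obtain ⟨a, ha, e, rfl⟩ := h
    induction hΨ using AddSubmonoid.closure_induction with
    | mem Ψ h =>
      obtain ⟨b, hb, f, rfl⟩ := h
      have : (fun y => a y • e * b y • f) = fun y => (a y * b y) • (e * f) := by
        funext y
        rw [smul_mul_smul_comm]
      rw [this]
      exact FF_smul (hABC a ha b hb) _
    | zero =>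
      have e0 : (fun y => a y • e * (0 : (Fin n → ℂ) → ExteriorAlgebra ℂ (Cov n)) y) = 0 := by
        funext y; simp
      rw [e0]
      exact (FF C).zero_mem
    | add Φ Ψ _ _ h1 h2 =>
      simp only [Pi.add_apply, mul_add]
      exact (FF C).add_mem h1 h2
  | zero =>
    have e0 : (fun y => (0 : (Fin n → ℂ) → ExteriorAlgebra ℂ (Cov n)) y * Ψ y) = 0 := by
      funext y; simp
    rw [e0]
    exact (FF C).zero_mem
  | add Φ Ψ _ _ h1 h2 =>
    simp only [Pi.add_apply, add_mul]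
    exact (FF C).add_mem h1 h2

theorem FF_mono {A B : Set ((Fin n → ℂ) → ℂ)} (h : A ⊆ B) : FF A ≤ FF B :=
  AddSubmonoid.closure_mono fun _ ⟨a, ha, e, he⟩ => ⟨a, h ha, e, he⟩

theorem FF_sum {A : Set ((Fin n → ℂ) → ℂ)} {ι : Type*} (s : Finset ι)
    (Φ : ι → (Fin n → ℂ) → ExteriorAlgebra ℂ (Cov n)) (h : ∀ i ∈ s, Φ i ∈ FF A) :
    (fun y => ∑ i ∈ s, Φ i y) ∈ FF A := by
  have : (fun y => ∑ i ∈ s, Φ i y) = ∑ i ∈ s, Φ i := by
    funext y
    rw [Finset.sum_apply]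
  rw [this]
  exact AddSubmonoid.sum_mem _ h

/-- `∂f` has coefficients in `A` -/
theorem FF_del {A : Set ((Fin n → ℂ) → ℂ)} {f : (Fin n → ℂ) → ℂ} (h : ∀ j, dz j f ∈ A) :
    (fun y => ExteriorAlgebra.ι ℂ (del f y)) ∈ FF A := by
  have : (fun y => ExteriorAlgebra.ι ℂ (del f y)) = fun y => ∑ j, dz j f y • ExteriorAlgebra.ι ℂ (eZ j) := by
    funext y
    rw [del, map_sum]
    simp only [map_smul]
  rw [this]
  exact FF_sum _ (fun j y => dz j f y • ExteriorAlgebra.ι ℂ (eZ j)) fun j _ => FF_smul (h j) _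

theorem FF_delb {A : Set ((Fin n → ℂ) → ℂ)} {f : (Fin n → ℂ) → ℂ} (h : ∀ j, dzb j f ∈ A) :
    (fun y => ExteriorAlgebra.ι ℂ (delb f y)) ∈ FF A := by
  have : (fun y => ExteriorAlgebra.ι ℂ (delb f y)) = fun y => ∑ j, dzb j f y • ExteriorAlgebra.ι ℂ (eZb j) := by
    funext y
    rw [delb, map_sum]
    simp only [map_smul]
  rw [this]
  exact FF_sum _ (fun j y => dzb j f y • ExteriorAlgebra.ι ℂ (eZb j)) fun j _ => FF_smul (h j) _

theorem FF_ddb {A : Set ((Fin n → ℂ) → ℂ)} {f : (Fin n → ℂ) → ℂ} (h : ∀ j k, dz j (dzb k f) ∈ A) :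
    (fun y => ddb f y) ∈ FF A := by
  simp only [ddb]
  exact FF_sum _ (fun j y => ∑ k, dz j (dzb k f) y • (ExteriorAlgebra.ι ℂ (eZ j) * ExteriorAlgebra.ι ℂ (eZb k)))
    fun j _ => FF_sum _
      (fun k y => dz j (dzb k f) y • (ExteriorAlgebra.ι ℂ (eZ j) * ExteriorAlgebra.ι ℂ (eZb k)))
      fun k _ => FF_smul (h j k) _

theorem FF_one {A : Set ((Fin n → ℂ) → ℂ)} (h1 : (fun _ => 1) ∈ A) :
    (fun _ => (1 : ExteriorAlgebra ℂ (Cov n))) ∈ FF A := by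
  have : (fun _ : Fin n → ℂ => (1 : ExteriorAlgebra ℂ (Cov n))) =
      fun y => (fun _ : Fin n → ℂ => (1 : ℂ)) y • (1 : ExteriorAlgebra ℂ (Cov n)) := by
    funext y
    simp
  rw [this]
  exact FF_smul h1 _

theorem FF_pow {A : Set ((Fin n → ℂ) → ℂ)} (h1 : (fun _ => 1) ∈ A)
    (hmul : ∀ a ∈ A, ∀ b ∈ A, (fun y => a y * b y) ∈ A)
    {Φ : (Fin n → ℂ) → ExteriorAlgebra ℂ (Cov n)} (hΦ : Φ ∈ FF A) (m : ℕ) :
    (fun y => Φ y ^ m) ∈ FF A := by
  induction m with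
  | zero =>
    simp only [pow_zero]
    exact FF_one h1
  | succ m ih =>
    simp only [pow_succ]
    exact FF_mul hmul ih hΦ

/-- the product of the forms `∂f` -/
noncomputable def PP (fs : List ((Fin n → ℂ) → ℂ)) (y : Fin n → ℂ) : ExteriorAlgebra ℂ (Cov n) :=
  (fs.map fun f => ExteriorAlgebra.ι ℂ (del f y)).prod

theorem FF_PP {A : Set ((Fin n → ℂ) → ℂ)} (h1 : (fun _ => 1) ∈ A)
    (hmul : ∀ a ∈ A, ∀ b ∈ A, (fun y => a y * b y) ∈ A) (fs : List ((Fin n → ℂ) → ℂ))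
    (h : ∀ f ∈ fs, ∀ j, dz j f ∈ A) : PP fs ∈ FF A := by
  induction fs with
  | nil => exact FF_one h1
  | cons f fs ih =>
    have e : PP (f :: fs) = fun y => ExteriorAlgebra.ι ℂ (del f y) * PP fs y := by
      funext y
      simp [PP]
    rw [e]
    exact FF_mul hmul (FF_del (h f List.mem_cons_self)) (ih fun g hg => h g (List.mem_cons_of_mem _ hg))

/-- the remaining factor -/
noncomputable def TL (r : (Fin n → ℂ) → ℝ) (j : ℕ) (y : Fin n → ℂ) : ExteriorAlgebra ℂ (Cov n) :=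
  ExteriorAlgebra.ι ℂ (del (fun w => (r w : ℂ)) y) *
    (ExteriorAlgebra.ι ℂ (delb (fun w => (r w : ℂ)) y) * ddb (fun w => (r w : ℂ)) y ^ (n - 1 - j))

theorem kohnForm_eq (r : (Fin n → ℂ) → ℝ) (fs : List ((Fin n → ℂ) → ℂ)) (y : Fin n → ℂ) :
    kohnForm r fs y = PP fs y * TL r fs.length y := by
  rw [kohnForm, PP, TL]
  simp only [mul_assoc]

theorem FF_TL {A : Set ((Fin n → ℂ) → ℂ)} (h1 : (fun _ => 1) ∈ A)
    (hmul : ∀ a ∈ A, ∀ b ∈ A, (fun y => a y * b y) ∈ A) (r : (Fin n → ℂ) → ℝ)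
    (h : ∀ j, dz j (fun w => (r w : ℂ)) ∈ A) (hb : ∀ j, dzb j (fun w => (r w : ℂ)) ∈ A)
    (hd : ∀ j k, dz j (dzb k (fun w => (r w : ℂ))) ∈ A) (j : ℕ) : TL r j ∈ FF A :=
  FF_mul hmul (FF_del h) (FF_mul hmul (FF_delb hb) (FF_pow h1 hmul (FF_ddb hd) _))

/-! ### smooth functions near a point -/

section

variable {x : Fin n → ℂ}

theorem SmoothNear.of_contDiff {f : (Fin n → ℂ) → ℂ} (h : ContDiff ℝ ∞ f) : SmoothNear x f :=
  Eventually.of_forall fun _ => h.contDiffAt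

theorem SmoothNear.add {f g : (Fin n → ℂ) → ℂ} (hf : SmoothNear x f) (hg : SmoothNear x g) :
    SmoothNear x (f + g) := by
  filter_upwards [hf, hg] with y h1 h2
  exact h1.add h2

theorem SmoothNear.mul {f g : (Fin n → ℂ) → ℂ} (hf : SmoothNear x f) (hg : SmoothNear x g) :
    SmoothNear x (fun y => f y * g y) := by
  filter_upwards [hf, hg] with y h1 h2
  exact h1.mul h2

theorem SmoothNear.pow {f : (Fin n → ℂ) → ℂ} (hf : SmoothNear x f) (m : ℕ) :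
    SmoothNear x (fun y => f y ^ m) := by
  filter_upwards [hf] with y h1
  exact h1.pow m

theorem SmoothNear.const (c : ℂ) : SmoothNear x fun _ => c := .of_contDiff contDiff_const

theorem SmoothNear.conj {f : (Fin n → ℂ) → ℂ} (hf : SmoothNear x f) :
    SmoothNear x (fun y => (starRingEnd ℂ) (f y)) := by
  filter_upwards [hf] with y h1
  exact (Complex.conjCLE.contDiff.contDiffAt (x := f y)).comp y h1

theorem SmoothNear.fderiv {f : (Fin n → ℂ) → ℂ} (hf : SmoothNear x f) (v : Fin n → ℂ) :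
    SmoothNear x (fun y => fderiv ℝ f y v) := by
  filter_upwards [hf] with y h1
  exact (ContDiffAt.fderiv_right (m := ∞) h1 (by simp)).clm_apply contDiffAt_const

theorem SmoothNear.dz {f : (Fin n → ℂ) → ℂ} (hf : SmoothNear x f) (j : Fin n) :
    SmoothNear x (dz j f) := by
  have h1 := hf.fderiv (Pi.single j 1)
  have h2 := (SmoothNear.const (x := x) (-Complex.I)).mul (hf.fderiv (Pi.single j Complex.I))
  have h3 := (h1.add h2).mul (SmoothNear.const (x := x) (1 / 2))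
  have e : KD.dz j f = fun y => ((fun y => _root_.fderiv ℝ f y (Pi.single j 1)) +
      fun y => -Complex.I * _root_.fderiv ℝ f y (Pi.single j Complex.I)) y * (1 / 2) := by
    funext y
    simp only [KD.dz, Pi.add_apply]
    ring
  rw [e]
  exact h3

theorem SmoothNear.dzb {f : (Fin n → ℂ) → ℂ} (hf : SmoothNear x f) (j : Fin n) :
    SmoothNear x (dzb j f) := by
  have h1 := hf.fderiv (Pi.single j 1)
  have h2 := (SmoothNear.const (x := x) (Complex.I)).mul (hf.fderiv (Pi.single j Complex.I))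
  have h3 := (h1.add h2).mul (SmoothNear.const (x := x) (1 / 2))
  have e : KD.dzb j f = fun y => ((fun y => _root_.fderiv ℝ f y (Pi.single j 1)) +
      fun y => Complex.I * _root_.fderiv ℝ f y (Pi.single j Complex.I)) y * (1 / 2) := by
    funext y
    simp only [KD.dzb, Pi.add_apply]
    ring
  rw [e]
  exact h3

theorem smoothNear_form (r : (Fin n → ℂ) → ℝ) (hr : ContDiff ℝ ∞ r) (fs : List ((Fin n → ℂ) → ℂ))
    (h : ∀ f ∈ fs, SmoothNear x f) (l : ExteriorAlgebra ℂ (Cov n) →ₗ[ℂ] ℂ) :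
    SmoothNear x fun y => l (kohnForm r fs y) := by
  have hrs : SmoothNear x fun w => (r w : ℂ) := .of_contDiff (Complex.ofRealCLM.contDiff.comp hr)
  have hmul : ∀ a ∈ {f | SmoothNear x f}, ∀ b ∈ {f | SmoothNear x f},
      (fun y => a y * b y) ∈ {f | SmoothNear x f} := fun a ha b hb => SmoothNear.mul ha hb
  have h1 : (fun _ => (1 : ℂ)) ∈ {f | SmoothNear x f} := SmoothNear.const 1
  have key : (fun y => kohnForm r fs y) ∈ FF {f | SmoothNear x f} := by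
    simp only [kohnForm_eq]
    refine FF_mul hmul (FF_PP h1 hmul fs fun f hf j => (h f hf).dz j)
      (FF_TL h1 hmul r (fun j => hrs.dz j) (fun j => hrs.dzb j) (fun j k => (hrs.dzb k).dz j) _)
  exact FF_coef (A := {f | SmoothNear x f}) (SmoothNear.const 0) (fun a ha b hb => SmoothNear.add ha hb)
    (fun a ha c => SmoothNear.mul ha (SmoothNear.const c)) key l

end

/-- the functions which belong to an ideal -/
def Fn (q : Ideal (Rn n)) : Set ((Fin n → ℂ) → ℂ) := {f | ∃ g ∈ q, (g : (Fin n → ℂ) → ℂ) = f}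

theorem Fn_mul {q q' : Ideal (Rn n)} : ∀ a ∈ Fn q, ∀ b ∈ Fn q', (fun y => a y * b y) ∈ Fn q := by
  rintro a ⟨g, hg, rfl⟩ b ⟨h, -, rfl⟩
  exact ⟨g * h, q.mul_mem_right _ hg, rfl⟩

theorem Fn_mul' {q q' : Ideal (Rn n)} : ∀ a ∈ Fn q', ∀ b ∈ Fn q, (fun y => a y * b y) ∈ Fn q := by
  rintro a ⟨g, -, rfl⟩ b ⟨h, hh, rfl⟩
  exact ⟨g * h, q.mul_mem_left _ hh, rfl⟩

theorem Fn_coef {q : Ideal (Rn n)} {Φ : (Fin n → ℂ) → ExteriorAlgebra ℂ (Cov n)} (hΦ : Φ ∈ FF (Fn q))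
    (l : ExteriorAlgebra ℂ (Cov n) →ₗ[ℂ] ℂ) : (fun y => l (Φ y)) ∈ Fn q := by
  refine FF_coef (A := Fn q) ⟨0, q.zero_mem, rfl⟩ ?_ ?_ hΦ l
  · rintro a ⟨g, hg, rfl⟩ b ⟨h, hh, rfl⟩
    exact ⟨g + h, q.add_mem hg hh, rfl⟩
  · rintro a ⟨g, hg, rfl⟩ c
    exact ⟨g * algebraMap ℂ (Rn n) c, q.mul_mem_right _ hg, rfl⟩

theorem Fn_top_one : (fun _ => (1 : ℂ)) ∈ Fn (⊤ : Ideal (Rn n)) := ⟨1, trivial, rfl⟩

theorem Fn_top_dz (f : Rn n) (j : Fin n) : dz j (f : (Fin n → ℂ) → ℂ) ∈ Fn (⊤ : Ideal (Rn n)) :=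
  ⟨pd j f, trivial, pd_coe j f⟩

/-- the coefficients of Kohn's forms are smooth -/
theorem TL_mem (r : (Fin n → ℂ) → ℝ) (hr : ContDiff ℝ ∞ r) (j : ℕ) :
    TL r j ∈ FF (Fn (⊤ : Ideal (Rn n))) := by
  have hrs : ContDiff ℝ ∞ fun y => (r y : ℂ) := Complex.ofRealCLM.contDiff.comp hr
  set rr : Rn n := ⟨fun y => (r y : ℂ), mem_Rn.2 hrs⟩ with hrr
  have e : (fun w => (r w : ℂ)) = (rr : (Fin n → ℂ) → ℂ) := rfl
  refine FF_TL Fn_top_one (Fn_mul (q' := ⊤)) r (fun j => ?_) (fun j => ?_) (fun j k => ?_) _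
  · rw [e]; exact ⟨pd j rr, trivial, pd_coe j rr⟩
  · rw [e]; exact ⟨pdb j rr, trivial, pdb_coe j rr⟩
  · rw [e]; exact ⟨pd j (pdb k rr), trivial, by rw [pd_coe, pdb_coe]⟩

theorem PP_mem (fs : List (Rn n)) :
    PP (fs.map fun f : Rn n => (f : (Fin n → ℂ) → ℂ)) ∈ FF (Fn (⊤ : Ideal (Rn n))) := by
  refine FF_PP Fn_top_one (Fn_mul (q' := ⊤)) _ fun f hf j => ?_
  obtain ⟨g, -, rfl⟩ := List.mem_map.1 hf
  exact Fn_top_dz g j

/-- the computation modulo `p` -/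
theorem PP_mod (p : Ideal (Rn n)) (s : Rn n) (fs : List (Rn n)) (h : ∀ f ∈ fs, s * f ∈ p) :
    ∃ Φ ∈ FF (Fn p), ∀ y, (s : (Fin n → ℂ) → ℂ) y ^ fs.length •
      PP ((fs.map fun f => s * f).map fun f : Rn n => (f : (Fin n → ℂ) → ℂ)) y =
      (s : (Fin n → ℂ) → ℂ) y ^ (2 * fs.length) • PP (fs.map fun f : Rn n => (f : (Fin n → ℂ) → ℂ)) y +
        Φ y := by
  induction fs with
  | nil => exact ⟨0, (FF _).zero_mem, fun y => by simp⟩
  | cons f fs ih =>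
    obtain ⟨Φ, hΦ, hy⟩ := ih fun g hg => h g (List.mem_cons_of_mem _ hg)
    have hf : s * f ∈ p := h f List.mem_cons_self
    -- the forms
    have k1 : (fun y => ((s * f : Rn n) : (Fin n → ℂ) → ℂ) y • (1 : ExteriorAlgebra ℂ (Cov n))) ∈ FF (Fn p) :=
      FF_smul (A := Fn p) ⟨s * f, hf, rfl⟩ _
    have k2 : (fun y => ExteriorAlgebra.ι ℂ (del (s : (Fin n → ℂ) → ℂ) y)) ∈ FF (Fn (⊤ : Ideal (Rn n))) :=
      FF_del fun j => Fn_top_dz s j
    have k3 : (fun y => ExteriorAlgebra.ι ℂ (del (f : (Fin n → ℂ) → ℂ) y)) ∈ FF (Fn (⊤ : Ideal (Rn n))) :=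
      FF_del fun j => Fn_top_dz f j
    have k4 : (fun y => (s : (Fin n → ℂ) → ℂ) y ^ (2 * fs.length) • (1 : ExteriorAlgebra ℂ (Cov n))) ∈
        FF (Fn (⊤ : Ideal (Rn n))) := FF_smul (A := Fn (⊤ : Ideal (Rn n))) (a := fun y => (s : (Fin n → ℂ) → ℂ) y ^ (2 * fs.length))
          ⟨s ^ (2 * fs.length), trivial, rfl⟩ _
    have k5 : (fun y => (s : (Fin n → ℂ) → ℂ) y ^ 2 • (1 : ExteriorAlgebra ℂ (Cov n))) ∈
        FF (Fn (⊤ : Ideal (Rn n))) := FF_smul (A := Fn (⊤ : Ideal (Rn n))) (a := fun y => (s : (Fin n → ℂ) → ℂ) y ^ 2)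
          ⟨s ^ 2, trivial, rfl⟩ _
    have m1 := FF_mul (Fn_mul (q := p) (q' := ⊤)) (FF_mul (Fn_mul (q := p) (q' := ⊤)) k1 k2)
      (FF_mul (Fn_mul (q := ⊤) (q' := ⊤)) k4 (PP_mem fs))
    have m2 := FF_mul (Fn_mul' (q := p) (q' := ⊤)) (FF_mul (Fn_mul (q := ⊤) (q' := ⊤)) k5 k3) hΦ
    have m3 := FF_mul (Fn_mul (q := p) (q' := ⊤)) (FF_mul (Fn_mul (q := p) (q' := ⊤)) k1 k2)
      (FF_mono (fun a ⟨g, _, hg⟩ => ⟨g, trivial, hg⟩ : Fn p ⊆ Fn ⊤) hΦ)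
    refine ⟨_, (FF _).add_mem ((FF _).add_mem m1 m2) m3, fun y => ?_⟩
    have hd : del ((s * f : Rn n) : (Fin n → ℂ) → ℂ) y = (s : (Fin n → ℂ) → ℂ) y • del (f : (Fin n → ℂ) → ℂ) y +
        (f : (Fin n → ℂ) → ℂ) y • del (s : (Fin n → ℂ) → ℂ) y := by
      simp only [del, Finset.smul_sum, ← Finset.sum_add_distrib]
      refine Finset.sum_congr rfl fun j _ => ?_
      rw [← pd_coe, ← pd_coe, ← pd_coe, Derivation.leibniz]
      have : ((s • pd j f + f • pd j s : Rn n) : (Fin n → ℂ) → ℂ) y =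
        (s : (Fin n → ℂ) → ℂ) y * (pd j f : (Fin n → ℂ) → ℂ) y +
        (f : (Fin n → ℂ) → ℂ) y * (pd j s : (Fin n → ℂ) → ℂ) y := rfl
      rw [this, add_smul, smul_smul, smul_smul]
    have e1 : PP (((f :: fs).map fun f => s * f).map fun f : Rn n => (f : (Fin n → ℂ) → ℂ)) y =
        ExteriorAlgebra.ι ℂ (del ((s * f : Rn n) : (Fin n → ℂ) → ℂ) y) *
          PP ((fs.map fun f => s * f).map fun f : Rn n => (f : (Fin n → ℂ) → ℂ)) y := by
      simp [PP]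
    have e2 : PP ((f :: fs).map fun f : Rn n => (f : (Fin n → ℂ) → ℂ)) y =
        ExteriorAlgebra.ι ℂ (del (f : (Fin n → ℂ) → ℂ) y) *
          PP (fs.map fun f : Rn n => (f : (Fin n → ℂ) → ℂ)) y := by
      simp [PP]
    have hsf : ((s * f : Rn n) : (Fin n → ℂ) → ℂ) y = (s : (Fin n → ℂ) → ℂ) y * (f : (Fin n → ℂ) → ℂ) y := rfl
    rw [e1, e2, List.length_cons, hd, map_add, map_smul, map_smul]
    simp only [Pi.add_apply, hsf]
    set P' := PP ((fs.map fun f => s * f).map fun f : Rn n => (f : (Fin n → ℂ) → ℂ)) y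
    set P0 := PP (fs.map fun f : Rn n => (f : (Fin n → ℂ) → ℂ)) y
    set σ := (s : (Fin n → ℂ) → ℂ) y
    set φ := (f : (Fin n → ℂ) → ℂ) y
    set df := ExteriorAlgebra.ι ℂ (del (f : (Fin n → ℂ) → ℂ) y)
    set ds := ExteriorAlgebra.ι ℂ (del (s : (Fin n → ℂ) → ℂ) y)
    have hyy : σ ^ fs.length • P' = σ ^ (2 * fs.length) • P0 + Φ y := hy y
    have e3 : σ ^ (fs.length + 1) • ((σ • df + φ • ds) * P') =
        (σ ^ 2 • df + (σ * φ) • ds) * (σ ^ fs.length • P') := by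
      simp only [add_mul, smul_mul_assoc, mul_smul_comm, smul_add, smul_smul]
      congr 2 <;> ring
    rw [e3, hyy]
    simp only [add_mul, mul_add, smul_mul_assoc, mul_smul_comm, smul_smul, one_mul, mul_one, smul_add]
    module

end Pool.Agent.V7H87.KD
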