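import Mathlib
import Pool.Agent.V7H87.KD.Frm

set_option autoImplicit false

open Filter Topology
open scoped ContDiff

namespace Pool.Agent.V7H87.KD

variable {n : ℕ}

section rad

variable {x : Fin n → ℂ} {S : Set ((Fin n → ℂ) → ℂ)}

theorem idealGen_smooth (hS : ∀ f ∈ S, SmoothNear x f) {f : (Fin n → ℂ) → ℂ} (hf : f ∈ idealGen x S) :
    SmoothNear x f := by
  obtain ⟨N, a, s, ha, hs, rfl⟩ := hf
  have : ∀ (t : Finset (Fin N)), SmoothNear x fun y => ∑ i ∈ t, a i y * s i y := by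
    intro t
    classical
    induction t using Finset.induction_on with
    | empty => simpa using SmoothNear.const 0
    | insert b t hb ih =>
      simp only [Finset.sum_insert hb]
      exact ((ha b).mul (hS _ (hs b))).add ih
  exact this Finset.univ

theorem idealGen_mul {a f : (Fin n → ℂ) → ℂ} (ha : SmoothNear x a) (hf : f ∈ idealGen x S) :
    (fun y => a y * f y) ∈ idealGen x S := by
  obtain ⟨N, b, s, hb, hs, rfl⟩ := hf
  refine ⟨N, fun i y => a y * b i y, s, fun i => ha.mul (hb i), hs, ?_⟩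
  funext y
  rw [Finset.mul_sum]
  exact Finset.sum_congr rfl fun i _ => by ring

theorem idealGen_add {f g : (Fin n → ℂ) → ℂ} (hf : f ∈ idealGen x S) (hg : g ∈ idealGen x S) :
    (fun y => f y + g y) ∈ idealGen x S := by
  obtain ⟨N, a, s, ha, hs, rfl⟩ := hf
  obtain ⟨M, b, t, hb, ht, rfl⟩ := hg
  refine ⟨N + M, Fin.append a b, Fin.append s t, fun i => ?_, fun i => ?_, ?_⟩
  · refine Fin.addCases (fun i => ?_) (fun i => ?_) i
    · rw [Fin.append_left]; exact ha i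
    · rw [Fin.append_right]; exact hb i
  · refine Fin.addCases (fun i => ?_) (fun i => ?_) i
    · rw [Fin.append_left]; exact hs i
    · rw [Fin.append_right]; exact ht i
  · funext y
    rw [Fin.sum_univ_add]
    simp only [Fin.append_left, Fin.append_right]

theorem idealGen_mem {f : (Fin n → ℂ) → ℂ} (hf : f ∈ S) : f ∈ idealGen x S := by
  refine ⟨1, fun _ _ => 1, fun _ => f, fun _ => SmoothNear.const 1, fun _ => hf, ?_⟩
  funext y
  simp

theorem realRadical_mem (hS : ∀ f ∈ S, SmoothNear x f) {f : (Fin n → ℂ) → ℂ} (hf : f ∈ S) :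
    f ∈ realRadical x S :=
  ⟨hS f hf, 1, le_rfl, f, idealGen_mem hf, Eventually.of_forall fun y => by rw [pow_one]⟩

theorem realRadical_rad {f g : (Fin n → ℂ) → ℂ} (hf : f ∈ realRadical x S) (hg : SmoothNear x g) (m : ℕ)
    (hm : 1 ≤ m) (h : ∀ᶠ y in 𝓝 x, ‖g y‖ ^ m ≤ ‖f y‖) : g ∈ realRadical x S := by
  obtain ⟨-, k, hk, f', hf', hle⟩ := hf
  refine ⟨hg, m * k, Nat.mul_pos hm hk, f', hf', ?_⟩
  filter_upwards [h, hle] with y h1 h2
  rw [pow_mul]
  exact (pow_le_pow_left₀ (by positivity) h1 k).trans h2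

theorem realRadical_mul {a f : (Fin n → ℂ) → ℂ} (ha : SmoothNear x a) (hf : f ∈ realRadical x S) :
    (fun y => a y * f y) ∈ realRadical x S := by
  obtain ⟨hfs, k, hk, f', hf', hle⟩ := hf
  refine ⟨ha.mul hfs, k, hk, fun y => a y ^ k * f' y, idealGen_mul (ha.pow k) hf', ?_⟩
  filter_upwards [hle] with y h
  rw [norm_mul, mul_pow, norm_mul, norm_pow]
  gcongr

theorem realRadical_add (hS : ∀ f ∈ S, SmoothNear x f) {f g : (Fin n → ℂ) → ℂ}
    (hf : f ∈ realRadical x S) (hg : g ∈ realRadical x S) : (f + g) ∈ realRadical x S := by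
  obtain ⟨hfs, k, hk, f', hf', hfle⟩ := hf
  obtain ⟨hgs, m, hm, g', hg', hgle⟩ := hg
  -- common exponent
  have hf's := idealGen_smooth hS hf'
  have hg's := idealGen_smooth hS hg'
  have hF : (fun y => f' y ^ m) ∈ idealGen x S := by
    have := idealGen_mul (hf's.pow (m - 1)) hf'
    have e : (fun y => f' y ^ (m - 1) * f' y) = fun y => f' y ^ m := by
      funext y
      rw [← pow_succ, Nat.sub_add_cancel hm]
    rwa [e] at this
  have hG : (fun y => g' y ^ k) ∈ idealGen x S := by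
    have := idealGen_mul (hg's.pow (k - 1)) hg'
    have e : (fun y => g' y ^ (k - 1) * g' y) = fun y => g' y ^ k := by
      funext y
      rw [← pow_succ, Nat.sub_add_cancel hk]
    rwa [e] at this
  have hF2 := idealGen_mul ((hf's.pow m).conj) hF
  have hG2 := idealGen_mul ((hg's.pow k).conj) hG
  have hsum := idealGen_mul (SmoothNear.const (x := x) ((2 : ℂ) ^ (2 * (k * m)))) (idealGen_add hF2 hG2)
  refine ⟨hfs.add hgs, 2 * (k * m), by nlinarith [Nat.mul_pos hk hm], _, hsum, ?_⟩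
  filter_upwards [hfle, hgle] with y h1 h2
  have a1 : ‖f y‖ ^ (k * m) ≤ ‖f' y‖ ^ m := by
    rw [pow_mul]
    exact pow_le_pow_left₀ (by positivity) h1 m
  have a2 : ‖g y‖ ^ (k * m) ≤ ‖g' y‖ ^ k := by
    rw [mul_comm, pow_mul]
    exact pow_le_pow_left₀ (by positivity) h2 k
  have e : (2 : ℂ) ^ (2 * (k * m)) * ((starRingEnd ℂ) (f' y ^ m) * f' y ^ m +
      (starRingEnd ℂ) (g' y ^ k) * g' y ^ k) =
      (((2 : ℝ) ^ (2 * (k * m)) * ((‖f' y‖ ^ m) ^ 2 + (‖g' y‖ ^ k) ^ 2) : ℝ) : ℂ) := by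
    rw [mul_comm ((starRingEnd ℂ) (f' y ^ m)), mul_comm ((starRingEnd ℂ) (g' y ^ k)), Complex.mul_conj,
      Complex.mul_conj, Complex.normSq_eq_norm_sq, Complex.normSq_eq_norm_sq, norm_pow, norm_pow]
    push_cast
    ring
  rw [e, Complex.norm_real, Real.norm_eq_abs, abs_of_nonneg (by positivity)]
  have b1 : ‖(f + g) y‖ ≤ 2 * max ‖f y‖ ‖g y‖ := by
    refine (norm_add_le _ _).trans ?_
    have := le_max_left ‖f y‖ ‖g y‖
    have := le_max_right ‖f y‖ ‖g y‖
    linarith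
  have b2 : (max ‖f y‖ ‖g y‖) ^ (2 * (k * m)) ≤ (‖f' y‖ ^ m) ^ 2 + (‖g' y‖ ^ k) ^ 2 := by
    rw [mul_comm 2, pow_mul]
    rcases le_total ‖f y‖ ‖g y‖ with h | h
    · rw [max_eq_right h]
      have := pow_le_pow_left₀ (by positivity) a2 2
      have h0 : 0 ≤ (‖f' y‖ ^ m) ^ 2 := by positivity
      linarith
    · rw [max_eq_left h]
      have := pow_le_pow_left₀ (by positivity) a1 2
      have h0 : 0 ≤ (‖g' y‖ ^ k) ^ 2 := by positivity
      linarith
  calc ‖(f + g) y‖ ^ (2 * (k * m)) ≤ (2 * max ‖f y‖ ‖g y‖) ^ (2 * (k * m)) :=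
        pow_le_pow_left₀ (norm_nonneg _) b1 _
    _ = 2 ^ (2 * (k * m)) * (max ‖f y‖ ‖g y‖) ^ (2 * (k * m)) := by rw [mul_pow]
    _ ≤ 2 ^ (2 * (k * m)) * ((‖f' y‖ ^ m) ^ 2 + (‖g' y‖ ^ k) ^ 2) := by gcongr

end rad

section kohn

variable (r : (Fin n → ℂ) → ℝ) (hr : ContDiff ℝ ∞ r) (x : Fin n → ℂ)

/-- the set of which `kohnIdeal r x k` is the real radical -/
def SS : ℕ → Set ((Fin n → ℂ) → ℂ)
  | 0 => {fun y => (r y : ℂ)} ∪ {h | ∃ l : ExteriorAlgebra ℂ (Cov n) →ₗ[ℂ] ℂ, h = fun y => l (kohnForm r [] y)}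
  | k + 1 => kohnIdeal r x k ∪ kohnCoeffs r (kohnIdeal r x k)

theorem kohnIdeal_eq (k : ℕ) : kohnIdeal r x k = realRadical x (SS r x k) := by
  cases k with
  | zero => rfl
  | succ k => rfl

include hr in
theorem SS_smooth (k : ℕ) : ∀ f ∈ SS r x k, SmoothNear x f := by
  cases k with
  | zero =>
    rintro f (rfl | ⟨l, rfl⟩)
    · exact .of_contDiff (Complex.ofRealCLM.contDiff.comp hr)
    · exact smoothNear_form r hr [] (by simp) l
  | succ k =>
    have h1 : ∀ f ∈ kohnIdeal r x k, SmoothNear x f := by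
      intro f hf
      rw [kohnIdeal_eq] at hf
      exact hf.1
    rintro f (hf | ⟨fs, -, -, hfs, l, rfl⟩)
    · exact h1 f hf
    · exact smoothNear_form r hr fs (fun g hg => h1 g (hfs g hg)) l

include hr in
theorem kohnIdeal_mono_succ (k : ℕ) : kohnIdeal r x k ⊆ kohnIdeal r x (k + 1) := by
  intro f hf
  rw [kohnIdeal_eq r x (k + 1)]
  exact realRadical_mem (SS_smooth r hr x (k + 1)) (Or.inl hf)

include hr in
theorem kohnIdeal_mono {j k : ℕ} (h : j ≤ k) : kohnIdeal r x j ⊆ kohnIdeal r x k := by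
  induction k, h using Nat.le_induction with
  | base => exact subset_rfl
  | succ m _ ih => exact ih.trans (kohnIdeal_mono_succ r hr x m)

/-- the union of Kohn's ideals -/
def Iinf : Ideal (Rn n) where
  carrier := {f | ∃ k, (f : (Fin n → ℂ) → ℂ) ∈ kohnIdeal r x k}
  add_mem' := by
    rintro f g ⟨k, hk⟩ ⟨m, hm⟩
    refine ⟨max k m, ?_⟩
    have h1 := kohnIdeal_mono r hr x (le_max_left k m) hk
    have h2 := kohnIdeal_mono r hr x (le_max_right k m) hm
    rw [kohnIdeal_eq] at h1 h2 ⊢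
    exact realRadical_add (SS_smooth r hr x _) h1 h2
  zero_mem' := by
    refine ⟨0, ?_⟩
    rw [kohnIdeal_eq]
    have h1 : (fun y => (r y : ℂ)) ∈ realRadical x (SS r x 0) :=
      realRadical_mem (SS_smooth r hr x 0) (Or.inl rfl)
    exact realRadical_rad h1 (SmoothNear.const 0) 1 le_rfl (Eventually.of_forall fun y => by simp)
  smul_mem' := by
    rintro a f ⟨k, hk⟩
    refine ⟨k, ?_⟩
    rw [kohnIdeal_eq] at hk ⊢
    exact realRadical_mul (.of_contDiff (smooth a)) hk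

theorem mem_Iinf (f : Rn n) : f ∈ Iinf r hr x ↔ ∃ k, (f : (Fin n → ℂ) → ℂ) ∈ kohnIdeal r x k := Iff.rfl

theorem form_mem (hr : ContDiff ℝ ∞ r) (fs : List (Rn n)) (l : ExteriorAlgebra ℂ (Cov n) →ₗ[ℂ] ℂ) :
    ∃ g : Rn n, (g : (Fin n → ℂ) → ℂ) =
      fun y => l (kohnForm r (fs.map fun f : Rn n => (f : (Fin n → ℂ) → ℂ)) y) := by
  have key : (fun y => kohnForm r (fs.map fun f : Rn n => (f : (Fin n → ℂ) → ℂ)) y) ∈
      FF (Fn (⊤ : Ideal (Rn n))) := by
    simp only [kohnForm_eq]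
    exact FF_mul (Fn_mul (q := ⊤) (q' := ⊤)) (PP_mem fs) (TL_mem r hr _)
  obtain ⟨g, -, hg⟩ := Fn_coef key l
  exact ⟨g, hg⟩

theorem KC_Iinf : KC r x (Iinf r hr x) where
  rad := by
    rintro g f ⟨k, hk⟩ m hm h
    refine ⟨k, ?_⟩
    rw [kohnIdeal_eq] at hk ⊢
    exact realRadical_rad hk (.of_contDiff (smooth g)) m hm h
  r_mem := by
    intro g hg
    refine ⟨0, ?_⟩
    rw [kohnIdeal_eq, hg]
    exact realRadical_mem (SS_smooth r hr x 0) (Or.inl rfl)
  form := by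
    intro fs hlen hfs l
    obtain ⟨g, hg⟩ := form_mem r hr fs l
    refine ⟨g, ?_, hg⟩
    cases fs with
    | nil =>
      refine ⟨0, ?_⟩
      rw [kohnIdeal_eq, hg]
      exact realRadical_mem (SS_smooth r hr x 0) (Or.inr ⟨l, rfl⟩)
    | cons f0 fs0 =>
      obtain ⟨K, hK⟩ : ∃ K, ∀ f ∈ f0 :: fs0, (f : (Fin n → ℂ) → ℂ) ∈ kohnIdeal r x K := by
        generalize f0 :: fs0 = gs at hfs
        induction gs with
        | nil => exact ⟨0, by simp⟩
        | cons f gs ih =>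
          obtain ⟨K, hK⟩ := ih fun g hg => hfs g (List.mem_cons_of_mem _ hg)
          obtain ⟨k, hk⟩ := hfs f List.mem_cons_self
          refine ⟨max k K, fun g hg => ?_⟩
          rcases List.mem_cons.1 hg with rfl | hg
          · exact kohnIdeal_mono r hr x (le_max_left _ _) hk
          · exact kohnIdeal_mono r hr x (le_max_right _ _) (hK g hg)
      refine ⟨K + 1, ?_⟩
      rw [kohnIdeal_eq, hg]
      refine realRadical_mem (SS_smooth r hr x (K + 1)) (Or.inr ⟨_, ?_, ?_, ?_, l, rfl⟩)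
      · simp
      · rw [List.length_map]
        exact hlen
      · intro f hf
        obtain ⟨g, hg, rfl⟩ := List.mem_map.1 hf
        exact hK g hg

/-- the quotient of a Kohn-closed ideal -/
def quo (q : Ideal (Rn n)) (s : Rn n) : Ideal (Rn n) where
  carrier := {f | s * f ∈ q}
  add_mem' := by
    intro f g (hf : s * f ∈ q) (hg : s * g ∈ q)
    show s * (f + g) ∈ q
    rw [mul_add]
    exact q.add_mem hf hg
  zero_mem' := by
    show s * 0 ∈ q
    rw [mul_zero]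
    exact q.zero_mem
  smul_mem' := by
    intro a f (hf : s * f ∈ q)
    show s * (a * f) ∈ q
    rw [mul_left_comm]
    exact q.mul_mem_left _ hf

theorem mem_quo (q : Ideal (Rn n)) (s f : Rn n) : f ∈ quo q s ↔ s * f ∈ q := Iff.rfl

include hr in
theorem KC_quo {q : Ideal (Rn n)} (hq : KC r x q) (s : Rn n) : KC r x (quo q s) where
  rad := by
    intro g f hf m hm h
    rw [mem_quo] at hf ⊢
    refine hq.rad (s * g) (s ^ (m - 1) * (s * f)) (q.mul_mem_left _ hf) m hm ?_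
    filter_upwards [h] with y hy
    have e1 : ((s * g : Rn n) : (Fin n → ℂ) → ℂ) y = (s : (Fin n → ℂ) → ℂ) y * (g : (Fin n → ℂ) → ℂ) y := rfl
    have e2 : ((s ^ (m - 1) * (s * f) : Rn n) : (Fin n → ℂ) → ℂ) y =
      (s : (Fin n → ℂ) → ℂ) y ^ (m - 1) * ((s : (Fin n → ℂ) → ℂ) y * (f : (Fin n → ℂ) → ℂ) y) := rfl
    have e3 : (s : (Fin n → ℂ) → ℂ) y ^ (m - 1) * ((s : (Fin n → ℂ) → ℂ) y * (f : (Fin n → ℂ) → ℂ) y) =
      (s : (Fin n → ℂ) → ℂ) y ^ m * (f : (Fin n → ℂ) → ℂ) y := by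
      rw [← mul_assoc, ← pow_succ, Nat.sub_add_cancel hm]
    rw [e1, e2, e3, norm_mul, mul_pow, norm_mul, norm_pow]
    gcongr
  r_mem := by
    intro g hg
    exact q.mul_mem_left _ (hq.r_mem g hg)
  form := by
    intro fs hlen hfs l
    obtain ⟨c, hc⟩ := form_mem r hr fs l
    refine ⟨c, ?_, hc⟩
    rw [mem_quo]
    obtain ⟨Φ, hΦ, hy⟩ := PP_mod q s fs hfs
    have hlen' : (fs.map fun f => s * f).length ≤ n - 1 := by rwa [List.length_map]
    have hfs' : ∀ f ∈ fs.map fun f => s * f, f ∈ q := by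
      intro f hf
      obtain ⟨g, hg, rfl⟩ := List.mem_map.1 hf
      exact hfs g hg
    obtain ⟨g1, hg1, hg1e⟩ := hq.form _ hlen' hfs' l
    obtain ⟨g2, hg2, hg2e⟩ := Fn_coef (FF_mul (Fn_mul (q := q) (q' := ⊤)) hΦ (TL_mem r hr fs.length)) l
    -- s^{2j} c ∈ q
    have key : s ^ (2 * fs.length) * c ∈ q := by
      have e : s ^ (2 * fs.length) * c = s ^ fs.length * g1 - g2 := by
        ext y
        have a1 : ((s ^ (2 * fs.length) * c : Rn n) : (Fin n → ℂ) → ℂ) y =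
          (s : (Fin n → ℂ) → ℂ) y ^ (2 * fs.length) * (c : (Fin n → ℂ) → ℂ) y := rfl
        have a2 : ((s ^ fs.length * g1 - g2 : Rn n) : (Fin n → ℂ) → ℂ) y =
          (s : (Fin n → ℂ) → ℂ) y ^ fs.length * (g1 : (Fin n → ℂ) → ℂ) y - (g2 : (Fin n → ℂ) → ℂ) y := rfl
        rw [a1, a2, hc, hg1e, hg2e]
        simp only
        have b1 : ∀ (z : ℂ) (v : ExteriorAlgebra ℂ (Cov n)), z * l v = l (z • v) := fun z v => by
          rw [map_smul, smul_eq_mul]
        rw [b1, b1, ← map_sub]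
        congr 1
        rw [kohnForm_eq, kohnForm_eq, ← smul_mul_assoc, ← smul_mul_assoc, hy y, List.length_map,
          List.length_map, List.length_map, add_mul, add_sub_cancel_right]
      rw [e]
      exact q.sub_mem (q.mul_mem_left _ hg1) hg2
    rcases Nat.eq_zero_or_pos fs.length with h0 | h0
    · rw [h0, mul_zero, pow_zero, one_mul] at key
      exact q.mul_mem_left _ key
    · refine hq.rad (s * c) (s ^ (2 * fs.length) * c * c ^ (2 * fs.length - 1)) (q.mul_mem_right _ key)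
        (2 * fs.length) (by omega) (Eventually.of_forall fun y => ?_)
      have e1 : ((s * c : Rn n) : (Fin n → ℂ) → ℂ) y = (s : (Fin n → ℂ) → ℂ) y * (c : (Fin n → ℂ) → ℂ) y := rfl
      have e2 : ((s ^ (2 * fs.length) * c * c ^ (2 * fs.length - 1) : Rn n) : (Fin n → ℂ) → ℂ) y =
        (s : (Fin n → ℂ) → ℂ) y ^ (2 * fs.length) * (c : (Fin n → ℂ) → ℂ) y *
          (c : (Fin n → ℂ) → ℂ) y ^ (2 * fs.length - 1) := rfl
      have e3 : (s : (Fin n → ℂ) → ℂ) y ^ (2 * fs.length) * (c : (Fin n → ℂ) → ℂ) y *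
          (c : (Fin n → ℂ) → ℂ) y ^ (2 * fs.length - 1) =
          ((s : (Fin n → ℂ) → ℂ) y * (c : (Fin n → ℂ) → ℂ) y) ^ (2 * fs.length) := by
        rw [mul_assoc, ← pow_succ', mul_pow, Nat.sub_add_cancel (by omega)]
      rw [e1, e2, e3, norm_pow]

theorem KC_sSup (C : Set (Ideal (Rn n))) (hC : C.Nonempty) (hchain : IsChain (· ≤ ·) C)
    (h : ∀ q ∈ C, KC r x q) : KC r x (sSup C) := by
  have hdir : DirectedOn (· ≤ ·) C := hchain.directedOn
  have hmem : ∀ f : Rn n, f ∈ sSup C ↔ ∃ q ∈ C, f ∈ q := fun f =>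
    Submodule.mem_sSup_of_directed hC hdir
  constructor
  · intro g f hf m hm hle
    obtain ⟨q, hq, hfq⟩ := (hmem f).1 hf
    exact (hmem g).2 ⟨q, hq, (h q hq).rad g f hfq m hm hle⟩
  · intro g hg
    obtain ⟨q, hq⟩ := hC
    exact (hmem g).2 ⟨q, hq, (h q hq).r_mem g hg⟩
  · intro fs hlen hfs l
    obtain ⟨q, hq, hfsq⟩ : ∃ q ∈ C, ∀ f ∈ fs, f ∈ q := by
      clear hlen
      induction fs with
      | nil =>
        obtain ⟨q, hq⟩ := hC
        exact ⟨q, hq, by simp⟩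
      | cons f gs ih =>
        obtain ⟨q1, hq1, hgs⟩ := ih fun g hg => hfs g (List.mem_cons_of_mem _ hg)
        obtain ⟨q2, hq2, hf⟩ := (hmem f).1 (hfs f List.mem_cons_self)
        obtain ⟨q, hq, h1, h2⟩ := hdir q1 hq1 q2 hq2
        refine ⟨q, hq, fun g hg => ?_⟩
        rcases List.mem_cons.1 hg with rfl | hg
        · exact h2 hf
        · exact h1 (hgs g hg)
    obtain ⟨g, hg, hge⟩ := (h q hq).form fs hlen hfsq l
    exact ⟨g, (hmem g).2 ⟨q, hq, hg⟩, hge⟩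

include hr in
theorem exists_prime (h : ∀ k, (fun _ => (1 : ℂ)) ∉ kohnIdeal r x k) :
    ∃ p : Ideal (Rn n), p.IsPrime ∧ KC r x p := by
  have h0 : Iinf r hr x ∈ {q : Ideal (Rn n) | KC r x q ∧ (1 : Rn n) ∉ q} := by
    refine ⟨KC_Iinf r hr x, ?_⟩
    rintro ⟨k, hk⟩
    exact h k hk
  obtain ⟨p, -, hp⟩ := zorn_le_nonempty₀ {q : Ideal (Rn n) | KC r x q ∧ (1 : Rn n) ∉ q}
    (by
      intro C hC hchain y hy
      refine ⟨sSup C, ⟨KC_sSup r x C ⟨y, hy⟩ hchain fun q hq => (hC hq).1, ?_⟩,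
        fun z hz => le_sSup hz⟩
      intro h1
      obtain ⟨q, hq, h2⟩ := (Submodule.mem_sSup_of_directed ⟨y, hy⟩ hchain.directedOn).1 h1
      exact (hC hq).2 h2) _ h0
  obtain ⟨⟨hKC, h1⟩, hmax⟩ := hp
  refine ⟨p, ⟨fun htop => h1 (by rw [htop]; trivial), ?_⟩, hKC⟩
  intro s f hsf
  by_contra hcon
  push Not at hcon
  obtain ⟨hs, hf⟩ := hcon
  have hq : quo p s ∈ {q : Ideal (Rn n) | KC r x q ∧ (1 : Rn n) ∉ q} := by
    refine ⟨KC_quo r hr x hKC s, ?_⟩
    rw [mem_quo, mul_one]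
    exact hs
  have hle : p ≤ quo p s := fun g hg => p.mul_mem_left _ hg
  exact hf (hmax hq hle hsf)

end kohn

end Pool.Agent.V7H87.KD
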